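import Pool.Agent.H6.ST.CB.Defs

/-! # Integer Birkhoff decomposition (row ST-CB2) -/

namespace Pool.Agent.H6.ST

namespace Birk

theorem aux (N : ℕ) (hN : 0 < N) : ∀ (c s : ℕ) (A : Fin N → Fin N → ℕ),
    (∀ i, ∑ j, A i j = s) → (∀ j, ∑ i, A i j = s) →
    (Finset.univ.filter (fun p : Fin N × Fin N => A p.1 p.2 ≠ 0)).card ≤ c →
    ∃ (R : ℕ) (π : Fin R → Equiv.Perm (Fin N)) (n : Fin R → ℕ),
      R ≤ c ∧ ∑ k, n k = s ∧ ∀ i j, A i j = ∑ k, if π k i = j then n k else 0 := by
  intro c
  induction c with
  | zero =>
    intro s A hr hc hcard
    have hz : ∀ i j, A i j = 0 := by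
      intro i j
      by_contra h
      have h1 : (i, j) ∈ Finset.univ.filter (fun p : Fin N × Fin N => A p.1 p.2 ≠ 0) := by
        simp [h]
      have h2 := Finset.card_pos.mpr ⟨_, h1⟩
      omega
    have hs : s = 0 := by
      rw [← hr ⟨0, hN⟩]
      exact Finset.sum_eq_zero (fun j _ => hz _ j)
    refine ⟨0, fun k => k.elim0, fun k => k.elim0, le_refl _, ?_, ?_⟩
    · simp [hs]
    · intro i j
      simp [hz i j]
  | succ c ih =>
    intro s A hr hc hcard
    rcases Nat.eq_zero_or_pos s with hs | hs
    · subst hs
      have hz : ∀ i j, A i j = 0 := by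
        intro i j
        have := Finset.single_le_sum (f := fun j => A i j) (fun _ _ => Nat.zero_le _)
          (Finset.mem_univ j)
        simp only [hr i] at this
        omega
      refine ⟨0, fun k => k.elim0, fun k => k.elim0, Nat.zero_le _, ?_, ?_⟩
      · simp
      · intro i j
        simp [hz i j]
    · have hall : ∀ S : Finset (Fin N),
          S.card ≤ (S.biUnion (fun i => Finset.univ.filter (fun j => A i j ≠ 0))).card := by
        intro S
        set T := S.biUnion (fun i => Finset.univ.filter (fun j => A i j ≠ 0)) with hT
        have h1 : S.card * s = ∑ i ∈ S, ∑ j ∈ T, A i j := by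
          rw [← smul_eq_mul, ← Finset.sum_const]
          refine Finset.sum_congr rfl (fun i hi => ?_)
          rw [← hr i]
          symm
          refine Finset.sum_subset (Finset.subset_univ _) (fun j _ hj => ?_)
          by_contra h
          exact hj (Finset.mem_biUnion.mpr ⟨i, hi, by simp [h]⟩)
        have h2 : ∑ i ∈ S, ∑ j ∈ T, A i j ≤ T.card * s := by
          rw [Finset.sum_comm, ← smul_eq_mul, ← Finset.sum_const]
          refine Finset.sum_le_sum (fun j _ => ?_)
          rw [← hc j]
          exact Finset.sum_le_sum_of_subset (Finset.subset_univ _)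
        have h3 : S.card * s ≤ T.card * s := h1 ▸ h2
        exact Nat.le_of_mul_le_mul_right h3 hs
      obtain ⟨f, hf, hft⟩ := (Finset.all_card_le_biUnion_card_iff_exists_injective
        (fun i => Finset.univ.filter (fun j => A i j ≠ 0))).mp hall
      have hft' : ∀ i, A i (f i) ≠ 0 := fun i => by simpa using hft i
      let e : Equiv.Perm (Fin N) := Equiv.ofBijective f (Finite.injective_iff_bijective.mp hf)
      have he : ∀ i, e i = f i := fun i => rfl
      obtain ⟨i₀, _, hi₀⟩ := Finset.exists_min_image Finset.univ (fun i => A i (f i))
        ⟨⟨0, hN⟩, Finset.mem_univ _⟩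
      set m := A i₀ (f i₀) with hm
      have hmle : ∀ i, m ≤ A i (f i) := fun i => hi₀ i (Finset.mem_univ i)
      have hmpos : 0 < m := Nat.pos_of_ne_zero (hft' i₀)
      let A' : Fin N → Fin N → ℕ := fun i j => A i j - if e i = j then m else 0
      have hA' : ∀ i j, A' i j + (if e i = j then m else 0) = A i j := by
        intro i j
        by_cases h : e i = j
        · have h1 := hmle i
          rw [← he i, h] at h1
          simp only [A', h, if_true]
          omega
        · simp [A', h]
      have hrow : ∀ i, ∑ j, A' i j = s - m := by
        intro i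
        have h1 : ∑ j, A' i j + ∑ j, (if e i = j then m else 0) = s := by
          rw [← Finset.sum_add_distrib, ← hr i]
          exact Finset.sum_congr rfl (fun j _ => hA' i j)
        rw [Finset.sum_ite_eq] at h1
        simp only [Finset.mem_univ, if_true] at h1
        omega
      have hcol : ∀ j, ∑ i, A' i j = s - m := by
        intro j
        have h1 : ∑ i, A' i j + ∑ i, (if e i = j then m else 0) = s := by
          rw [← Finset.sum_add_distrib, ← hc j]
          exact Finset.sum_congr rfl (fun i _ => hA' i j)
        have h2 : ∑ i, (if e i = j then m else 0) = m := by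
          rw [Finset.sum_eq_single (e.symm j)]
          · simp
          · intro i _ hi
            rw [if_neg]
            intro h
            exact hi (by rw [← h]; simp)
          · intro h
            exact absurd (Finset.mem_univ _) h
        omega
      have hcard' : (Finset.univ.filter (fun p : Fin N × Fin N => A' p.1 p.2 ≠ 0)).card ≤ c := by
        have hsub : Finset.univ.filter (fun p : Fin N × Fin N => A' p.1 p.2 ≠ 0) ⊆
            (Finset.univ.filter (fun p : Fin N × Fin N => A p.1 p.2 ≠ 0)).erase (i₀, f i₀) := by
          intro p hp
          rw [Finset.mem_filter] at hp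
          rw [Finset.mem_erase, Finset.mem_filter]
          refine ⟨?_, Finset.mem_univ _, ?_⟩
          · rintro rfl
            apply hp.2
            simp only [A', he, if_true]
            omega
          · intro h
            apply hp.2
            simp only [A', h]
            omega
        have hmem : (i₀, f i₀) ∈ Finset.univ.filter (fun p : Fin N × Fin N => A p.1 p.2 ≠ 0) := by
          rw [Finset.mem_filter]
          exact ⟨Finset.mem_univ _, hft' i₀⟩
        have h1 := Finset.card_le_card hsub
        rw [Finset.card_erase_of_mem hmem] at h1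
        omega
      have hms : m ≤ s := by
        have h1 := Finset.single_le_sum (f := fun j => A i₀ j) (fun _ _ => Nat.zero_le _)
          (Finset.mem_univ (f i₀))
        simp only [hr i₀] at h1
        omega
      obtain ⟨R, π, n, hR, hsum, hdec⟩ := ih (s - m) A' hrow hcol hcard'
      refine ⟨R + 1, Fin.cons e π, Fin.cons m n, by omega, ?_, ?_⟩
      · rw [Fin.sum_univ_succ]
        simp only [Fin.cons_zero, Fin.cons_succ, hsum]
        omega
      · intro i j
        rw [Fin.sum_univ_succ]
        simp only [Fin.cons_zero, Fin.cons_succ]
        rw [← hdec i j, ← hA' i j]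
        exact add_comm _ _

end Birk

theorem cb_birk : CBBirk := by
  intro N s A hr hc
  rcases Nat.eq_zero_or_pos N with hN | hN
  · subst hN
    refine ⟨1, fun _ => 1, fun _ => s, by omega, by simp, fun i => i.elim0⟩
  · obtain ⟨R, π, n, hR, hsum, hdec⟩ := Birk.aux N hN (N ^ 2) s A hr hc (by
      refine (Finset.card_le_univ _).trans ?_
      simp [pow_two])
    exact ⟨R, π, n, by omega, hsum, hdec⟩

end Pool.Agent.H6.ST
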