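import Pool.Agent.H6.ST.CB.Defs

/-! # The sharp trichotomy (ST), row ST-CB4: the block lemma -/

namespace Pool.Agent.H6.ST

open Set
open scoped ENNReal ContDiff

noncomputable section

private theorem cb4_mul {X : Type} {N m : ℕ} (e : Fin N × Cell m ↪ X)
    (a b : Cell m → Equiv.Perm (Fin N)) :
    mvP e a * mvP e b = mvP e (fun r => a r * b r) := by
  classical
  have h1 : fib (fun r => a r * b r) = fib a * fib b := by
    ext z <;> rfl
  unfold mvP
  rw [h1]
  have := (Equiv.Perm.viaEmbeddingHom e).map_mul (fib a) (fib b)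
  simp only [Equiv.Perm.viaEmbeddingHom_apply] at this
  convert this.symm

private theorem cb4_one {X : Type} {N m : ℕ} (e : Fin N × Cell m ↪ X) :
    mvP e (fun _ : Cell m => (1 : Equiv.Perm (Fin N))) = 1 := by
  have h := cb4_mul e (fun _ : Cell m => (1 : Equiv.Perm (Fin N))) (fun _ => 1)
  simp only [mul_one] at h
  exact mul_eq_left.mp h

/-- the children of a block -/
private def cb4_ch (ρ : Fin 4 → ℕ) (i : ℕ) : Fin 4 → ℕ := fun k => 2 * ρ k + i / 2 ^ (k : ℕ) % 2

private def cb4_idx {m : ℕ} (d : ℕ) (r : Cell m) : ℕ :=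
  ((r 0 : ℕ) / 2 ^ d % 2) + 2 * ((r 1 : ℕ) / 2 ^ d % 2) + 4 * ((r 2 : ℕ) / 2 ^ d % 2) +
    8 * ((r 3 : ℕ) / 2 ^ d % 2)

private theorem cb4_idx_lt {m : ℕ} (d : ℕ) (r : Cell m) : cb4_idx d r < 16 := by
  unfold cb4_idx
  have h0 := Nat.mod_lt ((r 0 : ℕ) / 2 ^ d) (show 0 < 2 by norm_num)
  have h1 := Nat.mod_lt ((r 1 : ℕ) / 2 ^ d) (show 0 < 2 by norm_num)
  have h2 := Nat.mod_lt ((r 2 : ℕ) / 2 ^ d) (show 0 < 2 by norm_num)
  have h3 := Nat.mod_lt ((r 3 : ℕ) / 2 ^ d) (show 0 < 2 by norm_num)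
  omega

private theorem cb4_child {m j d : ℕ} (hj : j + 1 + d = m) (ρ : Fin 4 → ℕ) (i : ℕ) (hi : i < 16)
    (r : Cell m) : blk m (j + 1) (cb4_ch ρ i) r ↔ blk m j ρ r ∧ cb4_idx d r = i := by
  have e1 : m - (j + 1) = d := by omega
  have e2 : m - j = d + 1 := by omega
  have e3 : ∀ k, (r k : ℕ) / 2 ^ (d + 1) = (r k : ℕ) / 2 ^ d / 2 := by
    intro k
    rw [pow_succ, Nat.div_div_eq_div_mul]
  unfold blk cb4_ch cb4_idx
  rw [e1, e2]
  have hr0 := Nat.mod_lt ((r 0 : ℕ) / 2 ^ d) (show 0 < 2 by norm_num)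
  have hr1 := Nat.mod_lt ((r 1 : ℕ) / 2 ^ d) (show 0 < 2 by norm_num)
  have hr2 := Nat.mod_lt ((r 2 : ℕ) / 2 ^ d) (show 0 < 2 by norm_num)
  have hr3 := Nat.mod_lt ((r 3 : ℕ) / 2 ^ d) (show 0 < 2 by norm_num)
  have q0 : ((0 : Fin 4) : ℕ) = 0 := rfl
  have q1 : ((1 : Fin 4) : ℕ) = 1 := rfl
  have q2 : ((2 : Fin 4) : ℕ) = 2 := rfl
  have q3 : ((3 : Fin 4) : ℕ) = 3 := rfl
  constructor
  · intro h
    have h0 := h 0
    have h1 := h 1
    have h2 := h 2
    have h3 := h 3
    rw [q0] at h0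
    rw [q1] at h1
    rw [q2] at h2
    rw [q3] at h3
    norm_num at h0 h1 h2 h3
    refine ⟨fun k => ?_, ?_⟩
    · rw [e3, h k]
      omega
    · omega
  · rintro ⟨h, hidx⟩ k
    have hk := h k
    rw [e3] at hk
    fin_cases k
    · simp only [Fin.zero_eta, pow_zero, Nat.div_one] at hk ⊢
      omega
    · simp only [Fin.mk_one, pow_one] at hk ⊢
      omega
    · simp only [Fin.reduceFinMk] at hk ⊢
      norm_num
      omega
    · simp only [Fin.reduceFinMk] at hk ⊢
      norm_num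
      omega

private theorem cb4_ch_lt {j : ℕ} {ρ : Fin 4 → ℕ} (hρ : ∀ k, ρ k < 2 ^ j) (i : ℕ) (k : Fin 4) :
    cb4_ch ρ i k < 2 ^ (j + 1) := by
  unfold cb4_ch
  have h1 := hρ k
  have h2 := Nat.mod_lt (i / 2 ^ (k : ℕ)) (show 0 < 2 by norm_num)
  rw [pow_succ]
  omega

open Classical in
private theorem cb4_fib {m j d : ℕ} (hj : j + 1 + d = m) (ρ : Fin 4 → ℕ) (A : Cell m → Prop)
    [DecidablePred A] :
    (Finset.univ.filter (fun r => blk m j ρ r ∧ A r)).card = ∑ i ∈ Finset.range 16,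
      (Finset.univ.filter (fun r => blk m (j + 1) (cb4_ch ρ i) r ∧ A r)).card := by
  rw [Finset.card_eq_sum_card_fiberwise (f := cb4_idx d) (t := Finset.range 16)
    (fun r _ => Finset.mem_coe.mpr (Finset.mem_range.mpr (cb4_idx_lt d r)))]
  refine Finset.sum_congr rfl fun i hi => ?_
  rw [Finset.mem_range] at hi
  congr 1
  ext r
  simp only [Finset.mem_filter, Finset.mem_univ, true_and]
  rw [cb4_child hj ρ i hi r]
  tauto

open Classical in
private theorem cb4_card {m : ℕ} : ∀ (d j : ℕ), j + d = m → ∀ ρ : Fin 4 → ℕ, (∀ k, ρ k < 2 ^ j) →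
    (Finset.univ.filter (fun r : Cell m => blk m j ρ r ∧ True)).card = 16 ^ d := by
  intro d
  induction d with
  | zero =>
    intro j hj ρ hρ
    have e1 : m - j = 0 := by omega
    have hjm : j = m := by omega
    subst hjm
    rw [pow_zero, Finset.card_eq_one]
    refine ⟨fun k => ⟨ρ k, hρ k⟩, ?_⟩
    ext r
    simp only [Finset.mem_filter, Finset.mem_univ, true_and, Finset.mem_singleton, and_true, blk,
      e1, pow_zero, Nat.div_one]
    constructor
    · intro h
      funext k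
      exact Fin.ext (h k)
    · rintro rfl k
      rfl
  | succ d ih =>
    intro j hj ρ hρ
    have hfib := cb4_fib (m := m) (j := j) (d := d) (by omega) ρ (fun _ => True)
    rw [hfib, Finset.sum_congr rfl fun i _ => ih (j + 1) (by omega) (cb4_ch ρ i) (cb4_ch_lt hρ i),
      Finset.sum_const, Finset.card_range, smul_eq_mul, pow_succ, mul_comm]

private theorem cb4_ico (p q : ℕ) (F : ℕ → Prop) [DecidablePred F] : ∀ K : ℕ,
    ∑ i ∈ Finset.range K, ((Finset.Ico (p + i * q) (p + i * q + q)).filter F).card =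
      ((Finset.Ico p (p + K * q)).filter F).card := by
  intro K
  simp only [Finset.card_filter]
  induction K with
  | zero => simp
  | succ K ih =>
    rw [Finset.sum_range_succ, ih, Finset.sum_Ico_consecutive _ (by omega) (by omega)]
    congr 2
    ring

private theorem cb4_tel (p q : ℕ) (f : ℕ → ℕ) (hf : Monotone f) : ∀ K : ℕ,
    ∑ i ∈ Finset.range (K + 1), ((f (p + i * q + q - 1) : ℝ) - f (p + i * q)) ≤
      (f (p + (K + 1) * q - 1) : ℝ) - f p := by
  intro K
  induction K with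
  | zero => simp
  | succ K ih =>
    rw [Finset.sum_range_succ]
    have h1 : (f (p + (K + 1) * q - 1) : ℝ) ≤ f (p + (K + 1) * q) := by
      exact_mod_cast hf (by omega)
    have h2 : p + (K + 1) * q + q - 1 = p + (K + 1 + 1) * q - 1 := by
      congr 1; ring
    rw [h2]
    linarith

open Classical in
private theorem cb4_const {X : Type} {P : Equiv.Perm X → ℝ → Prop} (hP : PK P) {N m : ℕ}
    (e : Fin N × Cell m ↪ X) (c : ℕ → ℝ) (hc0 : ∀ j, 0 ≤ c j) (hc : ∀ j ≤ m, ∀ (ρ : Fin 4 → ℕ)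
    (π : Equiv.Perm (Fin N)), P (mvP e (fun r => if blk m j ρ r then π else 1)) (c j))
    (f : ℕ → ℕ) (hf : Monotone f) (π : ℕ → Equiv.Perm (Fin N)) (j₀ n : ℕ)
    (h1 : ∀ t, π (f t) ≠ 1 → t < n) (h2 : ∀ j < j₀, n < 16 ^ (m - j)) (d j : ℕ) (hj : j + d = m)
    (ρ : Fin 4 → ℕ) (hρ : ∀ k, ρ k < 2 ^ j) (p : ℕ) (hV : f (p + 16 ^ d - 1) = f p) :
    ∃ g : Cell m → ℕ, (∀ v, (Finset.univ.filter (fun r => blk m j ρ r ∧ g r = v)).card =
      ((Finset.Ico p (p + 16 ^ d)).filter (fun t => f t = v)).card) ∧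
    P (mvP e (fun r => if blk m j ρ r then π (g r) else 1)) ((if j₀ ≤ j then c j else 0) +
      16 * ((f (p + 16 ^ d - 1) : ℝ) - f p) * ∑ i ∈ Finset.Ico (j + 1) (m + 1),
        if j₀ ≤ i then c i else 0) := by
  have hq : 0 < 16 ^ d := by positivity
  have hcon : ∀ t, p ≤ t → t < p + 16 ^ d → f t = f p := by
    intro t ht1 ht2
    have a1 := hf ht1
    have a2 : f t ≤ f (p + 16 ^ d - 1) := hf (by omega)
    omega
  refine ⟨fun _ => f p, fun v => ?_, ?_⟩
  · by_cases hv : f p = v
    · have e1 : (Finset.univ.filter (fun r : Cell m => blk m j ρ r ∧ f p = v)) =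
          Finset.univ.filter (fun r : Cell m => blk m j ρ r ∧ True) := by
        ext r
        simp [hv]
      have e2 : (Finset.Ico p (p + 16 ^ d)).filter (fun t => f t = v) =
          Finset.Ico p (p + 16 ^ d) := by
        refine Finset.filter_true_of_mem fun t ht => ?_
        rw [Finset.mem_Ico] at ht
        rw [hcon t ht.1 ht.2, hv]
      rw [e1, e2, cb4_card d j hj ρ hρ, Nat.card_Ico]
      omega
    · have e1 : (Finset.univ.filter (fun r : Cell m => blk m j ρ r ∧ f p = v)) = ∅ := by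
        refine Finset.filter_false_of_mem fun r _ hr => hv hr.2
      have e2 : (Finset.Ico p (p + 16 ^ d)).filter (fun t => f t = v) = ∅ := by
        refine Finset.filter_false_of_mem fun t ht hft => ?_
        rw [Finset.mem_Ico] at ht
        exact hv ((hcon t ht.1 ht.2).symm.trans hft)
      rw [e1, e2, Finset.card_empty, Finset.card_empty]
  · rw [hV, sub_self, mul_zero, zero_mul, add_zero]
    by_cases hπ : π (f p) = 1
    · simp only [hπ, ite_self]
      rw [cb4_one]
      refine hP.mono _ _ _ ?_ hP.one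
      split_ifs
      · exact hc0 j
      · exact le_rfl
    · have hj0 : j₀ ≤ j := by
        by_contra hlt
        have a1 := h2 j (not_le.mp hlt)
        have a2 : f (p + 16 ^ d - 1) = f p := hV
        have a3 := h1 (p + 16 ^ d - 1) (by rw [a2]; exact hπ)
        have a4 : m - j = d := by omega
        rw [a4] at a1
        omega
      rw [if_pos hj0]
      exact hc j (by omega) ρ (π (f p))

open Classical in
private theorem cb4_main {X : Type} {P : Equiv.Perm X → ℝ → Prop} (hP : PK P) {N m : ℕ}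
    (e : Fin N × Cell m ↪ X) (c : ℕ → ℝ) (hc0 : ∀ j, 0 ≤ c j) (hc : ∀ j ≤ m, ∀ (ρ : Fin 4 → ℕ)
    (π : Equiv.Perm (Fin N)), P (mvP e (fun r => if blk m j ρ r then π else 1)) (c j))
    (f : ℕ → ℕ) (hf : Monotone f) (π : ℕ → Equiv.Perm (Fin N)) (j₀ n : ℕ)
    (h1 : ∀ t, π (f t) ≠ 1 → t < n) (h2 : ∀ j < j₀, n < 16 ^ (m - j)) : ∀ (d j : ℕ), j + d = m →
    ∀ (ρ : Fin 4 → ℕ), (∀ k, ρ k < 2 ^ j) → ∀ (p : ℕ),
    ∃ g : Cell m → ℕ, (∀ v, (Finset.univ.filter (fun r => blk m j ρ r ∧ g r = v)).card =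
      ((Finset.Ico p (p + 16 ^ d)).filter (fun t => f t = v)).card) ∧
    P (mvP e (fun r => if blk m j ρ r then π (g r) else 1)) ((if j₀ ≤ j then c j else 0) +
      16 * ((f (p + 16 ^ d - 1) : ℝ) - f p) * ∑ i ∈ Finset.Ico (j + 1) (m + 1),
        if j₀ ≤ i then c i else 0) := by
  intro d
  induction d with
  | zero =>
    intro j hj ρ hρ p
    exact cb4_const hP e c hc0 hc f hf π j₀ n h1 h2 0 j hj ρ hρ p (by simp)
  | succ d ih =>
    intro j hj ρ hρ p
    by_cases hV : f (p + 16 ^ (d + 1) - 1) = f p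
    · exact cb4_const hP e c hc0 hc f hf π j₀ n h1 h2 (d + 1) j hj ρ hρ p hV
    have hj' : j + 1 + d = m := by omega
    have hq : 0 < 16 ^ d := by positivity
    have hq16 : 16 ^ (d + 1) = 16 * 16 ^ d := by rw [pow_succ, mul_comm]
    choose G hG1 hG2 using fun i : ℕ => ih (j + 1) (by omega) (cb4_ch ρ i) (cb4_ch_lt hρ i)
      (p + i * 16 ^ d)
    refine ⟨fun r => G (cb4_idx d r) r, fun v => ?_, ?_⟩
    · have hfib := cb4_fib hj' ρ (fun r => G (cb4_idx d r) r = v)
      refine hfib.trans ?_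
      rw [hq16, ← cb4_ico p (16 ^ d) (fun t => f t = v) 16]
      refine Finset.sum_congr rfl fun i hi => ?_
      rw [Finset.mem_range] at hi
      rw [← hG1 i v]
      congr 1
      ext r
      simp only [Finset.mem_filter, Finset.mem_univ, true_and]
      constructor
      · rintro ⟨a1, a2⟩
        refine ⟨a1, ?_⟩
        rwa [((cb4_child hj' ρ i hi r).mp a1).2] at a2
      · rintro ⟨a1, a2⟩
        refine ⟨a1, ?_⟩
        rwa [((cb4_child hj' ρ i hi r).mp a1).2]
    · set S2 : ℝ := ∑ i ∈ Finset.Ico (j + 1 + 1) (m + 1), if j₀ ≤ i then c i else 0 with hS2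
      have hc' : ∀ i, (0 : ℝ) ≤ if j₀ ≤ i then c i else 0 := by
        intro i
        split_ifs
        · exact hc0 i
        · exact le_rfl
      have hS20 : 0 ≤ S2 := Finset.sum_nonneg fun i _ => hc' i
      have key : ∀ K ≤ 16, P (mvP e (fun r => if blk m j ρ r ∧ cb4_idx d r < K then
          π (G (cb4_idx d r) r) else 1)) (∑ i ∈ Finset.range K,
          ((if j₀ ≤ j + 1 then c (j + 1) else 0) +
            16 * ((f (p + i * 16 ^ d + 16 ^ d - 1) : ℝ) - f (p + i * 16 ^ d)) * S2)) := by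
        intro K
        induction K with
        | zero =>
          intro _
          simp only [Nat.not_lt_zero, and_false, if_false, Finset.range_zero, Finset.sum_empty]
          rw [cb4_one]
          exact hP.one
        | succ K ihK =>
          intro hK
          have a1 := hP.mul _ _ _ _ (ihK (by omega)) (hG2 K)
          rw [cb4_mul, ← Finset.sum_range_succ] at a1
          have e1 : (fun r : Cell m => (if blk m j ρ r ∧ cb4_idx d r < K then
              π (G (cb4_idx d r) r) else 1) * (if blk m (j + 1) (cb4_ch ρ K) r then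
              π (G K r) else 1)) = fun r => if blk m j ρ r ∧ cb4_idx d r < K + 1 then
              π (G (cb4_idx d r) r) else 1 := by
            funext r
            rw [cb4_child hj' ρ K (by omega) r]
            by_cases b1 : blk m j ρ r
            · rcases Nat.lt_trichotomy (cb4_idx d r) K with b2 | b2 | b2
              · rw [if_pos ⟨b1, b2⟩, if_neg (by omega), if_pos ⟨b1, by omega⟩, mul_one]
              · rw [if_neg (by omega), if_pos ⟨b1, b2⟩, if_pos ⟨b1, by omega⟩, one_mul, b2]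
              · rw [if_neg (by omega), if_neg (by omega), if_neg (by omega), one_mul]
            · rw [if_neg (fun h => b1 h.1), if_neg (fun h => b1 h.1), if_neg (fun h => b1 h.1),
                one_mul]
          rw [e1] at a1
          exact a1
      have h16 := key 16 le_rfl
      have e2 : (fun r : Cell m => if blk m j ρ r ∧ cb4_idx d r < 16 then
          π (G (cb4_idx d r) r) else 1) = fun r => if blk m j ρ r then
          π (G (cb4_idx d r) r) else 1 := by
        funext r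
        by_cases b1 : blk m j ρ r
        · rw [if_pos ⟨b1, cb4_idx_lt d r⟩, if_pos b1]
        · rw [if_neg (fun h => b1 h.1), if_neg b1]
      rw [e2] at h16
      refine hP.mono _ _ _ ?_ h16
      have htel := cb4_tel p (16 ^ d) f hf 15
      rw [Finset.sum_add_distrib, Finset.sum_const, Finset.card_range, nsmul_eq_mul,
        ← Finset.sum_mul, ← Finset.mul_sum, Finset.sum_eq_sum_Ico_succ_bot (by omega), ← hS2]
      have hVr : (1 : ℝ) ≤ (f (p + 16 ^ (d + 1) - 1) : ℝ) - f p := by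
        have b1 : f p ≤ f (p + 16 ^ (d + 1) - 1) := hf (by
          have : 0 < 16 ^ (d + 1) := by positivity
          omega)
        have b2 : f p + 1 ≤ f (p + 16 ^ (d + 1) - 1) := by omega
        have b3 : (f p : ℝ) + 1 ≤ f (p + 16 ^ (d + 1) - 1) := by exact_mod_cast b2
        linarith
      have htel' : ∑ i ∈ Finset.range 16, ((f (p + i * 16 ^ d + 16 ^ d - 1) : ℝ) -
          f (p + i * 16 ^ d)) ≤ (f (p + 16 ^ (d + 1) - 1) : ℝ) - f p := by
        rw [hq16]
        exact htel
      have hcj := hc' (j + 1)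
      have hcj0 := hc' j
      set V : ℝ := (f (p + 16 ^ (d + 1) - 1) : ℝ) - f p with hVdef
      set T : ℝ := ∑ i ∈ Finset.range 16, ((f (p + i * 16 ^ d + 16 ^ d - 1) : ℝ) -
          f (p + i * 16 ^ d)) with hT
      have g1 : 16 * T * S2 ≤ 16 * V * S2 := by gcongr
      have g2 : ((16 : ℕ) : ℝ) * (if j₀ ≤ j + 1 then c (j + 1) else 0) ≤
          16 * V * (if j₀ ≤ j + 1 then c (j + 1) else 0) := by
        push_cast
        nlinarith
      rw [mul_add]
      linarith

theorem cb_blk : CBBlk := by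
  classical
  intro X P hP N m e c hc0 hc f hf π j₀ n h1 h2
  obtain ⟨g, hg1, hg2⟩ := cb4_main hP e c hc0 (fun j hj ρ π => by convert hc j hj ρ π) f hf π j₀ n
    h1 h2 m 0 (by omega) (fun _ => 0) (fun _ => by norm_num) 0
  have hb : ∀ r : Cell m, blk m 0 (fun _ => 0) r := by
    intro r k
    rw [Nat.sub_zero]
    exact Nat.div_eq_of_lt (r k).isLt
  refine ⟨g, fun v => ?_, ?_⟩
  · have := hg1 v
    simp only [hb, true_and, zero_add] at this
    rw [Finset.range_eq_Ico]
    convert this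
  · simp only [hb, if_true] at hg2
    refine hP.mono _ _ _ ?_ hg2
    have hc' : ∀ i, (0 : ℝ) ≤ if j₀ ≤ i then c i else 0 := by
      intro i
      split_ifs
      · exact hc0 i
      · exact le_rfl
    have e1 : ∑ j ∈ Finset.Icc j₀ m, c j = ∑ i ∈ Finset.Ico 0 (m + 1),
        if j₀ ≤ i then c i else 0 := by
      rw [← Finset.sum_filter]
      congr 1
      ext i
      simp only [Finset.mem_Icc, Finset.mem_filter, Finset.mem_Ico]
      omega
    have e2 : (∑ i ∈ Finset.Ico 0 (m + 1), if j₀ ≤ i then c i else 0) =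
        (if j₀ ≤ 0 then c 0 else 0) + ∑ i ∈ Finset.Ico (0 + 1) (m + 1), if j₀ ≤ i then c i else 0 :=
      Finset.sum_eq_sum_Ico_succ_bot (by omega) _
    rw [e1, e2]
    have hq : 0 < 16 ^ m := by positivity
    set S1 : ℝ := ∑ i ∈ Finset.Ico (0 + 1) (m + 1), if j₀ ≤ i then c i else 0 with hS1
    have hS10 : 0 ≤ S1 := Finset.sum_nonneg fun i _ => hc' i
    have a1 : (f (0 + 16 ^ m - 1) : ℝ) ≤ f (16 ^ m) := by
      exact_mod_cast hf (show 0 + 16 ^ m - 1 ≤ 16 ^ m by omega)
    have a2 : (f 0 : ℝ) ≤ f (16 ^ m) := by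
      exact_mod_cast hf (Nat.zero_le (16 ^ m))
    have a3 := hc' 0
    have g1 : 16 * ((f (0 + 16 ^ m - 1) : ℝ) - f 0) * S1 ≤
        16 * ((f (16 ^ m) : ℝ) - f 0 + 1) * S1 := by
      gcongr
      linarith
    have g2 : (if j₀ ≤ 0 then c 0 else 0) ≤
        16 * ((f (16 ^ m) : ℝ) - f 0 + 1) * (if j₀ ≤ 0 then c 0 else 0) := by
      nlinarith
    rw [mul_add]
    linarith

end

end Pool.Agent.H6.ST
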