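import Pool.Agent.H6.ST.CB.Defs

/-! # ST-CB3: two permutations with the same transport numbers between the fibres -/

namespace Pool.Agent.H6.ST

open Set
open scoped ENNReal ContDiff

open Classical in
theorem cb3_equiv {A B : Type} [Fintype B] (f g : B → A)
    (h : ∀ j, (Finset.univ.filter (fun r => f r = j)).card =
      (Finset.univ.filter (fun r => g r = j)).card) :
    ∃ e : Equiv.Perm B, ∀ r, g (e r) = f r := by
  have h1 : ∀ j, Nonempty ({r // f r = j} ≃ {r // g r = j}) := by
    intro j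
    refine ⟨Fintype.equivOfCardEq ?_⟩
    rw [Fintype.card_subtype, Fintype.card_subtype]
    exact h j
  have e : ∀ j, {r // f r = j} ≃ {r // g r = j} := fun j => (h1 j).some
  refine ⟨(Equiv.sigmaFiberEquiv f).symm.trans ((Equiv.sigmaCongrRight e).trans
    (Equiv.sigmaFiberEquiv g)), fun r => ?_⟩
  exact ((e (f r)) ⟨r, rfl⟩).2

theorem cb_cos : CBCos := by
  classical
  intro A B _ _ σ τ h
  have h1 : ∀ i, ∃ e : Equiv.Perm B, ∀ r, (τ (i, e r)).1 = (σ (i, r)).1 := by
    intro i
    apply cb3_equiv (fun r => (σ (i, r)).1) (fun r => (τ (i, r)).1)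
    intro j
    convert h i j
  choose b hb using h1
  refine ⟨σ * (τ * Equiv.prodCongrRight b)⁻¹, Equiv.prodCongrRight b, ?_, ?_, ?_⟩
  · intro z
    obtain ⟨w, rfl⟩ := (τ * Equiv.prodCongrRight b : Equiv.Perm (A × B)).surjective z
    rw [Equiv.Perm.mul_apply, Equiv.Perm.inv_def, Equiv.symm_apply_apply]
    obtain ⟨i, r⟩ := w
    exact (hb i r).symm
  · rintro ⟨i, r⟩
    rfl
  · rw [mul_assoc, inv_mul_cancel_right]

end Pool.Agent.H6.ST
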