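import Pool.Agent.H6.ST.CB.Defs

/-! # The sharp trichotomy (ST), row CB7: permutations of the blocks of a family of cubes -/

namespace Pool.Agent.H6.ST

open Set
open scoped ENNReal ContDiff

noncomputable section

theorem cb7_fst {l L : ℕ} (h : l ≤ L) (x : Cell L) (k : Fin 4) :
    ((sp h x).1 k : ℕ) = (x k : ℕ) / 2 ^ (L - l) := rfl

theorem cb7_snd {l L : ℕ} (h : l ≤ L) (x : Cell L) (k : Fin 4) :
    ((sp h x).2 k : ℕ) = (x k : ℕ) % 2 ^ (L - l) := rfl

theorem cb7_symm {l L : ℕ} (h : l ≤ L) (z : Cell l × Cell (L - l)) (k : Fin 4) :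
    ((sp h).symm z k : ℕ) = (z.1 k : ℕ) * 2 ^ (L - l) + (z.2 k : ℕ) := rfl

theorem cb7_wv_nonneg (q a : ℝ) {l : ℕ} (d : Cell l) : 0 ≤ wv q a d := by
  unfold wv wt
  refine mul_nonneg (Finset.sum_nonneg fun k _ => add_nonneg ?_ ?_) (Real.rpow_nonneg (by positivity) _)
  · exact Real.rpow_nonneg (by positivity) _
  · refine Real.rpow_nonneg (div_nonneg ?_ (by positivity)) _
    have h : ((d k : ℕ) : ℝ) ≤ ((2 ^ l : ℕ) : ℝ) := Nat.cast_le.mpr (d k).isLt.le
    push_cast at h
    linarith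

section Mv

variable {X : Type} {N m : ℕ} (e : Fin N × Cell m ↪ X)

theorem cb7_mul (p p' : Cell m → Equiv.Perm (Fin N)) :
    mvP e (fun r => p r * p' r) = mvP e p * mvP e p' := by
  classical
  have h : fib (fun r => p r * p' r) = fib p * fib p' := by
    ext z <;> rfl
  unfold mvP
  rw [h]
  exact map_mul (Equiv.Perm.viaEmbeddingHom e) (fib p) (fib p')

theorem cb7_one : mvP e (fun _ => (1 : Equiv.Perm (Fin N))) = 1 := by
  classical
  have h : fib (fun _ : Cell m => (1 : Equiv.Perm (Fin N))) = 1 := by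
    ext z <;> rfl
  unfold mvP
  rw [h]
  exact map_one (Equiv.Perm.viaEmbeddingHom e)

theorem cb7_apply (p : Cell m → Equiv.Perm (Fin N)) (i : Fin N) (r : Cell m) :
    mvP e p (e (i, r)) = e (p r i, r) := by
  unfold mvP
  rw [Equiv.Perm.viaEmbedding_apply]
  rfl

theorem cb7_apply_not (p : Cell m → Equiv.Perm (Fin N)) (x : X) (hx : x ∉ Set.range e) :
    mvP e p x = x := by
  unfold mvP
  exact Equiv.Perm.viaEmbedding_apply_of_notMem _ _ _ hx

end Mv

/-- each permutation is a product of a bounded number of transpositions -/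
theorem cb7_swaps (N : ℕ) : ∃ K : ℕ, ∀ π : Equiv.Perm (Fin N), ∃ l : List (Equiv.Perm (Fin N)),
    l.length ≤ K ∧ l.prod = π ∧ ∀ g ∈ l, g.IsSwap := by
  classical
  have h : ∀ π : Equiv.Perm (Fin N), ∃ l : List (Equiv.Perm (Fin N)),
      l.prod = π ∧ ∀ g ∈ l, g.IsSwap := fun π =>
    ⟨(Equiv.Perm.truncSwapFactors π).out.1, (Equiv.Perm.truncSwapFactors π).out.2⟩
  choose l hl using h
  refine ⟨Finset.univ.sup fun π => (l π).length, fun π => ⟨l π, ?_, hl π⟩⟩
  exact Finset.le_sup (f := fun π => (l π).length) (Finset.mem_univ π)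

/-- coordinates of the subcube -/
theorem cb7_coord (x M j : ℕ) (hj : j ≤ M) :
    x / 2 ^ (M - j) = x / 2 ^ M * 2 ^ j + x % 2 ^ M / 2 ^ (M - j) := by
  have h1 : (2 : ℕ) ^ M = 2 ^ (M - j) * 2 ^ j := by rw [← pow_add, Nat.sub_add_cancel hj]
  have hp : 0 < (2 : ℕ) ^ (M - j) := by positivity
  have h2 : x / 2 ^ M = x / 2 ^ (M - j) / 2 ^ j := by rw [h1, Nat.div_div_eq_div_mul]
  have h3 : x % 2 ^ M / 2 ^ (M - j) = x / 2 ^ (M - j) % 2 ^ j := by
    rw [h1, Nat.mod_mul_right_div_self]
  rw [h2, h3]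
  exact (Nat.div_add_mod' _ _).symm

open Classical in
/-- a transposition of the blocks is an exchange of two cubes -/
theorem cb7_xch {L l' j N : ℕ} (h' : l' ≤ L) (hj : l' + j ≤ L) (D : Fin N ↪ Cell l')
    (e : Fin N × Cell (L - l') ↪ Cell L) (he : ∀ z, e z = (sp h').symm (D z.1, z.2))
    (ρ : Fin 4 → ℕ) (b : Fin N → Cell (l' + j))
    (hb : ∀ i k, (b i k : ℕ) = (D i k : ℕ) * 2 ^ j + ρ k) (hρ : ∀ k, ρ k < 2 ^ j) (i i' : Fin N) :
    mvP e (fun r => if blk (L - l') j ρ r then Equiv.swap i i' else 1) = xch hj (b i) (b i') := by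
  have hjM : j ≤ L - l' := by omega
  have hsub : L - (l' + j) = L - l' - j := by omega
  -- the criterion
  have hcrit : ∀ (x : Cell L) (i₀ : Fin N), (sp hj x).1 = b i₀ ↔
      (sp h' x).1 = D i₀ ∧ blk (L - l') j ρ (sp h' x).2 := by
    intro x i₀
    have hk : ∀ k, ((sp hj x).1 k : ℕ) = ((sp h' x).1 k : ℕ) * 2 ^ j +
        ((sp h' x).2 k : ℕ) / 2 ^ (L - l' - j) := by
      intro k
      rw [cb7_fst, cb7_fst, cb7_snd, hsub]
      exact cb7_coord _ _ _ hjM
    have hlt : ∀ k, ((sp h' x).2 k : ℕ) / 2 ^ (L - l' - j) < 2 ^ j := by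
      intro k
      rw [Nat.div_lt_iff_lt_mul (by positivity), ← pow_add, Nat.add_sub_cancel' hjM]
      exact ((sp h' x).2 k).isLt
    constructor
    · intro hx
      have h1 : ∀ k, ((sp h' x).1 k : ℕ) = D i₀ k ∧
          ((sp h' x).2 k : ℕ) / 2 ^ (L - l' - j) = ρ k := by
        intro k
        have h2 := hk k
        rw [hx, hb] at h2
        have h3 := hlt k
        have h4 := hρ k
        have hp : 0 < (2 : ℕ) ^ j := by positivity
        constructor
        · have h5 := congrArg (fun t => t / 2 ^ j) h2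
          rw [Nat.mul_comm, Nat.mul_add_div hp, Nat.div_eq_of_lt h4, Nat.add_zero,
            Nat.mul_comm, Nat.mul_add_div hp, Nat.div_eq_of_lt h3, Nat.add_zero] at h5
          exact h5.symm
        · have h5 := congrArg (fun t => t % 2 ^ j) h2
          rw [Nat.mul_comm, Nat.mul_add_mod, Nat.mod_eq_of_lt h4,
            Nat.mul_comm, Nat.mul_add_mod, Nat.mod_eq_of_lt h3] at h5
          exact h5.symm
      exact ⟨funext fun k => Fin.ext (h1 k).1, fun k => (h1 k).2⟩
    · rintro ⟨h1, h2⟩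
      funext k
      apply Fin.ext
      rw [hk, hb, h1, h2 k]
  -- images
  have himg : ∀ (x : Cell L) (i₀ i₁ : Fin N), (sp hj x).1 = b i₀ →
      (sp h').symm (D i₁, (sp h' x).2) = (sp hj).symm (b i₁, (sp hj x).2) := by
    intro x i₀ i₁ hx
    have h2 := ((hcrit x i₀).mp hx).2
    funext k
    apply Fin.ext
    rw [cb7_symm, cb7_symm, hb, cb7_snd hj, hsub]
    have h3 : ((sp h' x).2 k : ℕ) = ρ k * 2 ^ (L - l' - j) + (x k : ℕ) % 2 ^ (L - l' - j) := by
      have h4 := h2 k
      have h5 : ((sp h' x).2 k : ℕ) % 2 ^ (L - l' - j) = (x k : ℕ) % 2 ^ (L - l' - j) := by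
        rw [cb7_snd]
        exact Nat.mod_mod_of_dvd _ (pow_dvd_pow 2 (Nat.sub_le _ _))
      rw [← h4, ← h5]
      exact (Nat.div_add_mod' _ _).symm
    have h6 : (2 : ℕ) ^ (L - l') = 2 ^ j * 2 ^ (L - l' - j) := by
      rw [← pow_add, Nat.add_sub_cancel' hjM]
    rw [h3, h6]
    ring
  have hx_eq : ∀ x : Cell L, (sp h').symm ((sp h' x).1, (sp h' x).2) = x := fun x =>
    (sp h').symm_apply_apply x
  refine Equiv.ext fun x => ?_
  have hR : xch hj (b i) (b i') x =
      (sp hj).symm (Equiv.swap (b i) (b i') (sp hj x).1, (sp hj x).2) := rfl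
  rw [hR]
  by_cases hi : (sp hj x).1 = b i
  · obtain ⟨h1, h2⟩ := (hcrit x i).mp hi
    have hxe : x = e (i, (sp h' x).2) := by
      rw [he, ← h1]
      exact (hx_eq x).symm
    rw [hi, Equiv.swap_apply_left, ← himg x i i' hi]
    conv_lhs => rw [hxe]
    rw [cb7_apply, if_pos h2, Equiv.swap_apply_left, he]
  · by_cases hi' : (sp hj x).1 = b i'
    · obtain ⟨h1, h2⟩ := (hcrit x i').mp hi'
      have hxe : x = e (i', (sp h' x).2) := by
        rw [he, ← h1]
        exact (hx_eq x).symm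
      rw [hi', Equiv.swap_apply_right, ← himg x i' i hi']
      conv_lhs => rw [hxe]
      rw [cb7_apply, if_pos h2, Equiv.swap_apply_right, he]
    · rw [Equiv.swap_apply_of_ne_of_ne hi hi']
      have hfix : (sp hj).symm ((sp hj x).1, (sp hj x).2) = x := (sp hj).symm_apply_apply x
      rw [hfix]
      by_cases hr : x ∈ Set.range e
      · obtain ⟨⟨i₀, r⟩, hr⟩ := hr
        have h3 : (sp h' x) = (D i₀, r) := by
          rw [← hr, he]
          exact (sp h').apply_symm_apply _
        rw [← hr, cb7_apply]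
        by_cases hbl : blk (L - l') j ρ r
        · rw [if_pos hbl]
          have h4 : (sp hj x).1 = b i₀ := (hcrit x i₀).mpr (by rw [h3]; exact ⟨rfl, hbl⟩)
          have h5 : i₀ ≠ i := fun h => hi (h ▸ h4)
          have h6 : i₀ ≠ i' := fun h => hi' (h ▸ h4)
          rw [Equiv.swap_apply_of_ne_of_ne h5 h6]
        · rw [if_neg hbl]
          rfl
      · exact cb7_apply_not e _ x hr

theorem cb_fam (hC : CBChain) : CBFam := by
  classical
  intro N
  obtain ⟨K, hK⟩ := cb7_swaps N
  refine ⟨64 * K, by positivity, ?_⟩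
  intro q a hq ha ha1 L P hP l l' h h' j hj S hS hSS d₁ d₂ d₃ hreg D hD e he ρ π
  set c : ℝ := 64 * S * (2 : ℝ) ^ (((l' : ℝ) + j - l) * (1 + a - q)) * wv q a d₁ with hc
  have hc0 : 0 ≤ c := mul_nonneg (by positivity) (cb7_wv_nonneg q a d₁)
  -- one transposition
  have hsw : ∀ g : Equiv.Perm (Fin N), g.IsSwap →
      P (mvP e (fun r => if blk (L - l') j ρ r then g else 1)) c := by
    intro g hg
    obtain ⟨i, i', -, rfl⟩ := hg
    by_cases hρ : ∀ k, ρ k < 2 ^ j
    · have hlt : ∀ (i₀ : Fin N) (k : Fin 4), (D i₀ k : ℕ) * 2 ^ j + ρ k < 2 ^ (l' + j) := by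
        intro i₀ k
        have h1 := (D i₀ k).isLt
        have h2 := hρ k
        calc (D i₀ k : ℕ) * 2 ^ j + ρ k < (D i₀ k : ℕ) * 2 ^ j + 2 ^ j := by omega
          _ = ((D i₀ k : ℕ) + 1) * 2 ^ j := by ring
          _ ≤ 2 ^ l' * 2 ^ j := Nat.mul_le_mul_right _ h1
          _ = 2 ^ (l' + j) := by rw [← pow_add]
      set b : Fin N → Cell (l' + j) := fun i₀ k => ⟨(D i₀ k : ℕ) * 2 ^ j + ρ k, hlt i₀ k⟩ with hb
      have hbk : ∀ i₀ k, (b i₀ k : ℕ) = (D i₀ k : ℕ) * 2 ^ j + ρ k := fun _ _ => rfl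
      rw [cb7_xch h' hj D e he ρ b hbk hρ i i']
      have hlj : l ≤ l' + j := by omega
      have hsp : ∀ i₀, (sp hlj (b i₀)).1 = (sp h (D i₀)).1 := by
        intro i₀
        funext k
        apply Fin.ext
        rw [cb7_fst, cb7_fst, hbk]
        have h1 : l' + j - l = j + (l' - l) := by omega
        rw [h1, pow_add, ← Nat.div_div_eq_div_mul, Nat.mul_comm (D i₀ k : ℕ),
          Nat.mul_add_div (by positivity), Nat.div_eq_of_lt (hρ k), Nat.add_zero]
      have hin : ∀ i₀, InReg hlj d₁ d₂ d₃ (b i₀) := by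
        intro i₀
        unfold InReg
        rw [hsp]
        exact hD i₀
      have h2 := hC q a hq ha ha1 L P hP l (l' + j) hlj hj S hS hSS d₁ d₂ d₃ hreg (b i) (b i')
        (hin i) (hin i')
      rw [hc]
      push_cast at h2
      exact h2
    · push Not at hρ
      obtain ⟨k, hk⟩ := hρ
      have hno : ∀ r : Cell (L - l'), ¬ blk (L - l') j ρ r := by
        intro r hr
        have h1 := hr k
        have h2 : (r k : ℕ) / 2 ^ (L - l' - j) < 2 ^ j := by
          rw [Nat.div_lt_iff_lt_mul (by positivity), ← pow_add,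
            Nat.add_sub_cancel' (by omega : j ≤ L - l')]
          exact (r k).isLt
        omega
      have h3 : (fun r : Cell (L - l') => if blk (L - l') j ρ r then Equiv.swap i i' else 1) =
          fun _ => 1 := by
        funext r
        rw [if_neg (hno r)]
      rw [h3, cb7_one]
      exact hP.mono _ _ _ hc0 hP.one
  -- products of transpositions
  have hlist : ∀ t : List (Equiv.Perm (Fin N)), (∀ g ∈ t, g.IsSwap) →
      P (mvP e (fun r => if blk (L - l') j ρ r then t.prod else 1)) (t.length * c) := by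
    intro t
    induction t with
    | nil =>
      intro _
      have h3 : (fun r : Cell (L - l') => if blk (L - l') j ρ r then
          ([] : List (Equiv.Perm (Fin N))).prod else 1) = fun _ => 1 := by
        funext r
        simp
      rw [h3, cb7_one]
      simpa using hP.one
    | cons g t ih =>
      intro ht
      have h3 : (fun r : Cell (L - l') => if blk (L - l') j ρ r then (g :: t).prod else 1) =
          fun r => (if blk (L - l') j ρ r then g else 1) *
            (if blk (L - l') j ρ r then t.prod else 1) := by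
        funext r
        split_ifs
        · rw [List.prod_cons]
        · rw [one_mul]
      rw [h3, cb7_mul]
      have h4 := hP.mul _ _ _ _ (hsw g (ht g (List.mem_cons_self)))
        (ih fun g' hg' => ht g' (List.mem_cons_of_mem _ hg'))
      have h5 : ((g :: t).length : ℝ) * c = c + t.length * c := by
        rw [List.length_cons]
        push_cast
        ring
      rw [h5]
      exact h4
  obtain ⟨t, ht, hprod, hswp⟩ := hK π
  have h6 := hlist t hswp
  rw [hprod] at h6
  refine hP.mono _ _ _ ?_ h6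
  calc (t.length : ℝ) * c ≤ K * c := mul_le_mul_of_nonneg_right (Nat.cast_le.mpr ht) hc0
    _ = 64 * K * S * (2 : ℝ) ^ (((l' : ℝ) + j - l) * (1 + a - q)) * wv q a d₁ := by
      rw [hc]; ring

end

end Pool.Agent.H6.ST
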