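import Pool.Agent.H6.ST.CB.Defs

/-! # ST-CB12: the main theorem of the combinatorics -/

set_option autoImplicit false

namespace Pool.Agent.H6.ST

open Set
open scoped ENNReal ContDiff

noncomputable section

private theorem cb12_small {C c ε : ℝ} (hC : 0 ≤ C) (hc : c < 0) (hε : 0 < ε) (n : ℕ) :
    ∃ K : ℕ, n ≤ K ∧ C * (2 : ℝ) ^ ((K : ℝ) * c) ≤ ε := by
  have h0 : (0 : ℝ) < (2 : ℝ) ^ c := Real.rpow_pos_of_pos (by norm_num) c
  have h1 : (2 : ℝ) ^ c < 1 := Real.rpow_lt_one_of_one_lt_of_neg (by norm_num) hc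
  obtain ⟨K, hK⟩ := exists_pow_lt_of_lt_one (show 0 < ε / (C + 1) by positivity) h1
  refine ⟨K + n, by omega, ?_⟩
  have h2 : (2 : ℝ) ^ (((K + n : ℕ) : ℝ) * c) = ((2 : ℝ) ^ c) ^ (K + n) := by
    rw [mul_comm, Real.rpow_mul (by norm_num), Real.rpow_natCast]
  rw [h2]
  have h3 : ((2 : ℝ) ^ c) ^ (K + n) ≤ ((2 : ℝ) ^ c) ^ K :=
    pow_le_pow_of_le_one h0.le h1.le (by omega)
  have h4 : ((2 : ℝ) ^ c) ^ (K + n) ≤ ε / (C + 1) := h3.trans hK.le
  calc C * ((2 : ℝ) ^ c) ^ (K + n) ≤ (C + 1) * (ε / (C + 1)) :=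
        mul_le_mul (by linarith) h4 (by positivity) (by linarith)
    _ = ε := mul_div_cancel₀ ε (by linarith)

private theorem cb12_wv (q a : ℝ) {l : ℕ} (d : Cell l) : 0 ≤ wv q a d := by
  unfold wv wt
  refine mul_nonneg (Finset.sum_nonneg fun k _ => ?_) (Real.rpow_nonneg (by positivity) _)
  have h1 : ((d k : ℕ) : ℝ) ≤ (2 : ℝ) ^ l := by exact_mod_cast (d k).isLt.le
  refine add_nonneg (Real.rpow_nonneg (by positivity) _) (Real.rpow_nonneg ?_ _)
  exact div_nonneg (by linarith) (by positivity)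

private theorem cb12_wv0 (q a : ℝ) (d : Cell 0) : wv q a d = 8 := by
  have h1 : ∀ k, ((d k : ℕ) : ℝ) = 0 := by
    intro k
    have h2 : (d k : ℕ) < 1 := (d k).isLt
    have h3 : (d k : ℕ) = 0 := Nat.lt_one_iff.1 h2
    rw [h3]
    simp
  unfold wv wt
  simp only [h1]
  norm_num [Fin.sum_univ_four]

private theorem cb12_SA {q a : ℝ} {L : ℕ} {P : Equiv.Perm (Cell L) → ℝ → Prop} (hP : PK P) {l : ℕ}
    {A A' : ℝ} (h : A ≤ A') (hA : SA q a P l A) : SA q a P l A' :=
  fun hl d σ hσ => hP.mono _ _ _ (mul_le_mul_of_nonneg_right h (cb12_wv q a d)) (hA hl d σ hσ)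

private theorem cb12_SS {q a : ℝ} {L : ℕ} {P : Equiv.Perm (Cell L) → ℝ → Prop} (hP : PK P) {l : ℕ}
    {A A' : ℝ} (h : A ≤ A') (hA : SS q a P l A) : SS q a P l A' :=
  fun hl d e hd => hP.mono _ _ _ (mul_le_mul_of_nonneg_right h (cb12_wv q a d)) (hA hl d e hd)

private theorem cb12_STr {q a : ℝ} {L : ℕ} {P : Equiv.Perm (Cell L) → ℝ → Prop} (hP : PK P) {l : ℕ}
    {A A' : ℝ} (h : A ≤ A') (hA : STr q a P l A) : STr q a P l A' :=
  fun hl d₁ d₂ d₃ hd =>
    hP.mono _ _ _ (mul_le_mul_of_nonneg_right h (cb12_wv q a d₁)) (hA hl d₁ d₂ d₃ hd)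

theorem cb_thm (hA : CBStepA) (hT : CBStepT) (hS : CBStepS) (hs : CBSmall) : CBthm := by
  intro q a hq ha ha1 C0 Ck hC0 hCk
  -- the constants
  obtain ⟨K, hK1, hK⟩ := cb12_small (C := 4 / (1 - a)) (c := 4 - q) (ε := 1 / 2)
    (div_nonneg (by norm_num) (by linarith)) (by linarith) (by norm_num) 1
  obtain ⟨CK, hCK, stepA⟩ := hA q a hq ha ha1 K
  obtain ⟨C2, hC2, hT'⟩ := hT q a hq ha ha1
  obtain ⟨K', -, hK'⟩ := cb12_small (C := 2 * C2 * CK) (c := 3 + a - q) (ε := 1 / 1024)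
    (by positivity) (by linarith) (by norm_num) 0
  obtain ⟨CK', hCK', stepT'⟩ := hT' K'
  obtain ⟨κ, hκ1, hκ⟩ := cb12_small (C := CK') (c := (1 + a - q) / 4) (ε := 1 / 1024)
    hCK' (by linarith) (by norm_num) (K' + 4)
  have stepT := stepT' κ hκ1 C0 Ck
  obtain ⟨Cs, hCs, small⟩ := hs q a hq ha ha1 C0 hC0 (K + K' + κ + 4)
  set β : ℝ := (2 : ℝ) ^ ((K' : ℝ) * (3 + a - q)) with hβ
  set γ : ℝ := (2 : ℝ) ^ ((κ : ℝ) * ((1 + a - q) / 4)) with hγ
  have hβ0 : 0 ≤ β := Real.rpow_nonneg (by norm_num) _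
  have hγ0 : 0 ≤ γ := Real.rpow_nonneg (by norm_num) _
  set T : ℝ := 2 * (Ck κ + C2 * β * Cs + Cs) with hTdef
  set S : ℝ := 256 * T + Cs with hSdef
  set A : ℝ := 2 * CK * S + Cs with hAdef
  have hT0 : 0 ≤ T := by
    have := hCk κ
    positivity
  have hS0 : 0 ≤ S := by positivity
  have hA0 : 0 ≤ A := by positivity
  have hTs : Cs ≤ T := by
    have h1 := hCk κ
    have h2 : 0 ≤ C2 * β * Cs := by positivity
    rw [hTdef]
    linarith
  have hSs : Cs ≤ S := by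
    rw [hSdef]
    linarith
  have hAs : Cs ≤ A := by
    have h2 : 0 ≤ 2 * CK * S := by positivity
    rw [hAdef]
    linarith
  have hAA : (4 / (1 - a)) * (2 : ℝ) ^ ((K : ℝ) * (4 - q)) * A + CK * S ≤ A := by
    have h1 : (4 / (1 - a)) * (2 : ℝ) ^ ((K : ℝ) * (4 - q)) * A ≤ 1 / 2 * A :=
      mul_le_mul_of_nonneg_right hK hA0
    have h2 : CK * S ≤ 1 / 2 * A := by
      rw [hAdef]
      linarith
    linarith
  have hTT : Ck κ + C2 * β * A + CK' * γ * S ≤ T := by
    have h1 : 2 * C2 * CK * β * S ≤ 1 / 1024 * S := mul_le_mul_of_nonneg_right hK' hS0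
    have h2 : CK' * γ * S ≤ 1 / 1024 * S := mul_le_mul_of_nonneg_right hκ hS0
    have h3 : C2 * β * A = 2 * C2 * CK * β * S + C2 * β * Cs := by
      rw [hAdef]
      ring
    have h4 : 0 ≤ C2 * β * Cs := by positivity
    rw [h3]
    have h5 : S = 256 * T + Cs := hSdef
    have h6 : T = 2 * (Ck κ + C2 * β * Cs + Cs) := hTdef
    linarith
  refine ⟨8 * A, by positivity, ?_⟩
  intro L P hP σ
  have hPK : PK P := ⟨hP.one, hP.mono, hP.mul, hP.inv⟩
  have main : ∀ m l : ℕ, l ≤ L → L - l = m → SA q a P l A ∧ SS q a P l S ∧ STr q a P l T := by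
    intro m
    induction m using Nat.strong_induction_on with
    | _ m ih =>
      intro l hl hm
      have hup : ∀ l', l < l' → l' ≤ L → SA q a P l' A ∧ SS q a P l' S ∧ STr q a P l' T :=
        fun l' h1 h2 => ih (L - l') (by omega) l' h2 rfl
      rcases Nat.le_total L (l + (K + K' + κ + 4)) with hc | hc
      · obtain ⟨h1, h2, h3⟩ := small Ck L P hP l hl hc
        exact ⟨cb12_SA hPK hAs h1, cb12_SS hPK hSs h2, cb12_STr hPK hTs h3⟩
      · have hSl : SS q a P l S := by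
          have h1 := hS q a hq ha ha1 L P hPK l T (by omega) hT0 (hup (l + 1) (by omega)
            (by omega)).2.2
          exact cb12_SS hPK (by rw [hSdef]; linarith) h1
        have hSS : ∀ l', l ≤ l' → l' ≤ L → SS q a P l' S := by
          intro l' h1 h2
          rcases Nat.eq_or_lt_of_le h1 with h3 | h3
          · rw [← h3]
            exact hSl
          · exact (hup l' h3 h2).2.1
        have hAl : SA q a P l A := by
          have h1 := stepA L P hPK l A S (by omega) hA0 hS0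
            (hup (l + K) (by omega) (by omega)).1 (fun l' h2 h3 => hSS l' (by omega) h3)
          exact cb12_SA hPK hAA h1
        refine ⟨hAl, hSl, ?_⟩
        have hAK : SA q a P (l + K') A := by
          rcases Nat.eq_zero_or_pos K' with h3 | h3
          · rw [h3]
            exact hAl
          · exact (hup (l + K') (by omega) (by omega)).1
        have h1 := stepT L P hP l A S (by omega) hA0 hS0 hAK
          (fun l' h2 h3 => hSS l' (by omega) h3)
        exact cb12_STr hPK hTT h1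
  have h0 := (main (L - 0) 0 (Nat.zero_le L) rfl).1 (Nat.zero_le L) (fun _ => ⟨0, by simp⟩) σ
    (fun x _ => by
      funext k
      apply Fin.ext
      have h2 : (((sp (Nat.zero_le L) x).1 k : Fin (2 ^ 0)) : ℕ) < 2 ^ 0 :=
        ((sp (Nat.zero_le L) x).1 k).isLt
      have h3 : (((sp (Nat.zero_le L) x).1 k : Fin (2 ^ 0)) : ℕ) < 1 := h2
      exact Nat.lt_one_iff.1 h3)
  rw [cb12_wv0] at h0
  exact hP.mono _ _ _ (by linarith) h0

end

end Pool.Agent.H6.ST
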