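import Pool.Agent.H6.ST.CB.Defs

/-! # ST-CB5: the mixing lemma from Birkhoff, cosets and blocks -/

set_option autoImplicit false

namespace Pool.Agent.H6.ST

open Set
open scoped ENNReal ContDiff

/-- the step function of the partial sums `S` -/
private def cb5_f (R : ℕ) (S : ℕ → ℕ) (t : ℕ) : ℕ :=
  ((Finset.range R).filter (fun k => S (k + 1) ≤ t)).card

private theorem cb5_f_le (R : ℕ) (S : ℕ → ℕ) (t : ℕ) : cb5_f R S t ≤ R := by
  unfold cb5_f
  exact (Finset.card_filter_le _ _).trans (by rw [Finset.card_range])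

private theorem cb5_f_mono (R : ℕ) (S : ℕ → ℕ) : Monotone (cb5_f R S) := by
  intro t t' h
  unfold cb5_f
  refine Finset.card_le_card fun k hk => ?_
  rw [Finset.mem_filter] at hk ⊢
  exact ⟨hk.1, hk.2.trans h⟩

private theorem cb5_le_f (R : ℕ) (S : ℕ → ℕ) (hS : Monotone S) (hS0 : S 0 = 0) (v t : ℕ)
    (hv : v ≤ R) : v ≤ cb5_f R S t ↔ S v ≤ t := by
  unfold cb5_f
  constructor
  · intro h
    by_contra h1
    rw [not_le] at h1
    have hv0 : v ≠ 0 := by
      rintro rfl
      omega
    have h2 : (Finset.range R).filter (fun k => S (k + 1) ≤ t) ⊆ Finset.range (v - 1) := by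
      intro k hk
      rw [Finset.mem_filter] at hk
      rw [Finset.mem_range]
      by_contra h3
      have h4 := hS (show v ≤ k + 1 by omega)
      omega
    have h3 := Finset.card_le_card h2
    rw [Finset.card_range] at h3
    omega
  · intro h
    have h2 : Finset.range v ⊆ (Finset.range R).filter (fun k => S (k + 1) ≤ t) := by
      intro k hk
      rw [Finset.mem_range] at hk
      rw [Finset.mem_filter, Finset.mem_range]
      exact ⟨by omega, (hS (show k + 1 ≤ v by omega)).trans h⟩
    have h3 := Finset.card_le_card h2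
    rwa [Finset.card_range] at h3

private theorem cb5_count (R : ℕ) (S : ℕ → ℕ) (hS : Monotone S) (hS0 : S 0 = 0) (v M : ℕ)
    (hv : v < R) (hM : S R ≤ M) :
    ((Finset.range M).filter (fun t => cb5_f R S t = v)).card = S (v + 1) - S v := by
  have h1 : (Finset.range M).filter (fun t => cb5_f R S t = v) = Finset.Ico (S v) (S (v + 1)) := by
    ext t
    rw [Finset.mem_filter, Finset.mem_range, Finset.mem_Ico]
    have h2 := cb5_le_f R S hS hS0 v t hv.le
    have h3 := cb5_le_f R S hS hS0 (v + 1) t hv
    have h4 := hS (show v + 1 ≤ R from hv)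
    constructor
    · rintro ⟨_, h⟩
      exact ⟨h2.mp h.ge, by
        by_contra h5
        rw [not_lt] at h5
        have := h3.mpr h5
        omega⟩
    · rintro ⟨h5, h6⟩
      refine ⟨by omega, ?_⟩
      have h7 := h2.mpr h5
      by_contra h8
      have := h3.mp (by omega)
      omega
  rw [h1, Nat.card_Ico]

private theorem cb5_count_last (R : ℕ) (S : ℕ → ℕ) (hS : Monotone S) (hS0 : S 0 = 0) (M : ℕ) :
    ((Finset.range M).filter (fun t => cb5_f R S t = R)).card = M - S R := by
  have h1 : (Finset.range M).filter (fun t => cb5_f R S t = R) = Finset.Ico (S R) M := by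
    ext t
    rw [Finset.mem_filter, Finset.mem_range, Finset.mem_Ico]
    have h2 := cb5_le_f R S hS hS0 R t le_rfl
    have h3 := cb5_f_le R S t
    constructor
    · rintro ⟨h4, h⟩
      exact ⟨h2.mp h.ge, h4⟩
    · rintro ⟨h5, h6⟩
      exact ⟨h6, le_antisymm h3 (h2.mpr h5)⟩
  rw [h1, Nat.card_Ico]

private theorem cb5_card {B : Type} [Fintype B] (p q : B → Prop) (hp : DecidablePred p)
    (hq : DecidablePred q) (h : ∀ r, p r ↔ q r) :
    (@Finset.filter _ p hp Finset.univ).card = (@Finset.filter _ q hq Finset.univ).card := by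
  congr 1
  ext r
  rw [Finset.mem_filter, Finset.mem_filter, h]

theorem cb_mix (hB : CBBirk) (hC : CBCos) (hK : CBBlk) : CBMix := by
  classical
  intro X P hP N m e c Aα hc0 hcj hα σ j₀ n hn1 hn2 hn3
  have hcard : Fintype.card (Cell m) = 16 ^ m := by
    show Fintype.card (Fin 4 → Fin (2 ^ m)) = 16 ^ m
    rw [Fintype.card_fun, Fintype.card_fin, Fintype.card_fin, ← pow_mul, mul_comm, pow_mul]
    norm_num
  obtain ⟨T, hT⟩ : ∃ T : Fin N → Fin N → ℕ, T = fun i j =>
      (Finset.univ.filter (fun r : Cell m => (σ (i, r)).1 = j)).card := ⟨_, rfl⟩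
  have hTij : ∀ i j, (Finset.univ.filter (fun r : Cell m => (σ (i, r)).1 = j)).card = T i j := by
    intro i j
    rw [hT]
  have hrow : ∀ i, ∑ j, T i j = 16 ^ m := by
    intro i
    rw [← hcard, ← Finset.card_univ, Finset.card_eq_sum_card_fiberwise
      (f := fun r : Cell m => (σ (i, r)).1) (t := Finset.univ) (fun _ _ => Finset.mem_univ _)]
    exact Finset.sum_congr rfl fun j _ => (hTij i j).symm
  have hcol : ∀ j, ∑ i, T i j = 16 ^ m := by
    intro j
    have h1 : ∑ i, T i j = ((Finset.univ : Finset (Fin N × Cell m)).filter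
        (fun z => (σ z).1 = j)).card := by
      rw [Finset.card_eq_sum_card_fiberwise (f := fun z : Fin N × Cell m => z.1)
        (t := Finset.univ) (fun _ _ => Finset.mem_univ _)]
      refine Finset.sum_congr rfl fun i _ => ?_
      rw [← hTij i j]
      refine Finset.card_bij (fun r _ => (i, r)) ?_ ?_ ?_
      · intro r hr
        simpa using hr
      · intro r _ r' _ h
        exact (Prod.mk.inj h).2
      · rintro ⟨i', r⟩ hz
        simp only [Finset.mem_filter, Finset.mem_univ, true_and] at hz
        obtain ⟨hz1, rfl⟩ := hz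
        exact ⟨r, by simpa using hz1, rfl⟩
    have h2 : ((Finset.univ : Finset (Fin N × Cell m)).filter (fun z => (σ z).1 = j)).card =
        ((Finset.univ : Finset (Fin N × Cell m)).filter (fun z => z.1 = j)).card := by
      refine Finset.card_bij (fun z _ => σ z) ?_ ?_ ?_
      · intro z hz
        simpa using hz
      · intro z _ z' _ h
        exact σ.injective h
      · intro z hz
        exact ⟨σ.symm z, by simpa using hz, by simp⟩
    have h3 : ((Finset.univ : Finset (Fin N × Cell m)).filter (fun z => z.1 = j)).card =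
        Fintype.card (Cell m) := by
      rw [← Finset.card_univ (α := Cell m)]
      symm
      refine Finset.card_bij (fun r _ => (j, r)) ?_ ?_ ?_
      · intro r _
        simp
      · intro r _ r' _ h
        exact (Prod.mk.inj h).2
      · rintro ⟨i', r⟩ hz
        simp only [Finset.mem_filter, Finset.mem_univ, true_and] at hz
        subst hz
        exact ⟨r, Finset.mem_univ _, rfl⟩
    rw [h1, h2, h3, hcard]
  have hdiag : ∀ i, 16 ^ m ≤ T i i + n := by
    intro i
    have h1 := Finset.card_filter_add_card_filter_not (s := (Finset.univ : Finset (Cell m)))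
      (fun r : Cell m => (σ (i, r)).1 = i)
    rw [Finset.card_univ, hcard, hTij] at h1
    have h2 : ((Finset.univ : Finset (Cell m)).filter
        (fun r : Cell m => ¬ (σ (i, r)).1 = i)).card ≤ n :=
      (Finset.card_le_card (fun r hr => by simpa using hr)).trans (hn1 i)
    omega
  obtain ⟨A, hA⟩ : ∃ A : Fin N → Fin N → ℕ, A = fun i j =>
      if i = j then T i j - (16 ^ m - n) else T i j := ⟨_, rfl⟩
  have hAT : ∀ i j, A i j + (if i = j then 16 ^ m - n else 0) = T i j := by
    intro i j
    rw [hA]
    by_cases h : i = j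
    · subst h
      simp only [if_true]
      have := hdiag i
      omega
    · simp only [if_neg h, add_zero]
  have hArow : ∀ i, ∑ j, A i j = n := by
    intro i
    have h1 := hrow i
    rw [← Finset.sum_congr rfl fun j _ => hAT i j, Finset.sum_add_distrib,
      Finset.sum_ite_eq, if_pos (Finset.mem_univ _)] at h1
    omega
  have hAcol : ∀ j, ∑ i, A i j = n := by
    intro j
    have h1 := hcol j
    rw [← Finset.sum_congr rfl fun i _ => hAT i j, Finset.sum_add_distrib,
      Finset.sum_ite_eq', if_pos (Finset.mem_univ _)] at h1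
    omega
  obtain ⟨R, π, nn, hR, hsum, hAπ⟩ := hB N n A hArow hAcol
  -- the partial sums
  obtain ⟨nn', hnn'⟩ : ∃ nn' : ℕ → ℕ, nn' = fun k => if h : k < R then nn ⟨k, h⟩ else 0 := ⟨_, rfl⟩
  obtain ⟨S, hS⟩ : ∃ S : ℕ → ℕ, S = fun k => ∑ l ∈ Finset.range k, nn' l := ⟨_, rfl⟩
  have hSm : Monotone S := by
    intro a b hab
    rw [hS]
    exact Finset.sum_le_sum_of_subset (Finset.range_mono hab)
  have hS0 : S 0 = 0 := by rw [hS]; simp
  have hSR : S R = n := by
    rw [hS, ← hsum]
    show ∑ l ∈ Finset.range R, nn' l = _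
    rw [Finset.sum_range]
    refine Finset.sum_congr rfl fun k _ => ?_
    rw [hnn']
    simp
  have hSs : ∀ v (hv : v < R), S (v + 1) - S v = nn ⟨v, hv⟩ := by
    intro v hv
    rw [hS]
    show ∑ l ∈ Finset.range (v + 1), nn' l - ∑ l ∈ Finset.range v, nn' l = _
    rw [Finset.sum_range_succ, Nat.add_sub_cancel_left, hnn']
    simp [hv]
  obtain ⟨π', hπ'⟩ : ∃ π' : ℕ → Equiv.Perm (Fin N), π' =
      fun k => if h : k < R then π ⟨k, h⟩ else 1 := ⟨_, rfl⟩
  obtain ⟨g, hg, hPg⟩ := hK X P hP N m e c hc0 hcj (cb5_f R S) (cb5_f_mono R S) π' j₀ n (by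
    intro t ht
    by_contra h1
    rw [not_lt, ← hSR, ← cb5_le_f R S hSm hS0 R t le_rfl] at h1
    apply ht
    rw [hπ']
    simp only
    rw [dif_neg (by omega)]) hn3
  -- the transport numbers
  have hτ : ∀ i j, (Finset.univ.filter (fun r : Cell m => π' (g r) i = j)).card = T i j := by
    intro i j
    have hgR : ∀ r, g r ≤ R := by
      intro r
      by_contra h1
      have h2 := hg (g r)
      have h3 : ((Finset.range (16 ^ m)).filter (fun t => cb5_f R S t = g r)).card = 0 := by
        rw [Finset.card_eq_zero, Finset.filter_eq_empty_iff]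
        intro t _ h4
        have := cb5_f_le R S t
        omega
      rw [h3, Finset.card_eq_zero, Finset.filter_eq_empty_iff] at h2
      exact h2 (Finset.mem_univ r) rfl
    have h1 : (Finset.univ.filter (fun r : Cell m => π' (g r) i = j)).card =
        ∑ v ∈ Finset.range (R + 1), (if π' v i = j then
          ((Finset.range (16 ^ m)).filter (fun t => cb5_f R S t = v)).card else 0) := by
      rw [Finset.card_eq_sum_card_fiberwise (f := g) (t := Finset.range (R + 1))
        (fun r _ => Finset.mem_coe.mpr (Finset.mem_range.mpr (Nat.lt_succ_of_le (hgR r))))]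
      refine Finset.sum_congr rfl fun v _ => ?_
      split_ifs with h
      · rw [← hg v]
        congr 1
        ext r
        simp only [Finset.mem_filter, Finset.mem_univ, true_and]
        constructor
        · rintro ⟨_, h2⟩
          exact h2
        · intro h2
          exact ⟨by rw [h2]; exact h, h2⟩
      · rw [Finset.card_eq_zero, Finset.filter_eq_empty_iff]
        intro r hr h2
        rw [Finset.mem_filter] at hr
        rw [h2] at hr
        exact h hr.2
    rw [h1, Finset.sum_range_succ, cb5_count_last R S hSm hS0 _, hSR,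
      ← hAT i j, hAπ i j, Finset.sum_range]
    congr 1
    · refine Finset.sum_congr rfl fun k _ => ?_
      rw [cb5_count R S hSm hS0 _ _ k.2 (by rw [hSR]; exact hn2), hSs _ k.2, hπ']
      simp
    · rw [hπ']
      simp
  obtain ⟨α, β, h1, h2, h3⟩ := hC (Fin N) (Cell m) σ (fib (fun r => π' (g r))) (by
    intro i j
    have h4 := hTij i j
    have h5 := hτ i j
    rw [← h4] at h5
    exact (cb5_card _ _ _ _ (fun _ => Iff.rfl)).trans
      (h5.symm.trans (cb5_card _ _ _ _ (fun _ => Iff.rfl))))
  have h4 : σ.viaEmbedding e = α.viaEmbedding e * mvP e (fun r => π' (g r)) *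
      β.viaEmbedding e := by
    rw [h3, ← Equiv.Perm.viaEmbeddingHom_apply, map_mul, map_mul,
      Equiv.Perm.viaEmbeddingHom_apply, Equiv.Perm.viaEmbeddingHom_apply,
      Equiv.Perm.viaEmbeddingHom_apply]
    rfl
  rw [h4]
  refine hP.mono _ _ _ ?_ (hP.mul _ _ _ _ (hP.mul _ _ _ _ (hα α h1) hPg) (hα β h2))
  have h5 : (cb5_f R S (16 ^ m) : ℝ) ≤ (N : ℝ) ^ 2 + 1 := by
    exact_mod_cast (cb5_f_le R S _).trans hR
  have h6 : (0 : ℝ) ≤ (cb5_f R S 0 : ℝ) := by positivity
  have h7 : 0 ≤ ∑ j ∈ Finset.Icc j₀ m, c j := Finset.sum_nonneg fun j _ => hc0 j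
  have h8 : 16 * ((cb5_f R S (16 ^ m) : ℝ) - cb5_f R S 0 + 1) * ∑ j ∈ Finset.Icc j₀ m, c j ≤
      16 * ((N : ℝ) ^ 2 + 3) * ∑ j ∈ Finset.Icc j₀ m, c j :=
    mul_le_mul_of_nonneg_right (by linarith) h7
  linarith

end Pool.Agent.H6.ST
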