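import Pool.Agent.H6.ST.CB.Defs

/-! # The sharp trichotomy (ST): small cubes -/

set_option autoImplicit false

namespace Pool.Agent.H6.ST

open Set

noncomputable section

/-- A permutation which moves only points of a set is a product of exchanges of points of the set. -/
theorem cb11_prod {X : Type} [Fintype X] [DecidableEq X] {P : Equiv.Perm X → ℝ → Prop} (hP : PK P)
    (R : X → Prop) (c : ℝ) (hc : 0 ≤ c) (hR : ∀ x y, R x → R y → P (Equiv.swap x y) c) :
    ∀ (m : ℕ) (σ : Equiv.Perm X), (∀ x, σ x ≠ x → R x) → σ.support.card ≤ m → P σ (m * c) := by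
  intro m
  induction m with
  | zero =>
    intro σ _ h
    have h1 : σ.support = ∅ := Finset.card_eq_zero.1 (Nat.le_zero.1 h)
    rw [Equiv.Perm.support_eq_empty_iff.1 h1]
    simpa using hP.one
  | succ m ih =>
    intro σ hσ h
    by_cases h1 : σ = 1
    · rw [h1]
      exact hP.mono _ _ _ (by positivity) hP.one
    · obtain ⟨x, hx⟩ : ∃ x, σ x ≠ x := by
        by_contra hc'
        push Not at hc'
        exact h1 (Equiv.ext hc')
      have hσx : σ (σ x) ≠ σ x := fun hc' => hx (σ.injective hc')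
      have h2 := Equiv.Perm.card_support_swap_mul hx
      have h3 : P (Equiv.swap x (σ x) * σ) (m * c) := by
        refine ih _ (fun y hy => hσ y ?_) (by omega)
        intro hc'
        apply hy
        rw [Equiv.Perm.mul_apply, hc']
        apply Equiv.swap_apply_of_ne_of_ne
        · rintro rfl
          exact hx hc'
        · rintro rfl
          exact hσx hc'
      have h4 := hP.mul _ _ _ _ (hR x (σ x) (hσ x hx) (hσ _ hσx)) h3
      rw [← mul_assoc, Equiv.swap_mul_self, one_mul] at h4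
      refine hP.mono _ _ _ (le_of_eq ?_) h4
      push_cast
      ring

/-- On the last level the position in the cube is trivial. -/
theorem cb11_sp {L : ℕ} (x : Cell L) : (sp (le_refl L) x).1 = x := by
  funext k
  apply Fin.ext
  show (x k : ℕ) / 2 ^ (L - L) = x k
  simp

open Classical in
/-- Exchanges of cubes on the last level are exchanges of cells. -/
theorem cb11_xch {L : ℕ} (h : L ≤ L) (d e : Cell L) : xch h d e = Equiv.swap d e := by
  refine Equiv.ext fun x => ?_
  have h1 : (sp h (xch h d e x)).1 = Equiv.swap d e x := by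
    have h2 : sp h (xch h d e x) = fib (fun _ => Equiv.swap d e) (sp h x) := by
      simp only [xch, act, Equiv.permCongr_apply, Equiv.symm_symm, Equiv.apply_symm_apply]
    rw [h2]
    show Equiv.swap d e (sp h x).1 = _
    rw [cb11_sp]
  rw [← h1, cb11_sp]

theorem cb11_pk {q a C0 : ℝ} {Ck : ℕ → ℝ} {L : ℕ} {P : Equiv.Perm (Cell L) → ℝ → Prop}
    (h : PC q a C0 Ck L P) : PK P := ⟨h.one, h.mono, h.mul, h.inv⟩

theorem cb11_SS {q a C0 : ℝ} {Ck : ℕ → ℝ} {L : ℕ} {P : Equiv.Perm (Cell L) → ℝ → Prop}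
    (h : PC q a C0 Ck L P) : SS q a P L C0 := by
  intro h' d e hde
  rw [cb11_xch]
  have h1 := h.swap d e hde
  have h2 : C0 * wt a L (fun k => d k) * (2 ^ L : ℝ) ^ (-q) = C0 * wv q a d := by
    rw [wv, mul_assoc]
  rw [h2] at h1
  convert h1

/-- The number of cells of a cube. -/
theorem cb11_card {l L : ℕ} (h : l ≤ L) (d : Cell l) [DecidablePred fun x : Cell L => (sp h x).1 = d] :
    (Finset.univ.filter (fun x : Cell L => (sp h x).1 = d)).card = 16 ^ (L - l) := by
  classical
  have h1 : (Finset.univ.filter (fun x : Cell L => (sp h x).1 = d)) =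
      Finset.univ.image (fun r : Cell (L - l) => (sp h).symm (d, r)) := by
    ext x
    simp only [Finset.mem_filter, Finset.mem_univ, true_and, Finset.mem_image]
    constructor
    · rintro rfl
      exact ⟨(sp h x).2, by rw [Prod.mk.eta, Equiv.symm_apply_apply]⟩
    · rintro ⟨r, rfl⟩
      rw [Equiv.apply_symm_apply]
  rw [h1, Finset.card_image_of_injective]
  · rw [Finset.card_univ, Fintype.card_fun, Fintype.card_fin, Fintype.card_fin, ← pow_mul,
      mul_comm, pow_mul]
    norm_num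
  · intro r r' hr
    have := (sp h).symm.injective hr
    exact (Prod.mk.inj this).2

/-- The cost of a permutation of the cells of a region. -/
theorem cb11_reg (hW : CBW) (hC : CBChain) {q a C0 : ℝ} (hq : 4 < q) (ha : 0 ≤ a) (ha1 : a < 1)
    (hC0 : 0 ≤ C0) {m₀ : ℕ} {Ck : ℕ → ℝ} {L : ℕ} {P : Equiv.Perm (Cell L) → ℝ → Prop}
    (hP : PC q a C0 Ck L P) {l : ℕ} (hl : l ≤ L) (hL : L ≤ l + m₀) {d₁ d₂ d₃ : Cell l}
    (hr : Reg d₁ d₂ d₃) (σ : Equiv.Perm (Cell L)) (hσ : ∀ x, σ x ≠ x → InReg hl d₁ d₂ d₃ x) :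
    P σ (3 * 16 ^ m₀ * (64 * C0) * wv q a d₁) := by
  classical
  have hpk := cb11_pk hP
  have hw := hW.pos q a l d₁
  have h0 : ∀ x y, InReg hl d₁ d₂ d₃ x → InReg hl d₁ d₂ d₃ y →
      P (Equiv.swap x y) (64 * C0 * wv q a d₁) := by
    intro x y hx hy
    have h1 := hC q a hq ha ha1 L P hpk l L hl le_rfl C0 hC0 (cb11_SS hP) d₁ d₂ d₃ hr x y hx hy
    rw [cb11_xch] at h1
    have h2 : (2 : ℝ) ^ (((L : ℝ) - l) * (1 + a - q)) ≤ 1 := by
      apply Real.rpow_le_one_of_one_le_of_nonpos (by norm_num)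
      have h3 : (l : ℝ) ≤ L := by exact_mod_cast hl
      nlinarith
    refine hP.mono _ _ _ ?_ (by convert h1)
    calc 64 * C0 * (2 : ℝ) ^ (((L : ℝ) - l) * (1 + a - q)) * wv q a d₁
        ≤ 64 * C0 * 1 * wv q a d₁ := by gcongr
      _ = _ := by ring
  have h1 : σ.support.card ≤ 3 * 16 ^ m₀ := by
    have h2 : σ.support ⊆ (Finset.univ.filter (fun x : Cell L => (sp hl x).1 = d₁)) ∪
        (Finset.univ.filter (fun x : Cell L => (sp hl x).1 = d₂)) ∪
        (Finset.univ.filter (fun x : Cell L => (sp hl x).1 = d₃)) := by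
      intro x hx
      have := hσ x (Equiv.Perm.mem_support.1 hx)
      simp only [Finset.mem_union, Finset.mem_filter, Finset.mem_univ, true_and]
      rcases this with h | h | h
      · exact Or.inl (Or.inl h)
      · exact Or.inl (Or.inr h)
      · exact Or.inr h
    have h3 := (Finset.card_le_card h2).trans ((Finset.card_union_le _ _).trans
      (Nat.add_le_add_right (Finset.card_union_le _ _) _))
    rw [cb11_card, cb11_card, cb11_card] at h3
    have h4 : 16 ^ (L - l) ≤ 16 ^ m₀ := Nat.pow_le_pow_right (by norm_num) (by omega)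
    omega
  have h5 := cb11_prod hpk (InReg hl d₁ d₂ d₃) (64 * C0 * wv q a d₁) (by positivity) h0
    (3 * 16 ^ m₀) σ hσ h1
  refine hP.mono _ _ _ (le_of_eq ?_) h5
  push_cast
  ring

open Classical in
theorem cb11_act {l L : ℕ} (h : l ≤ L) (s : Equiv.Perm (Cell l)) (x : Cell L)
    (hx : act h (fun _ => s) x ≠ x) : s (sp h x).1 ≠ (sp h x).1 := by
  intro hc
  apply hx
  have h2 : sp h (act h (fun _ => s) x) = fib (fun _ => s) (sp h x) := by
    simp only [act, Equiv.permCongr_apply, Equiv.symm_symm, Equiv.apply_symm_apply]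
  apply (sp h).injective
  rw [h2]
  exact Prod.ext hc rfl

/-- A third neighbour. -/
theorem cb11_third {l : ℕ} (d e : Cell l) (hde : Adj d e) : ∃ f, LTri d e f := by
  obtain ⟨k, h1, h2⟩ := hde
  obtain ⟨j, hj⟩ : ∃ j : Fin 4, k ≠ j := by
    by_cases h : k = 0
    · exact ⟨1, by rw [h]; decide⟩
    · exact ⟨0, h⟩
  have h3 : 2 ≤ 2 ^ l := by
    have := (e k).isLt
    omega
  have h4 := (d j).isLt
  rcases Nat.lt_or_ge ((d j : ℕ) + 1) (2 ^ l) with h5 | h5
  · refine ⟨Function.update d j ⟨d j + 1, h5⟩, k, j, hj, ⟨Or.inl h1, h2⟩, Or.inl ?_, ?_⟩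
    · rw [Function.update_self]
    · intro m hm
      rw [Function.update_of_ne hm]
  · refine ⟨Function.update d j ⟨d j - 1, by omega⟩, k, j, hj, ⟨Or.inl h1, h2⟩, Or.inr ?_, ?_⟩
    · rw [Function.update_self]
      show (d j : ℕ) - 1 + 1 = d j
      omega
    · intro m hm
      rw [Function.update_of_ne hm]

theorem cb_small (hW : CBW) (hC : CBChain) : CBSmall := by
  classical
  intro q a hq ha ha1 C0 hC0 m₀
  refine ⟨3 * 16 ^ m₀ * (64 * C0), by positivity, ?_⟩
  intro Ck L P hP l hl hL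
  refine ⟨?_, ?_, ?_⟩
  · intro h d σ hσ
    exact cb11_reg hW hC hq ha ha1 hC0 hP hl hL (Or.inr ⟨rfl, rfl⟩) σ (fun x hx => Or.inl (hσ x hx))
  · intro h d e hde
    obtain ⟨f, hf⟩ := cb11_third d e hde
    refine cb11_reg hW hC hq ha ha1 hC0 hP hl hL (Or.inl hf) _ (fun x hx => ?_)
    have h1 := cb11_act h _ x hx
    by_contra hc
    apply h1
    apply Equiv.swap_apply_of_ne_of_ne
    · exact fun h => hc (Or.inl h)
    · exact fun h => hc (Or.inr (Or.inl h))
  · intro h d₁ d₂ d₃ ht
    refine cb11_reg hW hC hq ha ha1 hC0 hP hl hL (Or.inl ht) _ (fun x hx => ?_)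
    have h1 := cb11_act h _ x hx
    by_contra hc
    apply h1
    rw [Equiv.Perm.mul_apply, Equiv.swap_apply_of_ne_of_ne (a := d₂) (b := d₃),
      Equiv.swap_apply_of_ne_of_ne]
    · exact fun h => hc (Or.inl h)
    · exact fun h => hc (Or.inr (Or.inl h))
    · exact fun h => hc (Or.inr (Or.inl h))
    · exact fun h => hc (Or.inr (Or.inr h))

end

end Pool.Agent.H6.ST
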