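import Pool.Agent.H6.ST.CB.Defs

/-! # The sharp trichotomy (ST): the step for permutations of one cube -/

namespace Pool.Agent.H6.ST

open Set

noncomputable section

theorem sa_inv1 {X : Type} (σ : Equiv.Perm X) (x : X) : σ⁻¹ (σ x) = x := σ.symm_apply_apply x

theorem sa_inv2 {X : Type} (σ : Equiv.Perm X) (x : X) : σ (σ⁻¹ x) = x := σ.apply_symm_apply x

open Classical in
/-- A permutation supported in the range of an embedding comes from the embedding. -/
theorem sa_exists_via {X Y : Type} (e : Y ↪ X) (σ : Equiv.Perm X)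
    (h : ∀ x, σ x ≠ x → x ∈ Set.range e) : ∃ τ : Equiv.Perm Y, τ.viaEmbedding e = σ := by
  have hp : ∀ x, σ x ∈ Set.range e ↔ x ∈ Set.range e := by
    intro x
    by_cases hx : σ x = x
    · rw [hx]
    · exact ⟨fun _ => h x hx, fun _ => h (σ x) (fun h1 => hx (σ.injective h1))⟩
  let E : Y ≃ Set.range e := Equiv.ofInjective e e.injective
  let ρ : Equiv.Perm (Set.range e) := σ.subtypePerm hp
  have hρ : ∀ y : Set.range e, ((ρ y : Set.range e) : X) = σ y := fun y => rfl
  have hE : ∀ y, ((E y : Set.range e) : X) = e y := fun y => rfl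
  refine ⟨E.trans (ρ.trans E.symm), ?_⟩
  ext x
  by_cases hx : x ∈ Set.range e
  · obtain ⟨y, rfl⟩ := hx
    rw [Equiv.Perm.viaEmbedding_apply]
    simp only [Equiv.trans_apply]
    rw [← hE, Equiv.apply_symm_apply, hρ, hE]
  · rw [Equiv.Perm.viaEmbedding_apply_of_notMem _ _ _ hx]
    by_contra h1
    exact hx (h x (fun h2 => h1 h2.symm))

theorem sa_via_mul {X Y : Type} (e : Y ↪ X) (σ τ : Equiv.Perm Y) :
    (σ * τ).viaEmbedding e = σ.viaEmbedding e * τ.viaEmbedding e :=
  map_mul (Equiv.Perm.viaEmbeddingHom e) σ τ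

theorem sa_via_one {X Y : Type} (e : Y ↪ X) :
    (1 : Equiv.Perm Y).viaEmbedding e = 1 :=
  map_one (Equiv.Perm.viaEmbeddingHom e)

/-- The support of `viaEmbedding`. -/
theorem sa_via_supp {X Y : Type} (e : Y ↪ X) (σ : Equiv.Perm Y) (x : X)
    (h : σ.viaEmbedding e x ≠ x) : ∃ y, x = e y ∧ σ y ≠ y := by
  by_cases hx : x ∈ Set.range e
  · obtain ⟨y, rfl⟩ := hx
    refine ⟨y, rfl, fun h1 => h ?_⟩
    rw [Equiv.Perm.viaEmbedding_apply, h1]
  · exact absurd (Equiv.Perm.viaEmbedding_apply_of_notMem _ _ _ hx) h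

open Classical in
/-- Fibre preserving permutations are products of permutations of single fibres. -/
theorem sa_fibre {X A B : Type} [Fintype A] (P : Equiv.Perm X → ℝ → Prop) (hP : PK P)
    (e : A × B ↪ X) (w : A → ℝ)
    (h : ∀ (i : A) (γ : Equiv.Perm (A × B)), (∀ z, γ z ≠ z → z.1 = i) → (∀ z, (γ z).1 = z.1) →
      P (γ.viaEmbedding e) (w i)) (α : Equiv.Perm (A × B)) (hα : ∀ z, (α z).1 = z.1) :
    P (α.viaEmbedding e) (∑ i, w i) := by
  have key : ∀ (s : Finset A) (β : Equiv.Perm (A × B)), (∀ z, (β z).1 = z.1) →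
      (∀ z, β z ≠ z → z.1 ∈ s) → P (β.viaEmbedding e) (∑ i ∈ s, w i) := by
    intro s
    induction s using Finset.induction_on with
    | empty =>
      intro β _ h2
      have h3 : β = 1 := by
        ext1 z
        by_contra h4
        exact absurd (h2 z h4) (Finset.notMem_empty _)
      rw [h3, sa_via_one, Finset.sum_empty]
      exact hP.one
    | insert i s his ih =>
      intro β h1 h2
      have h1' : ∀ z, (β⁻¹ z).1 = z.1 := by
        intro z
        have := h1 (β⁻¹ z)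
        rw [sa_inv2] at this
        exact this.symm
      let γ : Equiv.Perm (A × B) :=
        { toFun := fun z => if z.1 = i then β z else z
          invFun := fun z => if z.1 = i then β⁻¹ z else z
          left_inv := by
            intro z
            by_cases hz : z.1 = i
            · simp only [hz, if_true, h1 z]
              exact sa_inv1 _ _
            · simp only [hz, if_false]
          right_inv := by
            intro z
            by_cases hz : z.1 = i
            · simp only [hz, if_true, h1' z]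
              exact sa_inv2 _ _
            · simp only [hz, if_false] }
      have hγ : ∀ z, γ z = if z.1 = i then β z else z := fun z => rfl
      have hγi : ∀ z, γ⁻¹ z = if z.1 = i then β⁻¹ z else z := fun z => rfl
      have hγ1 : ∀ z, (γ z).1 = z.1 := by
        intro z
        rw [hγ]
        split_ifs
        · exact h1 z
        · rfl
      have hγs : ∀ z, γ z ≠ z → z.1 = i := by
        intro z hz
        by_contra h3
        exact hz (by rw [hγ, if_neg h3])
      have hδ : P ((γ⁻¹ * β).viaEmbedding e) (∑ j ∈ s, w j) := by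
        apply ih
        · intro z
          rw [Equiv.Perm.mul_apply, hγi]
          split_ifs
          · rw [h1', h1]
          · exact h1 z
        · intro z hz
          rw [Equiv.Perm.mul_apply, hγi] at hz
          by_cases h3 : z.1 = i
          · rw [if_pos (by rw [h1, h3]), sa_inv1] at hz
            exact absurd rfl hz
          · rw [if_neg (by rw [h1]; exact h3)] at hz
            rcases Finset.mem_insert.1 (h2 z hz) with h4 | h4
            · exact absurd h4 h3
            · exact h4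
      have h5 : β = γ * (γ⁻¹ * β) := by group
      rw [h5, sa_via_mul, Finset.sum_insert his]
      exact hP.mul _ _ _ _ (h i γ hγs hγ1) hδ
  exact key Finset.univ α hα (fun _ _ => Finset.mem_univ _)

/-- Cubes of cubes. -/
theorem sa_sp_sp {l l' L : ℕ} (h : l ≤ l') (h' : l' ≤ L) (h'' : l ≤ L) (x : Cell L) :
    (sp h (sp h' x).1).1 = (sp h'' x).1 := by
  funext k
  apply Fin.ext
  change (x k : ℕ) / 2 ^ (L - l') / 2 ^ (l' - l) = (x k : ℕ) / 2 ^ (L - l)
  rw [Nat.div_div_eq_div_mul, ← pow_add]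
  congr 2
  omega

/-- The sum of the weights of the cubes of level `l + K` in a cube of level `l`. -/
theorem sa_sum (hW : CBW) {a : ℝ} (ha : 0 ≤ a) (ha1 : a < 1) (l K : ℕ) (d : Cell l) (K' : ℕ)
    (hK : K' = K) :
    ∑ r : Cell K', wt a (l + K) (fun k => (d k : ℕ) * 2 ^ K' + (r k : ℕ)) ≤
      (2 / (1 - a)) * 16 ^ K * wt a l (fun k => (d k : ℕ)) := by
  subst hK
  exact hW.sum a ha ha1 l K' d

/-- The geometric sum. -/
theorem sa_geom {q a : ℝ} (hq : 4 < q) (ha1 : a < 1) (K m : ℕ) :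
    ∑ j ∈ Finset.Icc 0 m, (2 : ℝ) ^ (((K : ℝ) + j) * (1 + a - q)) ≤ 2 := by
  have h1 : ∀ j : ℕ, (2 : ℝ) ^ (((K : ℝ) + j) * (1 + a - q)) ≤ (1 / 2 : ℝ) ^ j := by
    intro j
    have h2 : ((K : ℝ) + j) * (1 + a - q) ≤ -(j : ℝ) := by
      have hK : (0 : ℝ) ≤ K := Nat.cast_nonneg K
      have hj : (0 : ℝ) ≤ j := Nat.cast_nonneg j
      nlinarith [mul_nonneg (add_nonneg hK hj) (by linarith : (0 : ℝ) ≤ q - a - 3)]
    calc (2 : ℝ) ^ (((K : ℝ) + j) * (1 + a - q)) ≤ (2 : ℝ) ^ (-(j : ℝ)) :=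
          Real.rpow_le_rpow_of_exponent_le (by norm_num) h2
      _ = (1 / 2 : ℝ) ^ j := by
          rw [Real.rpow_neg (by norm_num), Real.rpow_natCast, one_div, inv_pow]
  have h3 : Finset.Icc 0 m = Finset.range (m + 1) := by
    ext x; simp
  rw [h3]
  calc ∑ j ∈ Finset.range (m + 1), (2 : ℝ) ^ (((K : ℝ) + j) * (1 + a - q))
      ≤ ∑ j ∈ Finset.range (m + 1), (1 / 2 : ℝ) ^ j := Finset.sum_le_sum fun j _ => h1 j
    _ ≤ 2 := by
        have := geom_sum_eq (x := (1 / 2 : ℝ)) (by norm_num) (m + 1)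
        rw [this]
        have hp : (0 : ℝ) ≤ (1 / 2 : ℝ) ^ (m + 1) := by positivity
        rw [div_le_iff_of_neg (by norm_num)]
        linarith

/-- The sum of the weights of the cubes of the family. -/
theorem sa_wv_sum (hW : CBW) {q a : ℝ} (ha : 0 ≤ a) (ha1 : a < 1) (l K N : ℕ) (d : Cell l)
    (h : l ≤ l + K) (E : Fin N ≃ Cell (l + K - l)) (A : ℝ) (hA : 0 ≤ A) :
    ∑ i, A * wv q a ((sp h).symm (d, E i)) ≤
      (2 / (1 - a)) * (2 : ℝ) ^ ((K : ℝ) * (4 - q)) * A * wv q a d := by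
  have h1 : ∑ i, wt a (l + K) (fun k => ((sp h).symm (d, E i) k : ℕ)) ≤
      (2 / (1 - a)) * 16 ^ K * wt a l (fun k => (d k : ℕ)) := by
    rw [E.sum_comp (fun r => wt a (l + K) (fun k => ((sp h).symm (d, r) k : ℕ)))]
    exact sa_sum hW ha ha1 l K d (l + K - l) (Nat.add_sub_cancel_left ..)
  have h2 : ((2 : ℝ) ^ (l + K)) ^ (-q) = ((2 : ℝ) ^ l) ^ (-q) * (2 : ℝ) ^ (-((K : ℝ) * q)) := by
    rw [pow_add, Real.mul_rpow (by positivity) (by positivity), ← Real.rpow_natCast 2 K,
      ← Real.rpow_mul (by norm_num)]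
    congr 2
    ring
  have h3 : (2 : ℝ) ^ ((K : ℝ) * (4 - q)) = 16 ^ K * (2 : ℝ) ^ (-((K : ℝ) * q)) := by
    have h4 : (K : ℝ) * (4 - q) = (4 : ℝ) * K + -((K : ℝ) * q) := by ring
    rw [h4, Real.rpow_add (by norm_num), Real.rpow_mul (by norm_num), Real.rpow_natCast]
    norm_num
  have h5 : (0 : ℝ) ≤ ((2 : ℝ) ^ (l + K)) ^ (-q) := by positivity
  calc ∑ i, A * wv q a ((sp h).symm (d, E i))
      = (A * ((2 : ℝ) ^ (l + K)) ^ (-q)) *
          ∑ i, wt a (l + K) (fun k => ((sp h).symm (d, E i) k : ℕ)) := by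
        rw [Finset.mul_sum]
        refine Finset.sum_congr rfl fun i _ => ?_
        unfold wv
        ring
    _ ≤ (A * ((2 : ℝ) ^ (l + K)) ^ (-q)) * ((2 / (1 - a)) * 16 ^ K * wt a l (fun k => (d k : ℕ))) :=
        mul_le_mul_of_nonneg_left h1 (mul_nonneg hA h5)
    _ = (2 / (1 - a)) * (2 : ℝ) ^ ((K : ℝ) * (4 - q)) * A * wv q a d := by
        unfold wv
        rw [h2, h3]
        ring

open Classical in
/-- The step for permutations of one cube. -/
theorem cb_stepA (hW : CBW) (hM : CBMix) (hF : CBFam) : CBStepA := by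
  intro q a hq ha ha1 K
  obtain ⟨CN, hCN, hfam⟩ := hF (16 ^ K)
  refine ⟨16 * (((16 ^ K : ℕ) : ℝ) ^ 2 + 3) * (2 * CN), by positivity, ?_⟩
  intro L P hP l A S hL hA hS hSA hSS h d σ hσ
  have hlk : l ≤ l + K := Nat.le_add_right _ _
  have hcell : ∀ n : ℕ, Fintype.card (Cell n) = 16 ^ n := by
    intro n
    rw [Fintype.card_fun, Fintype.card_fin, Fintype.card_fin, ← pow_mul, mul_comm, pow_mul]
    norm_num
  have hcard : Fintype.card (Cell (l + K - l)) = 16 ^ K := by
    rw [hcell, Nat.add_sub_cancel_left]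
  let E : Fin (16 ^ K) ≃ Cell (l + K - l) := (Fintype.equivFinOfCardEq hcard).symm
  let D : Fin (16 ^ K) ↪ Cell (l + K) := ⟨fun i => (sp hlk).symm (d, E i), by
    intro i j hij
    have h1 := (sp hlk).symm.injective hij
    exact E.injective (Prod.ext_iff.1 h1).2⟩
  have hD : ∀ i, D i = (sp hlk).symm (d, E i) := fun i => rfl
  let e : Fin (16 ^ K) × Cell (L - (l + K)) ↪ Cell L := ⟨fun z => (sp hL).symm (D z.1, z.2), by
    intro z z' hz
    have h1 := Prod.ext_iff.1 ((sp hL).symm.injective hz)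
    exact Prod.ext (D.injective h1.1) h1.2⟩
  have he : ∀ z, e z = (sp hL).symm (D z.1, z.2) := fun z => rfl
  -- the permutation of the family
  have hrange : ∀ x, (sp h x).1 = d → x ∈ Set.range e := by
    intro x hx
    have h1 : (sp hlk (sp hL x).1).1 = d := by rw [sa_sp_sp hlk hL h, hx]
    refine ⟨(E.symm (sp hlk (sp hL x).1).2, (sp hL x).2), ?_⟩
    rw [he, hD, Equiv.apply_symm_apply]
    have h2 : (d, (sp hlk (sp hL x).1).2) = sp hlk (sp hL x).1 := Prod.ext h1.symm rfl
    rw [h2, Equiv.symm_apply_apply]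
    exact (sp hL).symm_apply_apply x
  obtain ⟨τ, hτ⟩ := sa_exists_via e σ (fun x hx => hrange x (hσ x hx))
  -- the costs
  have hwd : 0 < wv q a d := hW.pos q a l d
  let c : ℕ → ℝ := fun j => CN * S * (2 : ℝ) ^ (((K : ℝ) + j) * (1 + a - q)) * wv q a d
  have hc : ∀ j, 0 ≤ c j := fun j => by positivity
  have hcost : ∀ j ≤ L - (l + K), ∀ (ρ : Fin 4 → ℕ) (π : Equiv.Perm (Fin (16 ^ K))),
      P (mvP e (fun r => if blk (L - (l + K)) j ρ r then π else 1)) (c j) := by
    intro j hj ρ π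
    have hj' : l + K + j ≤ L := by omega
    have h1 := hfam q a hq ha ha1 L P hP l (l + K) hlk hL j hj' S hS
      (hSS (l + K + j) (by omega) hj') d d d (Or.inr ⟨rfl, rfl⟩) D
      (fun i => Or.inl (by rw [hD, Equiv.apply_symm_apply])) e he ρ π
    have h2 : (((l + K : ℕ) : ℝ) + j - l) = (K : ℝ) + j := by push_cast; ring
    rw [h2] at h1
    exact h1
  have hfib : ∀ α : Equiv.Perm (Fin (16 ^ K) × Cell (L - (l + K))), (∀ z, (α z).1 = z.1) →
      P (α.viaEmbedding e) ((2 / (1 - a)) * (2 : ℝ) ^ ((K : ℝ) * (4 - q)) * A * wv q a d) := by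
    intro α hα
    refine hP.mono _ _ _ (sa_wv_sum (q := q) hW ha ha1 l K (16 ^ K) d hlk E A hA) ?_
    refine sa_fibre P hP e (fun i => A * wv q a ((sp hlk).symm (d, E i))) ?_ α hα
    intro i γ hγ _
    have h1 := hSA hL (D i) (γ.viaEmbedding e) (by
      intro x hx
      obtain ⟨y, rfl, hy⟩ := sa_via_supp e γ x hx
      rw [he, Equiv.apply_symm_apply, hγ y hy])
    exact h1
  have hmix := hM (Cell L) P hP (16 ^ K) (L - (l + K)) e c
    ((2 / (1 - a)) * (2 : ℝ) ^ ((K : ℝ) * (4 - q)) * A * wv q a d) hc hcost hfib τ 0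
    (16 ^ (L - (l + K))) (by
      intro i
      calc _ ≤ (Finset.univ : Finset (Cell (L - (l + K)))).card := Finset.card_filter_le _ _
        _ = 16 ^ (L - (l + K)) := by rw [Finset.card_univ, hcell]) le_rfl
    (fun j hj => absurd hj (Nat.not_lt_zero j))
  rw [hτ] at hmix
  refine hP.mono _ _ _ ?_ hmix
  have hsum : ∑ j ∈ Finset.Icc 0 (L - (l + K)), c j ≤ CN * S * 2 * wv q a d := by
    calc ∑ j ∈ Finset.Icc 0 (L - (l + K)), c j
        = CN * S * wv q a d *
          ∑ j ∈ Finset.Icc 0 (L - (l + K)), (2 : ℝ) ^ (((K : ℝ) + j) * (1 + a - q)) := by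
          rw [Finset.mul_sum]
          exact Finset.sum_congr rfl fun j _ => by ring
      _ ≤ CN * S * wv q a d * 2 :=
          mul_le_mul_of_nonneg_left (sa_geom hq ha1 K (L - (l + K))) (by positivity)
      _ = CN * S * 2 * wv q a d := by ring
  have hNN : (0 : ℝ) ≤ 16 * (((16 ^ K : ℕ) : ℝ) ^ 2 + 3) := by positivity
  calc 2 * ((2 / (1 - a)) * (2 : ℝ) ^ ((K : ℝ) * (4 - q)) * A * wv q a d) +
        16 * (((16 ^ K : ℕ) : ℝ) ^ 2 + 3) * ∑ j ∈ Finset.Icc 0 (L - (l + K)), c j
      ≤ 2 * ((2 / (1 - a)) * (2 : ℝ) ^ ((K : ℝ) * (4 - q)) * A * wv q a d) +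
        16 * (((16 ^ K : ℕ) : ℝ) ^ 2 + 3) * (CN * S * 2 * wv q a d) := by
        gcongr
    _ = ((4 / (1 - a)) * (2 : ℝ) ^ ((K : ℝ) * (4 - q)) * A +
        16 * (((16 ^ K : ℕ) : ℝ) ^ 2 + 3) * (2 * CN) * S) * wv q a d := by ring

end

end Pool.Agent.H6.ST
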