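import Pool.Agent.H6.ST.CB.Defs

/-! # Project ST, row ST-CB10: exchanges of adjacent cubes from L-shaped cycles of half cubes -/

namespace Pool.Agent.H6.ST

noncomputable section

private theorem cb10_act_apply {l L : ℕ} (h : l ≤ L) (p : Equiv.Perm (Cell l)) (x : Cell L) :
    act h (fun _ => p) x = (sp h).symm (p (sp h x).1, (sp h x).2) := rfl

private theorem cb10_act_mul {l L : ℕ} (h : l ≤ L) (p p' : Equiv.Perm (Cell l)) :
    act h (fun _ => p * p') = act h (fun _ => p) * act h (fun _ => p') := by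
  ext1 x
  rw [Equiv.Perm.mul_apply, cb10_act_apply, cb10_act_apply, cb10_act_apply,
    Equiv.apply_symm_apply]
  rfl

private theorem cb10_two {l L : ℕ} (h : l ≤ L) (h1 : l + 1 ≤ L) (d e : Cell l) :
    act h1 (fun _ => xch (Nat.le_succ l) d e) = xch h d e := by
  ext1 x
  have hb : 2 ^ (L - l) = 2 ^ (L - (l + 1)) * 2 := by
    rw [← pow_succ]; congr 1; omega
  have e1 : (sp (Nat.le_succ l) (sp h1 x).1).1 = (sp h x).1 := by
    funext m
    apply Fin.ext
    show (x m : ℕ) / 2 ^ (L - (l + 1)) / 2 ^ (l + 1 - l) = (x m : ℕ) / 2 ^ (L - l)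
    rw [Nat.div_div_eq_div_mul, hb, Nat.add_sub_cancel_left, pow_one]
  funext m
  apply Fin.ext
  show ((Equiv.swap d e (sp (Nat.le_succ l) (sp h1 x).1).1 m : ℕ) * 2 ^ (l + 1 - l) +
      ((x m : ℕ) / 2 ^ (L - (l + 1))) % 2 ^ (l + 1 - l)) * 2 ^ (L - (l + 1)) +
      (x m : ℕ) % 2 ^ (L - (l + 1)) =
    (Equiv.swap d e (sp h x).1 m : ℕ) * 2 ^ (L - l) + (x m : ℕ) % 2 ^ (L - l)
  rw [e1, hb, Nat.mod_mul, Nat.add_sub_cancel_left, pow_one]
  ring

private theorem cb10_k (k : Fin 4) : k + 1 ≠ k ∧ k + 2 ≠ k ∧ k + 2 ≠ k + 1 ∧ k + 3 ≠ k ∧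
    k + 3 ≠ k + 1 ∧ k + 3 ≠ k + 2 ∧ ∀ m, m = k ∨ m = k + 1 ∨ m = k + 2 ∨ m = k + 3 := by
  revert k; decide

/-- the half cubes of two adjacent cubes -/
private def cb10E {l : ℕ} (k : Fin 4) (d : Cell l) (hd : (d k : ℕ) + 1 < 2 ^ l) :
    (Fin 4 × Fin 2 × Fin 2 × Fin 2) ↪ Cell (l + 1) where
  toFun z := fun m => ⟨2 * (d m : ℕ) + (if m = k then (z.1 : ℕ) else
    if m = k + 1 then (z.2.1 : ℕ) else if m = k + 2 then (z.2.2.1 : ℕ) else (z.2.2.2 : ℕ)), by
      have h1 := (d m).isLt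
      have h2 := z.1.isLt
      have h3 := z.2.1.isLt
      have h4 := z.2.2.1.isLt
      have h5 := z.2.2.2.isLt
      rw [pow_succ]
      split_ifs with a b c
      · subst a; omega
      · omega
      · omega
      · omega⟩
  inj' z z' h := by
    obtain ⟨k1, k2, k3, k4, k5, k6, -⟩ := cb10_k k
    have h0 := congrArg Fin.val (congrFun h k)
    have h1 := congrArg Fin.val (congrFun h (k + 1))
    have h2 := congrArg Fin.val (congrFun h (k + 2))
    have h3 := congrArg Fin.val (congrFun h (k + 3))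
    simp only [if_true, if_neg k1, if_neg k2, if_neg k3, if_neg k4, if_neg k5, if_neg k6]
      at h0 h1 h2 h3
    refine Prod.ext (Fin.ext (by omega)) (Prod.ext (Fin.ext (by omega))
      (Prod.ext (Fin.ext (by omega)) (Fin.ext (by omega))))

section

variable {l : ℕ} (k : Fin 4) (d : Cell l) (hd : (d k : ℕ) + 1 < 2 ^ l)

private theorem cb10_val (z : Fin 4 × Fin 2 × Fin 2 × Fin 2) (m : Fin 4) :
    (cb10E k d hd z m : ℕ) = 2 * (d m : ℕ) + (if m = k then (z.1 : ℕ) else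
    if m = k + 1 then (z.2.1 : ℕ) else if m = k + 2 then (z.2.2.1 : ℕ) else (z.2.2.2 : ℕ)) := rfl

private theorem cb10_val_k (z : Fin 4 × Fin 2 × Fin 2 × Fin 2) :
    (cb10E k d hd z k : ℕ) = 2 * (d k : ℕ) + z.1 := by
  rw [cb10_val, if_pos rfl]

private theorem cb10_val_ne (z : Fin 4 × Fin 2 × Fin 2 × Fin 2) (m : Fin 4) (hm : m ≠ k) :
    (cb10E k d hd z m : ℕ) / 2 = d m := by
  have h3 := z.2.1.isLt
  have h4 := z.2.2.1.isLt
  have h5 := z.2.2.2.isLt
  rw [cb10_val, if_neg hm]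
  split_ifs <;> omega

private theorem cb10_nbr1 (x x' : Fin 4) (w : Fin 2 × Fin 2 × Fin 2)
    (hx : (x' : ℕ) = x + 1 ∨ (x' : ℕ) + 1 = x) :
    Nbr k (cb10E k d hd (x, w)) (cb10E k d hd (x', w)) := by
  refine ⟨?_, fun m hm => Fin.ext ?_⟩
  · rw [cb10_val_k, cb10_val_k]
    dsimp only
    omega
  · rw [cb10_val, cb10_val, if_neg hm, if_neg hm]

private theorem cb10_nbr2 (x : Fin 4) (y y' : Fin 2) (w : Fin 2 × Fin 2)
    (hy : (y' : ℕ) = y + 1 ∨ (y' : ℕ) + 1 = y) :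
    Nbr (k + 1) (cb10E k d hd (x, y, w)) (cb10E k d hd (x, y', w)) := by
  refine ⟨?_, fun m hm => Fin.ext ?_⟩
  · rw [cb10_val, cb10_val, if_neg (cb10_k k).1, if_neg (cb10_k k).1, if_pos rfl, if_pos rfl]
    dsimp only
    omega
  · rw [cb10_val, cb10_val, if_neg hm, if_neg hm]

private theorem cb10_sp (e : Cell l) (he : (e k : ℕ) = d k + 1) (he' : ∀ m, m ≠ k → e m = d m)
    (z : Fin 4 × Fin 2 × Fin 2 × Fin 2) :
    (sp (Nat.le_succ l) (cb10E k d hd z)).1 = if (z.1 : ℕ) < 2 then d else e := by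
  have hz := z.1.isLt
  funext m
  apply Fin.ext
  show (cb10E k d hd z m : ℕ) / 2 ^ (l + 1 - l) = _
  rw [Nat.add_sub_cancel_left, pow_one]
  by_cases hm : m = k
  · subst hm
    rw [cb10_val_k]
    split_ifs
    · omega
    · rw [he]; omega
  · rw [cb10_val_ne k d hd z m hm]
    split_ifs
    · rfl
    · rw [he' m hm]

private theorem cb10_x (x : Fin 4) :
    ((x + 2 : Fin 4) : ℕ) = if (x : ℕ) < 2 then (x : ℕ) + 2 else (x : ℕ) - 2 := by
  revert x; decide

private theorem cb10_range (c : Cell (l + 1)) (h0 : (c k : ℕ) / 2 = d k ∨ (c k : ℕ) / 2 = d k + 1)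
    (h : ∀ m, m ≠ k → (c m : ℕ) / 2 = d m) : c ∈ Set.range (cb10E k d hd) := by
  obtain ⟨k1, k2, k3, k4, k5, k6, k7⟩ := cb10_k k
  refine ⟨(⟨(c k : ℕ) - 2 * d k, by omega⟩, ⟨(c (k + 1) : ℕ) % 2, by omega⟩,
    ⟨(c (k + 2) : ℕ) % 2, by omega⟩, ⟨(c (k + 3) : ℕ) % 2, by omega⟩), ?_⟩
  funext m
  apply Fin.ext
  rcases k7 m with rfl | rfl | rfl | rfl
  · rw [cb10_val_k]
    dsimp only
    omega
  · have := h _ k1
    rw [cb10_val, if_neg k1, if_pos rfl]
    dsimp only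
    omega
  · have := h _ k2
    rw [cb10_val, if_neg k2, if_neg k3, if_pos rfl]
    dsimp only
    omega
  · have := h _ k4
    rw [cb10_val, if_neg k4, if_neg k5, if_neg k6]
    dsimp only
    omega

/-- the permutation of the half cubes -/
private def cb10X : Equiv.Perm (Fin 4 × Fin 2 × Fin 2 × Fin 2) :=
  Equiv.prodCongr (Equiv.addRight 2) (Equiv.refl _)

private theorem cb10_via (e : Cell l) (he : (e k : ℕ) = d k + 1) (he' : ∀ m, m ≠ k → e m = d m) :
    cb10X.viaEmbedding (cb10E k d hd) = xch (Nat.le_succ l) d e := by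
  have hde : d ≠ e := by
    intro h; rw [← h] at he; omega
  ext1 c
  have hR : ∀ m, (xch (Nat.le_succ l) d e c m : ℕ) =
      (Equiv.swap d e (sp (Nat.le_succ l) c).1 m : ℕ) * 2 + (c m : ℕ) % 2 := by
    intro m
    have key : ∀ A : ℕ, A * 2 ^ (l + 1 - l) + (c m : ℕ) % 2 ^ (l + 1 - l) =
        A * 2 + (c m : ℕ) % 2 := by
      intro A
      rw [Nat.add_sub_cancel_left, pow_one]
    exact key _
  by_cases hc : c ∈ Set.range (cb10E k d hd)
  · obtain ⟨z, rfl⟩ := hc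
    rw [Equiv.Perm.viaEmbedding_apply]
    funext m
    apply Fin.ext
    rw [hR, cb10_sp k d hd e he he']
    obtain ⟨x, w⟩ := z
    have hx4 := x.isLt
    have hx := cb10_x x
    show (cb10E k d hd (x + 2, w) m : ℕ) = _
    by_cases hm : m = k
    · subst hm
      rw [cb10_val_k, cb10_val_k]
      dsimp only
      rw [hx]
      split_ifs with h1
      · rw [Equiv.swap_apply_left, he]; omega
      · rw [Equiv.swap_apply_right]; omega
    · have h1 : (cb10E k d hd (x + 2, w) m : ℕ) = (cb10E k d hd (x, w) m : ℕ) := by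
        rw [cb10_val, cb10_val, if_neg hm, if_neg hm]
      have h2 := cb10_val_ne k d hd (x, w) m hm
      rw [h1]
      dsimp only
      split_ifs with h3
      · rw [Equiv.swap_apply_left, he' m hm]; omega
      · rw [Equiv.swap_apply_right]; omega
  · rw [Equiv.Perm.viaEmbedding_apply_of_notMem _ _ _ hc]
    have hv : ∀ f : Cell l, (sp (Nat.le_succ l) c).1 = f → ∀ m, (c m : ℕ) / 2 = f m := by
      intro f hf m
      have h3 := congrArg Fin.val (congrFun hf m)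
      change (c m : ℕ) / 2 ^ (l + 1 - l) = _ at h3
      rwa [Nat.add_sub_cancel_left, pow_one] at h3
    have h1 : (sp (Nat.le_succ l) c).1 ≠ d := fun h =>
      hc (cb10_range k d hd c (Or.inl (hv d h k)) (fun m _ => hv d h m))
    have h2 : (sp (Nat.le_succ l) c).1 ≠ e := fun h =>
      hc (cb10_range k d hd c (Or.inr ((hv e h k).trans he))
        (fun m hm => (hv e h m).trans (congrArg Fin.val (he' m hm))))
    funext m
    apply Fin.ext
    rw [hR, Equiv.swap_apply_of_ne_of_ne h1 h2]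
    show _ = (c m : ℕ) / 2 ^ (l + 1 - l) * 2 + (c m : ℕ) % 2
    rw [Nat.add_sub_cancel_left, pow_one]
    omega

private theorem cb10_swap (A B : Fin 4 × Fin 2 × Fin 2 × Fin 2) :
    (Equiv.swap A B).viaEmbedding (cb10E k d hd) =
      Equiv.swap (cb10E k d hd A) (cb10E k d hd B) := by
  ext1 c
  by_cases hc : c ∈ Set.range (cb10E k d hd)
  · obtain ⟨z, rfl⟩ := hc
    rw [Equiv.Perm.viaEmbedding_apply, (cb10E k d hd).injective.map_swap]
  · rw [Equiv.Perm.viaEmbedding_apply_of_notMem _ _ _ hc, Equiv.swap_apply_of_ne_of_ne]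
    · rintro rfl
      exact hc ⟨A, rfl⟩
    · rintro rfl
      exact hc ⟨B, rfl⟩

/-- a permutation of the half cubes as a permutation of cells -/
private def cb10F {L : ℕ} (h1 : l + 1 ≤ L) (p : Equiv.Perm (Fin 4 × Fin 2 × Fin 2 × Fin 2)) :
    Equiv.Perm (Cell L) := act h1 (fun _ => p.viaEmbedding (cb10E k d hd))

private theorem cb10F_mul {L : ℕ} (h1 : l + 1 ≤ L)
    (p p' : Equiv.Perm (Fin 4 × Fin 2 × Fin 2 × Fin 2)) :
    cb10F k d hd h1 (p * p') = cb10F k d hd h1 p * cb10F k d hd h1 p' := by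
  rw [cb10F, cb10F, cb10F, ← cb10_act_mul]
  congr 1
  funext _
  exact map_mul (Equiv.Perm.viaEmbeddingHom (cb10E k d hd)) p p'

private theorem cb10F_cyc {L : ℕ} (h1 : l + 1 ≤ L) (A B C : Fin 4 × Fin 2 × Fin 2 × Fin 2)
    (hAB : A ≠ B) (hAC : A ≠ C) :
    cb10F k d hd h1 (Equiv.swap A B * Equiv.swap B C) =
      cyc h1 (cb10E k d hd B) (cb10E k d hd C) (cb10E k d hd A) := by
  have e1 : Equiv.swap A B * Equiv.swap B C = Equiv.swap B C * Equiv.swap C A := by
    have h := Equiv.swap_mul_swap_mul_swap (x := A) (y := C) (z := B) hAC hAB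
    rw [Equiv.swap_comm C B, Equiv.swap_comm A C] at h
    rw [Equiv.swap_comm A B, ← h, mul_assoc, Equiv.swap_mul_self, mul_one]
  rw [e1, cb10F, cyc]
  congr 1
  funext _
  have h2 := map_mul (Equiv.Perm.viaEmbeddingHom (cb10E k d hd)) (Equiv.swap B C)
    (Equiv.swap C A)
  simp only [Equiv.Perm.viaEmbeddingHom_apply] at h2
  rw [h2, cb10_swap, cb10_swap]

/-- the exchange of two adjacent squares -/
private def cb10S (x x' : Fin 4) (w : Fin 2 × Fin 2) :
    Equiv.Perm (Fin 4 × Fin 2 × Fin 2 × Fin 2) :=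
  (Equiv.swap (x, 0, w) (x', 0, w) * Equiv.swap (x', 0, w) (x', 1, w)) *
    (Equiv.swap (x', 0, w) (x', 1, w) * Equiv.swap (x', 1, w) (x, 1, w))

private def cb10T (x x' : Fin 4) : Equiv.Perm (Fin 4 × Fin 2 × Fin 2 × Fin 2) :=
  (cb10S x x' (0, 0) * cb10S x x' (0, 1)) * (cb10S x x' (1, 0) * cb10S x x' (1, 1))

private theorem cb10X_eq : cb10X = (cb10T 1 2 * cb10T 0 1) * (cb10T 2 3 * cb10T 1 2) := by
  decide +kernel

end

private theorem cb10_wv (hW : CBW) (q a : ℝ) (hq : 4 < q) (ha : 0 ≤ a) (ha1 : a < 1) {l : ℕ}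
    (k : Fin 4) (d e : Cell l) (hd : (d k : ℕ) + 1 < 2 ^ l) (he : (e k : ℕ) = d k + 1)
    (he' : ∀ m, m ≠ k → e m = d m) (z : Fin 4 × Fin 2 × Fin 2 × Fin 2) :
    wv q a (cb10E k d hd z) ≤ 4 * wv q a d := by
  have h2l : (0 : ℝ) < (2 ^ l : ℝ) ^ (-q) := by positivity
  have hpos : 0 < wt a l (fun k => (d k : ℕ)) := by
    have := hW.pos q a l d
    rw [wv] at this
    exact (mul_pos_iff_of_pos_right h2l).1 this
  have h1 := hW.anc a ha ha1 l (l + 1) (Nat.le_succ l) (cb10E k d hd z)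
  rw [cb10_sp k d hd e he he' z] at h1
  have h3 : wt a l (fun m => ((if (z.1 : ℕ) < 2 then d else e) m : ℕ)) ≤
      2 * wt a l (fun k => (d k : ℕ)) := by
    split_ifs
    · linarith
    · exact hW.nbr a ha ha1 l k d e ⟨Or.inl he, he'⟩
  have h4 : (2 : ℝ) ^ ((((l + 1 : ℕ) : ℝ) - l) * a) ≤ 2 := by
    calc (2 : ℝ) ^ ((((l + 1 : ℕ) : ℝ) - l) * a) ≤ (2 : ℝ) ^ (1 : ℝ) := by
          apply Real.rpow_le_rpow_of_exponent_le (by norm_num)
          push_cast
          nlinarith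
      _ = 2 := Real.rpow_one 2
  have h5 : ((2 : ℝ) ^ (l + 1)) ^ (-q) ≤ ((2 : ℝ) ^ l) ^ (-q) := by
    apply Real.rpow_le_rpow_of_nonpos (by positivity) _ (by linarith)
    exact pow_le_pow_right₀ (by norm_num) (Nat.le_succ l)
  have h6 : wt a (l + 1) (fun k_1 => (cb10E k d hd z k_1 : ℕ)) ≤
      4 * wt a l (fun k => (d k : ℕ)) := by
    refine h1.trans ?_
    calc _ ≤ (2 : ℝ) ^ ((((l + 1 : ℕ) : ℝ) - l) * a) * (2 * wt a l (fun k => (d k : ℕ))) :=
          mul_le_mul_of_nonneg_left h3 (by positivity)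
      _ ≤ 2 * (2 * wt a l (fun k => (d k : ℕ))) :=
          mul_le_mul_of_nonneg_right h4 (by positivity)
      _ = _ := by ring
  rw [wv, wv]
  calc _ ≤ (4 * wt a l (fun k => (d k : ℕ))) * ((2 : ℝ) ^ (l + 1)) ^ (-q) :=
        mul_le_mul_of_nonneg_right h6 (by positivity)
    _ ≤ (4 * wt a l (fun k => (d k : ℕ))) * ((2 : ℝ) ^ l) ^ (-q) :=
        mul_le_mul_of_nonneg_left h5 (by positivity)
    _ = _ := by ring

theorem cb_stepS (hW : CBW) : CBStepS := by
  intro q a hq ha ha1 L P hP l T h1 hT hST h d e hde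
  obtain ⟨k, he, he'⟩ := hde
  have hd : (d k : ℕ) + 1 < 2 ^ l := by rw [← he]; exact (e k).isLt
  have hwv := cb10_wv hW q a hq ha ha1 k d e hd he he'
  have hpos := hW.pos q a l d
  set W : ℝ := 4 * wv q a d with hWdef
  -- L-shaped cycles
  have hC : ∀ A B C : Fin 4 × Fin 2 × Fin 2 × Fin 2, A ≠ B → A ≠ C →
      LTri (cb10E k d hd B) (cb10E k d hd C) (cb10E k d hd A) →
      P (cb10F k d hd h1 (Equiv.swap A B * Equiv.swap B C)) (T * W) := by
    intro A B C hAB hAC hL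
    rw [cb10F_cyc k d hd h1 A B C hAB hAC]
    exact hP.mono _ _ _ (mul_le_mul_of_nonneg_left (hwv B) hT) (hST h1 _ _ _ hL)
  have hk := (cb10_k k).1
  have hS : ∀ (x x' : Fin 4) (w : Fin 2 × Fin 2), (x' : ℕ) = x + 1 →
      P (cb10F k d hd h1 (cb10S x x' w)) (T * W + T * W) := by
    intro x x' w hx
    have hxx : x ≠ x' := by
      rintro rfl; omega
    rw [cb10S, cb10F_mul]
    apply hP.mul
    · apply hC
      · intro h; exact hxx (congrArg Prod.fst h)
      · intro h; exact hxx (congrArg Prod.fst h)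
      · exact ⟨k + 1, k, hk, cb10_nbr2 k d hd x' 0 1 w (Or.inl rfl),
          cb10_nbr1 k d hd x' x (0, w) (Or.inr hx.symm)⟩
    · apply hC
      · intro h
        have h01 : (0 : Fin 2) = 1 := congrArg (fun z => z.2.1) h
        exact absurd h01 (by decide)
      · intro h; exact hxx (congrArg Prod.fst h).symm
      · exact ⟨k, k + 1, hk.symm, cb10_nbr1 k d hd x' x (1, w) (Or.inr hx.symm),
          cb10_nbr2 k d hd x' 1 0 w (Or.inr rfl)⟩
  have hTT : ∀ (x x' : Fin 4), (x' : ℕ) = x + 1 →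
      P (cb10F k d hd h1 (cb10T x x')) (8 * (T * W)) := by
    intro x x' hx
    rw [cb10T, cb10F_mul, cb10F_mul, cb10F_mul]
    refine hP.mono _ _ _ ?_ (hP.mul _ _ _ _ (hP.mul _ _ _ _ (hS x x' _ hx) (hS x x' _ hx))
      (hP.mul _ _ _ _ (hS x x' _ hx) (hS x x' _ hx)))
    linarith
  have hX : P (cb10F k d hd h1 cb10X) (32 * (T * W)) := by
    rw [cb10X_eq, cb10F_mul, cb10F_mul, cb10F_mul]
    refine hP.mono _ _ _ ?_ (hP.mul _ _ _ _ (hP.mul _ _ _ _ (hTT 1 2 rfl) (hTT 0 1 rfl))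
      (hP.mul _ _ _ _ (hTT 2 3 rfl) (hTT 1 2 rfl)))
    linarith
  rw [cb10F, cb10_via k d hd e he he', cb10_two h h1 d e] at hX
  refine hP.mono _ _ _ ?_ hX
  rw [hWdef]
  nlinarith [mul_nonneg hT hpos.le]

end

end Pool.Agent.H6.ST
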