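import Pool.Agent.H6.ST.CB.Defs

/-! # The sharp trichotomy (ST): the step for L-shaped cycles (row ST-CB9, helper43) -/

namespace Pool.Agent.H6.ST

open Set
open scoped ENNReal ContDiff

noncomputable section

theorem cb9_ai {X : Type} (p : Equiv.Perm X) (x : X) : p (p⁻¹ x) = x := Equiv.apply_symm_apply p x

theorem cb9_ia {X : Type} (p : Equiv.Perm X) (x : X) : p⁻¹ (p x) = x := Equiv.symm_apply_apply p x

/-- A permutation that is supported in the range of an embedding. -/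
theorem cb9_via {Y X : Type} (e : Y ↪ X) (p : Equiv.Perm X)
    (hp : ∀ x, p x ≠ x → x ∈ Set.range e) :
    ∃ σ : Equiv.Perm Y, σ.viaEmbedding e = p ∧ ∀ y, e (σ y) = p (e y) := by
  classical
  have h1 : ∀ y, ∃ z, e z = p (e y) := by
    intro y
    by_cases h : p (e y) = e y
    · exact ⟨y, h.symm⟩
    · exact hp _ (fun h' => h (p.injective h'))
  have h2 : ∀ y, ∃ z, e z = p⁻¹ (e y) := by
    intro y
    by_cases h : p⁻¹ (e y) = e y
    · exact ⟨y, h.symm⟩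
    · apply hp
      rw [cb9_ai]
      exact fun h' => h h'.symm
  choose f hf using h1
  choose g hg using h2
  let σ : Equiv.Perm Y :=
    ⟨f, g, fun y => e.injective (by rw [hg, hf, cb9_ia]),
      fun y => e.injective (by rw [hf, hg, cb9_ai])⟩
  refine ⟨σ, ?_, fun y => hf y⟩
  ext x
  by_cases hx : x ∈ Set.range e
  · obtain ⟨y, rfl⟩ := hx
    rw [Equiv.Perm.viaEmbedding_apply]
    exact hf y
  · rw [Equiv.Perm.viaEmbedding_apply_of_notMem _ _ _ hx]
    by_contra h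
    exact hx (hp x (fun h' => h h'.symm))

/-- The part of a fibre preserving permutation over one fibre. -/
def cb9_part {A B : Type} [DecidableEq A] (α : Equiv.Perm (A × B)) (hα : ∀ z, (α z).1 = z.1)
    (i : A) : Equiv.Perm (A × B) where
  toFun z := if z.1 = i then α z else z
  invFun z := if z.1 = i then α⁻¹ z else z
  left_inv z := by
    by_cases h : z.1 = i
    · have h' : (α z).1 = i := by rw [hα, h]
      simp only [h, if_true, h', cb9_ia]
    · simp only [h, if_false]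
  right_inv z := by
    by_cases h : z.1 = i
    · have h' : (α⁻¹ z).1 = i := by
        have := hα (α⁻¹ z)
        rw [cb9_ai] at this
        rw [← this, h]
      simp only [h, if_true, h', cb9_ai]
    · simp only [h, if_false]

/-- Fibre preserving permutations, from the permutations of the fibres. -/
theorem cb9_fib {X A B : Type} [DecidableEq A] (P : Equiv.Perm X → ℝ → Prop) (hP : PK P)
    (e : A × B ↪ X) (w : A → ℝ)
    (h : ∀ i (β : Equiv.Perm (A × B)), (∀ z, β z ≠ z → z.1 = i) → P (β.viaEmbedding e) (w i))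
    (s : Finset A) : ∀ α : Equiv.Perm (A × B), (∀ z, (α z).1 = z.1) →
      (∀ z, z.1 ∉ s → α z = z) → P (α.viaEmbedding e) (∑ i ∈ s, w i) := by
  classical
  induction s using Finset.induction_on with
  | empty =>
    intro α _ h2
    have : α = 1 := by
      ext1 z
      simpa using h2 z (by simp)
    rw [this, Finset.sum_empty]
    have h1 : (1 : Equiv.Perm (A × B)).viaEmbedding e = 1 := by
      rw [← Equiv.Perm.viaEmbeddingHom_apply, map_one]
    rw [h1]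
    exact hP.one
  | insert i s hi ih =>
    intro α h1 h2
    set β := cb9_part α h1 i with hβ
    have hβv : ∀ z, β z = if z.1 = i then α z else z := fun z => rfl
    have hβi : ∀ z, β⁻¹ z = if z.1 = i then α⁻¹ z else z := fun z => rfl
    have hγ : ∀ z, (β⁻¹ * α) z = if z.1 = i then z else α z := by
      intro z
      rw [Equiv.Perm.mul_apply, hβi, h1]
      by_cases hz : z.1 = i
      · rw [if_pos hz, if_pos hz, cb9_ia]
      · rw [if_neg hz, if_neg hz]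
    have e1 : α = β * (β⁻¹ * α) := by group
    rw [e1, ← Equiv.Perm.viaEmbeddingHom_apply, map_mul, Finset.sum_insert hi]
    refine hP.mul _ _ _ _ ?_ ?_
    · rw [Equiv.Perm.viaEmbeddingHom_apply]
      refine h i β ?_
      intro z hz
      by_contra hne
      rw [hβv, if_neg hne] at hz
      exact hz rfl
    · rw [Equiv.Perm.viaEmbeddingHom_apply]
      refine ih _ ?_ ?_
      · intro z
        rw [hγ]
        by_cases hz : z.1 = i
        · rw [if_pos hz]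
        · rw [if_neg hz, h1]
      · intro z hz
        rw [hγ]
        by_cases hz' : z.1 = i
        · rw [if_pos hz']
        · rw [if_neg hz']
          exact h2 z (by simp [hz, hz'])

/-- The number of vectors with a condition on one coordinate. -/
theorem cb9_card1 (n : ℕ) (p : Fin n → Prop) [DecidablePred p] (k : Fin 4) :
    (Finset.univ.filter (fun r : Fin 4 → Fin n => p (r k))).card =
      (Finset.univ.filter p).card * n ^ 3 := by
  classical
  have h : Finset.univ.filter (fun r : Fin 4 → Fin n => p (r k)) =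
      Fintype.piFinset (fun m => if m = k then Finset.univ.filter p else Finset.univ) := by
    ext r
    simp only [Finset.mem_filter, Finset.mem_univ, true_and, Fintype.mem_piFinset]
    constructor
    · intro h m
      by_cases hm : m = k
      · subst hm
        simp [h]
      · simp [hm]
    · intro h
      have := h k
      simpa using this
  rw [h, Fintype.card_piFinset]
  have h2 : ∀ m, (if m = k then Finset.univ.filter p else (Finset.univ : Finset (Fin n))).card =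
      if m = k then (Finset.univ.filter p).card else n := by
    intro m
    split_ifs
    · rfl
    · simp
  simp only [h2]
  fin_cases k <;> simp [Fin.prod_univ_four] <;> ring

/-- The number of vectors with a coordinate near the ends. -/
theorem cb9_cnt (n c : ℕ) :
    (Finset.univ.filter (fun r : Fin 4 → Fin n =>
      ∃ k, (r k : ℕ) < c ∨ n ≤ (r k : ℕ) + c)).card ≤ 8 * c * n ^ 3 := by
  classical
  have h1 : (Finset.univ.filter (fun v : Fin n => (v : ℕ) < c ∨ n ≤ (v : ℕ) + c)).card ≤ 2 * c := by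
    rw [Finset.filter_or]
    refine (Finset.card_union_le _ _).trans ?_
    have h2 : (Finset.univ.filter (fun v : Fin n => (v : ℕ) < c)).card ≤ c := by
      have := Finset.card_le_card_of_injOn (s := Finset.univ.filter (fun v : Fin n => (v : ℕ) < c))
        (t := Finset.range c) (fun v => (v : ℕ)) (by intro v hv; simpa using hv)
        (by intro v _ w _ hvw; exact Fin.ext hvw)
      simpa using this
    have h3 : (Finset.univ.filter (fun v : Fin n => n ≤ (v : ℕ) + c)).card ≤ c := by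
      have := Finset.card_le_card_of_injOn
        (s := Finset.univ.filter (fun v : Fin n => n ≤ (v : ℕ) + c))
        (t := Finset.range c) (fun v => n - 1 - (v : ℕ))
        (by
          intro v hv
          have h4 := v.isLt
          simp only [Finset.coe_filter, Finset.mem_univ, true_and, Set.mem_ofPred_eq] at hv
          simp only [Finset.coe_range, Set.mem_Iio]
          omega)
        (by
          intro v _ w _ hvw
          have h4 := v.isLt
          have h5 := w.isLt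
          simp only at hvw
          apply Fin.ext
          omega)
      simpa using this
    omega
  have h4 : (Finset.univ.filter (fun r : Fin 4 → Fin n =>
      ∃ k, (r k : ℕ) < c ∨ n ≤ (r k : ℕ) + c)) ⊆
      Finset.univ.biUnion (fun k : Fin 4 => Finset.univ.filter (fun r : Fin 4 → Fin n =>
        (r k : ℕ) < c ∨ n ≤ (r k : ℕ) + c)) := by
    intro r hr
    simp only [Finset.mem_filter, Finset.mem_univ, true_and] at hr
    simp only [Finset.mem_biUnion, Finset.mem_filter, Finset.mem_univ, true_and]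
    exact hr
  refine (Finset.card_le_card h4).trans (Finset.card_biUnion_le.trans ?_)
  have h5 : ∀ k : Fin 4, (Finset.univ.filter (fun r : Fin 4 → Fin n =>
        (r k : ℕ) < c ∨ n ≤ (r k : ℕ) + c)).card ≤ 2 * c * n ^ 3 := by
    intro k
    rw [cb9_card1 n (fun v => (v : ℕ) < c ∨ n ≤ (v : ℕ) + c) k]
    exact Nat.mul_le_mul_right _ h1
  refine (Finset.sum_le_sum (fun k _ => h5 k)).trans ?_
  rw [Finset.sum_const, Finset.card_univ, Fintype.card_fin, smul_eq_mul]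
  apply le_of_eq
  ring

/-- Positions near the faces of the big cube. -/
theorem cb9_arith (y a b c : ℕ) (hb : 0 < b) (ha : 0 < a) (hc : c ≤ b)
    (hy : ¬ (c ≤ y % (b * a) ∧ y % (b * a) + c < b * a)) :
    (y % b < c ∨ b ≤ y % b + c) ∧ (y / b % a < 1 ∨ a ≤ y / b % a + 1) := by
  rw [Nat.mod_mul] at hy
  have h1 : y % b < b := Nat.mod_lt _ hb
  have h2 : y / b % a < a := Nat.mod_lt _ ha
  set w := y % b
  set v := y / b % a
  by_cases h3 : c ≤ w + b * v
  · have h4 : b * a ≤ w + b * v + c := by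
      by_contra h5
      exact hy ⟨h3, by omega⟩
    have h5 : a ≤ v + 1 := by
      by_contra h6
      have h7 : v + 2 ≤ a := by omega
      have h8 : b * (v + 2) ≤ b * a := Nat.mul_le_mul_left _ h7
      have h9 : b * (v + 2) = b * v + 2 * b := by ring
      omega
    have h6 : a = v + 1 := by omega
    have h7 : b * a = b * v + b := by rw [h6]; ring
    exact ⟨Or.inr (by omega), Or.inr (by omega)⟩
  · have h4 : v = 0 := by
      by_contra h5
      have h6 : b * 1 ≤ b * v := Nat.mul_le_mul_left _ (by omega)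
      omega
    exact ⟨Or.inl (by omega), Or.inl (by omega)⟩

theorem cb9_wtpos (hW : CBW) (a : ℝ) (l : ℕ) (d : Cell l) : 0 < wt a l (fun k => (d k : ℕ)) := by
  have := hW.pos 0 a l d
  unfold wv at this
  simpa using this

/-- The weight of a cube in the region. -/
theorem cb9_wv (hW : CBW) (q a : ℝ) (ha0 : 0 ≤ a) (ha1 : a < 1) (l K : ℕ) (d₁ d₂ d₃ : Cell l)
    (hT : LTri d₁ d₂ d₃) (h : l ≤ l + K) (b : Cell (l + K)) (hb : InReg h d₁ d₂ d₃ b) :
    wv q a b ≤ 2 * (2 : ℝ) ^ ((K : ℝ) * (a - q)) * wv q a d₁ := by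
  have h1 := hW.anc a ha0 ha1 l (l + K) h b
  have h2 : wt a l (fun k => ((sp h b).1 k : ℕ)) ≤ 2 * wt a l (fun k => (d₁ k : ℕ)) := by
    obtain ⟨i, j, _, hi, hj⟩ := hT
    have h0 := cb9_wtpos hW a l d₁
    rcases hb with hb | hb | hb
    · rw [hb]; linarith
    · rw [hb]; exact hW.nbr a ha0 ha1 l i d₁ d₂ hi
    · rw [hb]; exact hW.nbr a ha0 ha1 l j d₁ d₃ hj
  have h3 : (((l + K : ℕ) : ℝ) - l) = K := by push_cast; ring
  rw [h3] at h1
  have h4 : wt a (l + K) (fun k => (b k : ℕ)) ≤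
      (2 : ℝ) ^ ((K : ℝ) * a) * (2 * wt a l (fun k => (d₁ k : ℕ))) :=
    h1.trans (mul_le_mul_of_nonneg_left h2 (by positivity))
  have h5 : ((2 : ℝ) ^ (l + K)) ^ (-q) = (2 : ℝ) ^ (-((K : ℝ) * q)) * ((2 : ℝ) ^ l) ^ (-q) := by
    rw [pow_add, Real.mul_rpow (by positivity) (by positivity), mul_comm]
    congr 1
    rw [← Real.rpow_natCast, ← Real.rpow_mul (by norm_num)]
    congr 1
    ring
  have h6 : (2 : ℝ) ^ ((K : ℝ) * (a - q)) = (2 : ℝ) ^ ((K : ℝ) * a) * (2 : ℝ) ^ (-((K : ℝ) * q)) := by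
    rw [← Real.rpow_add (by norm_num)]
    congr 1
    ring
  unfold wv
  rw [h5, h6]
  have h7 : (0 : ℝ) ≤ (2 : ℝ) ^ (-((K : ℝ) * q)) * ((2 : ℝ) ^ l) ^ (-q) := by positivity
  refine (mul_le_mul_of_nonneg_right h4 h7).trans (le_of_eq ?_)
  ring

/-- The geometric sum. -/
theorem cb9_geo (s : ℝ) (hs : s ≤ -2) (K j₀ m : ℕ) :
    ∑ j ∈ Finset.Icc j₀ m, (2 : ℝ) ^ (((K : ℝ) + j) * s) ≤
      2 * (2 : ℝ) ^ (((K : ℝ) + j₀) * s) := by
  have h1 : ∀ j : ℕ, (2 : ℝ) ^ (((K : ℝ) + j) * s) = (2 : ℝ) ^ ((K : ℝ) * s) * ((2 : ℝ) ^ s) ^ j := by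
    intro j
    rw [← Real.rpow_natCast, ← Real.rpow_mul (by norm_num), ← Real.rpow_add (by norm_num)]
    congr 1
    ring
  simp only [h1]
  rw [← Finset.mul_sum]
  have h2 : (2 : ℝ) ^ s ≤ 1 / 4 := by
    calc (2 : ℝ) ^ s ≤ (2 : ℝ) ^ (-2 : ℝ) := Real.rpow_le_rpow_of_exponent_le (by norm_num) hs
      _ = 1 / 4 := by
        rw [show (-2 : ℝ) = ((-2 : ℤ) : ℝ) by norm_num, Real.rpow_intCast]
        norm_num
  have h3 : (0 : ℝ) ≤ (2 : ℝ) ^ s := by positivity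
  have h4 : ∑ j ∈ Finset.Icc j₀ m, ((2 : ℝ) ^ s) ^ j ≤ 2 * ((2 : ℝ) ^ s) ^ j₀ := by
    have h5 : Finset.Icc j₀ m = Finset.Ico j₀ (m + 1) := by
      ext j; simp only [Finset.mem_Icc, Finset.mem_Ico]; omega
    rw [h5]
    refine (geom_sum_Ico_le_of_lt_one h3 (by linarith)).trans ?_
    rw [div_le_iff₀ (by linarith)]
    have h6 : (0 : ℝ) ≤ ((2 : ℝ) ^ s) ^ j₀ := by positivity
    nlinarith
  calc (2 : ℝ) ^ ((K : ℝ) * s) * ∑ j ∈ Finset.Icc j₀ m, ((2 : ℝ) ^ s) ^ j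
      ≤ (2 : ℝ) ^ ((K : ℝ) * s) * (2 * ((2 : ℝ) ^ s) ^ j₀) :=
        mul_le_mul_of_nonneg_left h4 (by positivity)
    _ = _ := by ring

theorem cb9_act {l L : ℕ} (h : l ≤ L) (pr : Cell (L - l) → Equiv.Perm (Cell l)) (x : Cell L) :
    sp h (act h pr x) = (pr (sp h x).2 (sp h x).1, (sp h x).2) := by
  unfold act
  rw [Equiv.permCongr_apply, Equiv.apply_symm_apply]
  rfl

/-- The triple cycle and a permutation with the exact behaviour on deep cells. -/
theorem cb9_moved {l L : ℕ} (h : l ≤ L) (r : ℕ) (d₁ d₂ d₃ : Cell l) (hT : LTri d₁ d₂ d₃)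
    (s : Equiv.Perm (Cell L))
    (h1 : ∀ x, s x ≠ x → cubeOf l x = (fun k => (d₁ k : ℕ)) ∨ cubeOf l x = (fun k => (d₂ k : ℕ)) ∨
      cubeOf l x = (fun k => (d₃ k : ℕ)))
    (h2 : ∀ x, cubeOf l x = (fun k => (d₁ k : ℕ)) → Deep l r x →
        cubeOf l (s x) = (fun k => (d₂ k : ℕ)) ∧
          ∀ k, (s x k : ℕ) % 2 ^ (L - l) = (x k : ℕ) % 2 ^ (L - l))
    (h3 : ∀ x, cubeOf l x = (fun k => (d₂ k : ℕ)) → Deep l r x →
        cubeOf l (s x) = (fun k => (d₃ k : ℕ)) ∧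
          ∀ k, (s x k : ℕ) % 2 ^ (L - l) = (x k : ℕ) % 2 ^ (L - l))
    (h4 : ∀ x, cubeOf l x = (fun k => (d₃ k : ℕ)) → Deep l r x →
        cubeOf l (s x) = (fun k => (d₁ k : ℕ)) ∧
          ∀ k, (s x k : ℕ) % 2 ^ (L - l) = (x k : ℕ) % 2 ^ (L - l))
    (x : Cell L) (hx : (s⁻¹ * cyc h d₁ d₂ d₃) x ≠ x) :
    ((sp h x).1 = d₁ ∨ (sp h x).1 = d₂ ∨ (sp h x).1 = d₃) ∧ ¬ Deep l r x := by
  classical
  obtain ⟨i, j, hij, hi, hj⟩ := hT
  have n12 : d₂ ≠ d₁ := by
    intro h; have := hi.1; rw [h] at this; omega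
  have n13 : d₃ ≠ d₁ := by
    intro h; have := hj.1; rw [h] at this; omega
  have n23 : d₂ ≠ d₃ := by
    intro h
    have h5 := hi.1
    rw [h, hj.2 i hij] at h5
    omega
  have hcube : ∀ (y : Cell L) (d : Cell l), cubeOf l y = (fun k => (d k : ℕ)) ↔ (sp h y).1 = d := by
    intro y d
    constructor
    · intro h5
      funext k
      apply Fin.ext
      exact congrFun h5 k
    · intro h5
      rw [← h5]
      rfl
  have hne : cyc h d₁ d₂ d₃ x ≠ s x := by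
    intro h5
    apply hx
    rw [Equiv.Perm.mul_apply, h5, cb9_ia]
  have hsp : ∀ d, (sp h x).1 = d → sp h (cyc h d₁ d₂ d₃ x) =
      (Equiv.swap d₁ d₂ (Equiv.swap d₂ d₃ d), (sp h x).2) := by
    intro d hd
    unfold cyc
    rw [cb9_act, hd]
    rfl
  have key : ∀ d d', (sp h x).1 = d → Equiv.swap d₁ d₂ (Equiv.swap d₂ d₃ d) = d' →
      cubeOf l (s x) = (fun k => (d' k : ℕ)) →
      (∀ k, (s x k : ℕ) % 2 ^ (L - l) = (x k : ℕ) % 2 ^ (L - l)) → False := by
    intro d d' hd hd' h5 h6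
    apply hne
    apply (sp h).injective
    rw [hsp d hd, hd']
    refine Prod.ext ?_ ?_
    · exact ((hcube _ _).mp h5).symm
    · funext k
      apply Fin.ext
      exact (h6 k).symm
  by_cases hm : (sp h x).1 = d₁ ∨ (sp h x).1 = d₂ ∨ (sp h x).1 = d₃
  · refine ⟨hm, fun hD => ?_⟩
    rcases hm with hm | hm | hm
    · obtain ⟨h5, h6⟩ := h2 x ((hcube _ _).mpr hm) hD
      refine key d₁ d₂ hm ?_ h5 h6
      rw [Equiv.swap_apply_of_ne_of_ne n12.symm n13.symm, Equiv.swap_apply_left]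
    · obtain ⟨h5, h6⟩ := h3 x ((hcube _ _).mpr hm) hD
      refine key d₂ d₃ hm ?_ h5 h6
      rw [Equiv.swap_apply_left, Equiv.swap_apply_of_ne_of_ne n13 n23.symm]
    · obtain ⟨h5, h6⟩ := h4 x ((hcube _ _).mpr hm) hD
      refine key d₃ d₁ hm ?_ h5 h6
      rw [Equiv.swap_apply_right, Equiv.swap_apply_right]
  · exfalso
    push Not at hm
    obtain ⟨m1, m2, m3⟩ := hm
    have hsx : s x = x := by
      by_contra h5
      rcases h1 x h5 with h6 | h6 | h6
      · exact m1 ((hcube _ _).mp h6)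
      · exact m2 ((hcube _ _).mp h6)
      · exact m3 ((hcube _ _).mp h6)
    apply hne
    apply (sp h).injective
    rw [hsp _ rfl, hsx, Equiv.swap_apply_of_ne_of_ne m2 m3, Equiv.swap_apply_of_ne_of_ne m1 m2]

/-- The boundary cubes of the triple. -/
def cb9_U {l K : ℕ} (h1 : l ≤ l + K) (d₁ d₂ d₃ : Cell l) : Set (Cell (l + K)) :=
  {u | InReg h1 d₁ d₂ d₃ u ∧
    ∃ k, ((sp h1 u).2 k : ℕ) < 1 ∨ 2 ^ (l + K - l) ≤ ((sp h1 u).2 k : ℕ) + 1}

open Classical in
theorem cb9_cardU {l K : ℕ} (h1 : l ≤ l + K) (d₁ d₂ d₃ : Cell l) :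
    (Finset.univ.filter (fun u => u ∈ cb9_U h1 d₁ d₂ d₃)).card ≤ 24 * 8 ^ K := by
  have h2 : (Finset.univ.filter (fun u => u ∈ cb9_U h1 d₁ d₂ d₃)).card ≤
      ((({d₁, d₂, d₃} : Finset (Cell l)) ×ˢ (Finset.univ.filter
        (fun r : Fin 4 → Fin (2 ^ (l + K - l)) =>
          ∃ k, (r k : ℕ) < 1 ∨ 2 ^ (l + K - l) ≤ (r k : ℕ) + 1)))).card := by
    refine Finset.card_le_card_of_injOn (sp h1) ?_ ((sp h1).injective.injOn)
    intro u hu
    have hu' : u ∈ cb9_U h1 d₁ d₂ d₃ := by simpa using hu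
    obtain ⟨h3, h4⟩ := hu'
    have h5 : (sp h1 u).1 ∈ ({d₁, d₂, d₃} : Finset (Cell l)) := by
      rcases h3 with h3 | h3 | h3 <;> simp [h3]
    have h6 : (sp h1 u).2 ∈ Finset.univ.filter
        (fun r : Fin 4 → Fin (2 ^ (l + K - l)) =>
          ∃ k, (r k : ℕ) < 1 ∨ 2 ^ (l + K - l) ≤ (r k : ℕ) + 1) := by
      rw [Finset.mem_filter]
      exact ⟨Finset.mem_univ _, h4⟩
    exact Finset.mem_coe.mpr (Finset.mem_product.mpr ⟨h5, h6⟩)
  refine h2.trans ?_
  rw [Finset.card_product]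
  have h3 : (({d₁, d₂, d₃} : Finset (Cell l))).card ≤ 3 := Finset.card_le_three
  have h4 := cb9_cnt (2 ^ (l + K - l)) 1
  refine (Nat.mul_le_mul h3 h4).trans (le_of_eq ?_)
  rw [Nat.add_sub_cancel_left, ← pow_mul, show (8 : ℕ) = 2 ^ 3 by norm_num, ← pow_mul]
  rw [mul_comm K 3]
  ring

theorem cb9_loc {l K κ L : ℕ} (h : l ≤ L) (h1 : l ≤ l + K) (h' : l + K ≤ L) (hκ : K + 4 ≤ κ)
    (d₁ d₂ d₃ : Cell l) (x : Cell L)
    (hx : (sp h x).1 = d₁ ∨ (sp h x).1 = d₂ ∨ (sp h x).1 = d₃)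
    (hD : ¬ Deep l (2 ^ (L - l - κ)) x) :
    (sp h' x).1 ∈ cb9_U h1 d₁ d₂ d₃ ∧
      ∃ k, ((sp h' x).2 k : ℕ) < 2 ^ (L - l - κ) ∨
        2 ^ (L - (l + K)) ≤ ((sp h' x).2 k : ℕ) + 2 ^ (L - l - κ) := by
  have h2 : (sp h1 (sp h' x).1).1 = (sp h x).1 := by
    funext k
    apply Fin.ext
    change (x k : ℕ) / 2 ^ (L - (l + K)) / 2 ^ (l + K - l) = (x k : ℕ) / 2 ^ (L - l)
    rw [Nat.div_div_eq_div_mul, ← pow_add]
    congr 2
    omega
  unfold Deep at hD
  push Not at hD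
  obtain ⟨k, hk⟩ := hD
  have h3 : 2 ^ (L - l) = 2 ^ (L - (l + K)) * 2 ^ (l + K - l) := by
    rw [← pow_add]
    congr 1
    omega
  have h4 : ¬ (2 ^ (L - l - κ) ≤ (x k : ℕ) % (2 ^ (L - (l + K)) * 2 ^ (l + K - l)) ∧
      (x k : ℕ) % (2 ^ (L - (l + K)) * 2 ^ (l + K - l)) + 2 ^ (L - l - κ) <
        2 ^ (L - (l + K)) * 2 ^ (l + K - l)) := by
    rw [← h3]
    rintro ⟨h5, h6⟩
    exact absurd (hk h5) (by omega)
  obtain ⟨h5, h6⟩ := cb9_arith (x k : ℕ) (2 ^ (l + K - l)) (2 ^ (L - (l + K))) (2 ^ (L - l - κ))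
    (by positivity) (by positivity) (Nat.pow_le_pow_right (by norm_num) (by omega)) h4
  refine ⟨⟨?_, k, h6⟩, k, h5⟩
  unfold InReg
  rw [h2]
  exact hx

/-- The final inequality. -/
theorem cb9_ineq (q a : ℝ) (hq : 4 < q) (ha1 : a < 1) (K κ j₀ m : ℕ)
    (_hκ : K + 4 ≤ κ) (hj : κ ≤ 4 * j₀ + K + 3) (N NM : ℕ) (hN : N ≤ NM) (hNM : NM = 24 * 8 ^ K)
    (CF CN A S w l : ℝ) (hCF0 : 0 ≤ CF) (hCF : CF ≤ CN) (hA : 0 ≤ A) (hS : 0 ≤ S) (hw : 0 < w)
    (Aα : ℝ) (hAα : Aα ≤ N * (A * (2 * (2 : ℝ) ^ ((K : ℝ) * (a - q)) * w))) :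
    2 * Aα + 16 * ((N : ℝ) ^ 2 + 3) * ∑ j ∈ Finset.Icc j₀ m,
      (CF * S * (2 : ℝ) ^ ((l + K + j - l) * (1 + a - q)) * w) ≤
    (96 * (2 : ℝ) ^ ((K : ℝ) * (3 + a - q)) * A +
      (32 * ((NM : ℝ) ^ 2 + 3) * CN * (2 : ℝ) ^ ((3 * (K : ℝ) - 3) / 4 * (1 + a - q))) *
      (2 : ℝ) ^ ((κ : ℝ) * ((1 + a - q) / 4)) * S) * w := by
  have hN' : (N : ℝ) ≤ NM := by exact_mod_cast hN
  have h8 : (8 : ℝ) ^ K = (2 : ℝ) ^ ((K : ℝ) * 3) := by
    rw [mul_comm, Real.rpow_mul (by norm_num), Real.rpow_natCast]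
    norm_num
  have e1 : 2 * Aα ≤ 96 * (2 : ℝ) ^ ((K : ℝ) * (3 + a - q)) * A * w := by
    have h1 : (2 : ℝ) ^ ((K : ℝ) * (3 + a - q)) = (8 : ℝ) ^ K * (2 : ℝ) ^ ((K : ℝ) * (a - q)) := by
      rw [h8, ← Real.rpow_add (by norm_num)]
      congr 1
      ring
    have h2 : (N : ℝ) * (A * (2 * (2 : ℝ) ^ ((K : ℝ) * (a - q)) * w)) ≤
        (24 * 8 ^ K) * (A * (2 * (2 : ℝ) ^ ((K : ℝ) * (a - q)) * w)) := by
      refine mul_le_mul_of_nonneg_right ?_ (by positivity)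
      rw [hNM] at hN'
      push_cast at hN'
      exact hN'
    calc 2 * Aα ≤ 2 * ((24 * 8 ^ K) * (A * (2 * (2 : ℝ) ^ ((K : ℝ) * (a - q)) * w))) := by
          linarith
      _ = _ := by rw [h1]; ring
  set s := 1 + a - q with hs
  have hs2 : s ≤ -2 := by rw [hs]; linarith
  have e2 : ∑ j ∈ Finset.Icc j₀ m, (CF * S * (2 : ℝ) ^ ((l + K + j - l) * s) * w) ≤
      CN * S * w * (2 * (2 : ℝ) ^ (((K : ℝ) + j₀) * s)) := by
    have h1 : ∀ j : ℕ, (CF * S * (2 : ℝ) ^ ((l + K + j - l) * s) * w) =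
        (CF * S * w) * (2 : ℝ) ^ (((K : ℝ) + j) * s) := by
      intro j
      rw [show l + (K : ℝ) + j - l = (K : ℝ) + j by ring]
      ring
    simp only [h1]
    rw [← Finset.mul_sum]
    have h2 := cb9_geo s hs2 K j₀ m
    have h3 : CF * S * w ≤ CN * S * w :=
      mul_le_mul_of_nonneg_right (mul_le_mul_of_nonneg_right hCF hS) hw.le
    refine mul_le_mul h3 h2 (Finset.sum_nonneg fun j _ => by positivity) ?_
    have : 0 ≤ CN := hCF0.trans hCF
    positivity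
  have e3 : (2 : ℝ) ^ (((K : ℝ) + j₀) * s) ≤
      (2 : ℝ) ^ ((3 * (K : ℝ) - 3) / 4 * s) * (2 : ℝ) ^ ((κ : ℝ) * (s / 4)) := by
    rw [← Real.rpow_add (by norm_num)]
    refine Real.rpow_le_rpow_of_exponent_le (by norm_num) ?_
    have h1 : (κ : ℝ) ≤ 4 * j₀ + K + 3 := by exact_mod_cast hj
    nlinarith
  have hCN : 0 ≤ CN := hCF0.trans hCF
  have e4 : ∑ j ∈ Finset.Icc j₀ m, (CF * S * (2 : ℝ) ^ ((l + K + j - l) * s) * w) ≤
      CN * S * w * (2 * ((2 : ℝ) ^ ((3 * (K : ℝ) - 3) / 4 * s) *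
        (2 : ℝ) ^ ((κ : ℝ) * (s / 4)))) := by
    refine e2.trans (mul_le_mul_of_nonneg_left (by linarith) (by positivity))
  have e5 : (N : ℝ) ^ 2 + 3 ≤ (NM : ℝ) ^ 2 + 3 := by
    have : (N : ℝ) ^ 2 ≤ (NM : ℝ) ^ 2 := pow_le_pow_left₀ (Nat.cast_nonneg _) hN' 2
    linarith
  have e6 : 16 * ((N : ℝ) ^ 2 + 3) * ∑ j ∈ Finset.Icc j₀ m,
      (CF * S * (2 : ℝ) ^ ((l + K + j - l) * s) * w) ≤
      16 * ((NM : ℝ) ^ 2 + 3) * (CN * S * w * (2 * ((2 : ℝ) ^ ((3 * (K : ℝ) - 3) / 4 * s) *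
        (2 : ℝ) ^ ((κ : ℝ) * (s / 4))))) := by
    refine mul_le_mul (by linarith) e4 (Finset.sum_nonneg fun j _ => by positivity) (by positivity)
  calc _ ≤ 96 * (2 : ℝ) ^ ((K : ℝ) * (3 + a - q)) * A * w +
      16 * ((NM : ℝ) ^ 2 + 3) * (CN * S * w * (2 * ((2 : ℝ) ^ ((3 * (K : ℝ) - 3) / 4 * s) *
        (2 : ℝ) ^ ((κ : ℝ) * (s / 4))))) := add_le_add e1 e6
    _ = _ := by ring

theorem cb_stepT (hW : CBW) (hM : CBMix) (hF : CBFam) : CBStepT := by
  classical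
  intro q a hq ha0 ha1
  refine ⟨96, by norm_num, ?_⟩
  intro K
  choose CF hCF0 hCF using hF
  set NM : ℕ := 24 * 8 ^ K with hNM
  set CN : ℝ := ∑ N ∈ Finset.range (NM + 1), CF N with hCN
  have hCN0 : 0 ≤ CN := Finset.sum_nonneg (fun N _ => hCF0 N)
  have hle : ∀ N ≤ NM, CF N ≤ CN := fun N hN =>
    Finset.single_le_sum (f := CF) (fun N _ => hCF0 N) (Finset.mem_range.mpr (by omega))
  refine ⟨32 * ((NM : ℝ) ^ 2 + 3) * CN * (2 : ℝ) ^ ((3 * (K : ℝ) - 3) / 4 * (1 + a - q)),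
    by positivity, ?_⟩
  intro κ hκ C0 Ck L P hP l A S hL hA hS hSA hSS h d₁ d₂ d₃ hT
  have hPK : PK P := ⟨hP.one, hP.mono, hP.mul, hP.inv⟩
  have h1 : l ≤ l + K := Nat.le_add_right _ _
  have h' : l + K ≤ L := by omega
  obtain ⟨i, j, hij, hi, hj⟩ := id hT
  obtain ⟨s, hs0, hs1, hs2, hs3, hs4⟩ := hP.tri κ l hL (fun k => (d₁ k : ℕ))
    (fun k => (d₂ k : ℕ)) (fun k => (d₃ k : ℕ)) i j hij
    (fun k => ⟨(d₁ k).isLt, (d₂ k).isLt, (d₃ k).isLt⟩)
    ⟨hi.1, fun m hm => by simp only [hi.2 m hm]⟩ ⟨hj.1, fun m hm => by simp only [hj.2 m hm]⟩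
  set δ : Equiv.Perm (Cell L) := s⁻¹ * cyc h d₁ d₂ d₃ with hδ
  have hmov : ∀ x, δ x ≠ x → (sp h' x).1 ∈ cb9_U h1 d₁ d₂ d₃ ∧
      ∃ k, ((sp h' x).2 k : ℕ) < 2 ^ (L - l - κ) ∨
        2 ^ (L - (l + K)) ≤ ((sp h' x).2 k : ℕ) + 2 ^ (L - l - κ) := by
    intro x hx
    obtain ⟨h2, h3⟩ := cb9_moved h (2 ^ (L - l - κ)) d₁ d₂ d₃ hT s hs1 hs2 hs3 hs4 x hx
    exact cb9_loc h h1 h' hκ d₁ d₂ d₃ x h2 h3
  set U : Finset (Cell (l + K)) := Finset.univ.filter (fun u => u ∈ cb9_U h1 d₁ d₂ d₃) with hU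
  have hmU : ∀ u, u ∈ U ↔ u ∈ cb9_U h1 d₁ d₂ d₃ := by
    intro u; simp [hU]
  have hUc : U.card ≤ NM := cb9_cardU h1 d₁ d₂ d₃
  let D : Fin U.card ↪ Cell (l + K) :=
    U.equivFin.symm.toEmbedding.trans (Function.Embedding.subtype _)
  have hDU : ∀ i, D i ∈ U := fun i => (U.equivFin.symm i).2
  have hDs : ∀ u ∈ U, ∃ i, D i = u := fun u hu => ⟨U.equivFin ⟨u, hu⟩, by simp [D]⟩
  have hDR : ∀ i, InReg h1 d₁ d₂ d₃ (D i) := fun i => ((hmU _).mp (hDU i)).1
  let e : Fin U.card × Cell (L - (l + K)) ↪ Cell L :=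
    ⟨fun z => (sp h').symm (D z.1, z.2), by
      intro z w hzw
      have h2 := (sp h').symm.injective hzw
      rw [Prod.mk.injEq] at h2
      exact Prod.ext (D.injective h2.1) h2.2⟩
  have he : ∀ z, e z = (sp h').symm (D z.1, z.2) := fun z => rfl
  have hspe : ∀ z, sp h' (e z) = (D z.1, z.2) := by
    intro z
    rw [he, Equiv.apply_symm_apply]
  have hran : ∀ x, δ x ≠ x → x ∈ Set.range e := by
    intro x hx
    obtain ⟨i, hi⟩ := hDs _ ((hmU _).mpr (hmov x hx).1)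
    refine ⟨(i, (sp h' x).2), ?_⟩
    rw [he]
    simp only [hi, Prod.mk.eta, Equiv.symm_apply_apply]
  obtain ⟨σ, hσ1, hσ2⟩ := cb9_via e δ hran
  have hwv := hW.pos q a l d₁
  set j₀ : ℕ := (κ - K) / 4 with hj₀
  have hmix := hM (Cell L) P hPK U.card (L - (l + K)) e
    (fun j => CF U.card * S * (2 : ℝ) ^ ((((l + K : ℕ) : ℝ) + j - l) * (1 + a - q)) * wv q a d₁)
    (∑ i : Fin U.card, A * wv q a (D i))
    (fun j => by have := hCF0 U.card; positivity)
    (fun j hj ρ π => hCF U.card q a hq ha0 ha1 L P hPK l (l + K) h1 h' j (by omega) S hS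
      (hSS (l + K + j) (by omega) (by omega)) d₁ d₂ d₃ (Or.inl hT) D hDR e he ρ π)
    (fun α hα => cb9_fib P hPK e (fun i => A * wv q a (D i)) (by
      intro i β hβ
      refine hSA h' (D i) _ ?_
      intro x hx
      by_cases hxr : x ∈ Set.range e
      · obtain ⟨z, rfl⟩ := hxr
        rw [Equiv.Perm.viaEmbedding_apply] at hx
        have h2 : z.1 = i := hβ z (fun h3 => hx (by rw [h3]))
        rw [hspe, h2]
      · exact absurd (Equiv.Perm.viaEmbedding_apply_of_notMem _ _ _ hxr) hx)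
      Finset.univ α hα (fun z hz => absurd (Finset.mem_univ _) hz))
    σ j₀ (8 * 2 ^ (L - l - κ) * (2 ^ (L - (l + K))) ^ 3)
    (by
      intro i
      refine (Finset.card_le_card ?_).trans (cb9_cnt (2 ^ (L - (l + K))) (2 ^ (L - l - κ)))
      intro r hr
      rw [Finset.mem_filter] at hr ⊢
      refine ⟨Finset.mem_univ _, ?_⟩
      have h2 : σ (i, r) ≠ (i, r) := fun h3 => hr.2 (by rw [h3])
      have h3 : δ (e (i, r)) ≠ e (i, r) := by
        rw [← hσ2]
        exact fun h4 => h2 (e.injective h4)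
      have h4 := (hmov _ h3).2
      rw [hspe] at h4
      exact h4)
    (by
      rw [show 8 = 2 ^ 3 by norm_num, ← pow_mul, ← pow_add, ← pow_add,
        show 16 = 2 ^ 4 by norm_num, ← pow_mul]
      exact Nat.pow_le_pow_right (by norm_num) (by omega))
    (by
      intro j hj
      rw [show 8 = 2 ^ 3 by norm_num, ← pow_mul, ← pow_add, ← pow_add,
        show 16 = 2 ^ 4 by norm_num, ← pow_mul]
      exact Nat.pow_lt_pow_right (by norm_num) (by omega))
  rw [hσ1] at hmix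
  have hAα : ∑ i : Fin U.card, A * wv q a (D i) ≤
      (U.card : ℝ) * (A * (2 * (2 : ℝ) ^ ((K : ℝ) * (a - q)) * wv q a d₁)) := by
    refine (Finset.sum_le_sum (fun i _ => mul_le_mul_of_nonneg_left
      (cb9_wv hW q a ha0 ha1 l K d₁ d₂ d₃ hT h1 (D i) (hDR i)) hA)).trans (le_of_eq ?_)
    rw [Finset.sum_const, Finset.card_univ, Fintype.card_fin, nsmul_eq_mul]
  have hineq := cb9_ineq q a hq ha1 K κ j₀ (L - (l + K)) hκ (by omega) U.card NM hUc hNM
    (CF U.card) CN A S (wv q a d₁) l (hCF0 _) (hle _ hUc) hA hS hwv _ hAα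
  have hC : cyc h d₁ d₂ d₃ = s * δ := by rw [hδ]; group
  rw [hC]
  refine hP.mono _ _ _ ?_ (hP.mul _ _ _ _ hs0 hmix)
  have h2 : Ck κ * wt a l (fun k => (d₁ k : ℕ)) * (2 ^ l : ℝ) ^ (-q) = Ck κ * wv q a d₁ := by
    unfold wv; ring
  rw [h2]
  push_cast at hineq ⊢
  calc _ ≤ Ck κ * wv q a d₁ + _ := add_le_add le_rfl hineq
    _ = _ := by ring

end

end Pool.Agent.H6.ST
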