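import Pool.Agent.H6.ST.CB.Defs

/-! # ST-CB6: exchange of two cubes of a region -/

namespace Pool.Agent.H6.ST

open Set
open scoped ENNReal ContDiff

noncomputable section

private theorem cb6_act_mul {l L : ℕ} (h : l ≤ L) (p p' : Cell (L - l) → Equiv.Perm (Cell l)) :
    act h (fun r => p r * p' r) = act h p * act h p' := by
  have h1 : fib (fun r => p r * p' r) = fib p * fib p' := by
    ext1 z
    rfl
  unfold act
  rw [h1]
  ext1 x
  simp [Equiv.permCongr_apply]

private theorem cb6_xch_self {l L : ℕ} (h : l ≤ L) (d : Cell l) : xch h d d = 1 := by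
  classical
  unfold xch act
  have h1 : fib (fun _ : Cell (L - l) => Equiv.swap d d) = 1 := by
    ext1 z
    show ((Equiv.swap d d) z.1, z.2) = z
    rw [Equiv.swap_self]
    rfl
  rw [h1]
  ext1 x
  simp [Equiv.permCongr_apply]

private theorem cb6_xch_comm {l L : ℕ} (h : l ≤ L) (d e : Cell l) : xch h d e = xch h e d := by
  classical
  unfold xch
  rw [Equiv.swap_comm]

private theorem cb6_xch_conj {l L : ℕ} (h : l ≤ L) (x y z : Cell l) (h1 : z ≠ y) (h2 : z ≠ x) :
    xch h x z = xch h y x * (xch h z y * xch h y x) := by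
  classical
  unfold xch
  rw [← cb6_act_mul, ← cb6_act_mul]
  congr 1
  funext r
  rw [← mul_assoc]
  exact (Equiv.swap_mul_swap_mul_swap h1 h2).symm

/-- chains of length `r` -/
private def cb6_Chn {α : Type} (R : α → α → Prop) : ℕ → α → α → Prop
  | 0, x, z => x = z
  | r + 1, x, z => ∃ y, R x y ∧ cb6_Chn R r y z

private theorem cb6_trans {α : Type} (R : α → α → Prop) (s : ℕ) (y z : α)
    (h : cb6_Chn R s y z) : ∀ (r : ℕ) (x : α), cb6_Chn R r x y → cb6_Chn R (r + s) x z := by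
  intro r
  induction r with
  | zero =>
    intro x hx
    have hx' : x = y := hx
    rw [hx', Nat.zero_add]
    exact h
  | succ r ih =>
    intro x hx
    obtain ⟨w, h1, h2⟩ := hx
    have h3 : r + 1 + s = (r + s) + 1 := by omega
    rw [h3]
    exact ⟨w, h1, ih w h2⟩

private theorem cb6_cost {l L : ℕ} (h : l ≤ L) (P : Equiv.Perm (Cell L) → ℝ → Prop) (hP : PK P)
    (R : Cell l → Cell l → Prop) (M : ℝ) (hM : 0 ≤ M) (hR : ∀ x y, R x y → P (xch h x y) M) :
    ∀ (r : ℕ) (x z : Cell l), cb6_Chn R r x z → P (xch h x z) (2 * (r : ℝ) * M) := by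
  intro r
  induction r with
  | zero =>
    intro x z hx
    have hx' : x = z := hx
    rw [hx', cb6_xch_self]
    exact hP.mono _ _ _ (by simp) hP.one
  | succ r ih =>
    intro x z hx
    obtain ⟨y, h1, h2⟩ := hx
    have h3 := ih y z h2
    have h4 := hR x y h1
    have hr : (0 : ℝ) ≤ r := Nat.cast_nonneg r
    have hrM : 0 ≤ (r : ℝ) * M := mul_nonneg hr hM
    push_cast
    by_cases hzx : z = x
    · rw [hzx, cb6_xch_self]
      exact hP.mono _ _ _ (by nlinarith) hP.one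
    by_cases hzy : z = y
    · rw [hzy]
      exact hP.mono _ _ _ (by nlinarith) h4
    rw [cb6_xch_conj h x y z hzy hzx]
    have h5 : P (xch h y x) M := by rw [cb6_xch_comm]; exact h4
    have h6 : P (xch h z y) (2 * (r : ℝ) * M) := by rw [cb6_xch_comm]; exact h3
    exact hP.mono _ _ _ (by nlinarith) (hP.mul _ _ _ _ h5 (hP.mul _ _ _ _ h6 h5))

/-- a box is connected -/
private theorem cb6_box {l : ℕ} (lo hi : Fin 4 → ℕ) (Q : Cell l → Prop)
    (hQ : ∀ c : Cell l, (∀ k, lo k ≤ (c k : ℕ) ∧ (c k : ℕ) < hi k) → Q c) :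
    ∀ (n : ℕ) (b b' : Cell l), (∀ k, lo k ≤ (b k : ℕ) ∧ (b k : ℕ) < hi k) →
      (∀ k, lo k ≤ (b' k : ℕ) ∧ (b' k : ℕ) < hi k) →
      ∑ k, (((b k : ℕ) - b' k) + ((b' k : ℕ) - b k)) = n →
      cb6_Chn (fun c e => (∃ i, Nbr i c e) ∧ Q c ∧ Q e) n b b' := by
  classical
  intro n
  induction n with
  | zero =>
    intro b b' _ _ hn
    rw [Finset.sum_eq_zero_iff] at hn
    show b = b'
    funext k
    have := hn k (Finset.mem_univ k)
    apply Fin.ext
    omega
  | succ n ih =>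
    intro b b' hb hb' hn
    obtain ⟨k, hk⟩ : ∃ k, (b k : ℕ) ≠ b' k := by
      by_contra hcon
      push Not at hcon
      have : ∑ k, (((b k : ℕ) - b' k) + ((b' k : ℕ) - b k)) = 0 := by
        apply Finset.sum_eq_zero
        intro k _
        rw [hcon k]
        omega
      omega
    -- one step in the direction `k`
    have hstep : ∃ v : Fin (2 ^ l), ((v : ℕ) = b k + 1 ∨ (v : ℕ) + 1 = b k) ∧
        (lo k ≤ (v : ℕ) ∧ (v : ℕ) < hi k) ∧
        ((v : ℕ) - b' k) + ((b' k : ℕ) - v) + 1 = ((b k : ℕ) - b' k) + ((b' k : ℕ) - b k) := by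
      have h1 := hb k
      have h2 := hb' k
      have h3 := (b' k).isLt
      have h4 := (b k).isLt
      rcases Nat.lt_or_gt_of_ne hk with h | h
      · refine ⟨⟨b k + 1, by omega⟩, Or.inl rfl, ⟨?_, ?_⟩, ?_⟩ <;> simp only <;> omega
      · refine ⟨⟨b k - 1, by omega⟩, Or.inr ?_, ⟨?_, ?_⟩, ?_⟩ <;> simp only <;> omega
    obtain ⟨v, hv1, hv2, hv3⟩ := hstep
    have he : ∀ m, lo m ≤ ((Function.update b k v m : Fin (2 ^ l)) : ℕ) ∧
        ((Function.update b k v m : Fin (2 ^ l)) : ℕ) < hi m := by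
      intro m
      by_cases hm : m = k
      · subst hm
        rw [Function.update_self]
        exact hv2
      · rw [Function.update_of_ne hm]
        exact hb m
    refine ⟨Function.update b k v, ⟨⟨k, ?_, ?_⟩, hQ b hb, hQ _ he⟩, ih _ b' he hb' ?_⟩
    · rw [Function.update_self]
      exact hv1
    · intro m hm
      rw [Function.update_of_ne hm]
    · rw [← Finset.add_sum_erase _ _ (Finset.mem_univ k)] at hn ⊢
      have h1 : ∑ x ∈ Finset.univ.erase k,
          ((((Function.update b k v x : Fin (2 ^ l)) : ℕ) - b' x) +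
            ((b' x : ℕ) - ((Function.update b k v x : Fin (2 ^ l)) : ℕ))) =
          ∑ x ∈ Finset.univ.erase k, (((b x : ℕ) - b' x) + ((b' x : ℕ) - b x)) := by
        apply Finset.sum_congr rfl
        intro x hx
        rw [Function.update_of_ne (Finset.ne_of_mem_erase hx)]
      rw [h1, Function.update_self]
      omega

/-- every cube of a region is connected with the corner of the first cube -/
private theorem cb6_leg {l l' : ℕ} (h : l ≤ l') (d₁ d₂ d₃ u : Cell l)
    (hu : u = d₁ ∨ ∃ i, Nbr i d₁ u) (hu' : u = d₁ ∨ u = d₂ ∨ u = d₃) (b c : Cell l')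
    (hb : (sp h b).1 = u) (hc : (sp h c).1 = d₁) :
    ∃ r, r ≤ 8 * 2 ^ (l' - l) ∧
      cb6_Chn (fun c e => (∃ i, Nbr i c e) ∧ InReg h d₁ d₂ d₃ c ∧ InReg h d₁ d₂ d₃ e) r b c := by
  classical
  obtain ⟨D, hD⟩ : ∃ D, D = 2 ^ (l' - l) := ⟨_, rfl⟩
  have hD0 : 0 < D := by rw [hD]; positivity
  have hsp : ∀ (c : Cell l') (k : Fin 4), ((sp h c).1 k : ℕ) = (c k : ℕ) / D := by
    intro c k
    rw [hD]
    rfl
  have hnear : ∀ k, ((u k : ℕ) ≤ d₁ k + 1 ∧ (d₁ k : ℕ) ≤ u k + 1) := by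
    intro k
    rcases hu with rfl | ⟨i, h1, h2⟩
    · omega
    · by_cases hk : k = i
      · subst hk; omega
      · rw [h2 k hk]; omega
  have hin : ∀ (c : Cell l') (v : Cell l), (sp h c).1 = v →
      ∀ k, (v k : ℕ) * D ≤ (c k : ℕ) ∧ (c k : ℕ) < ((v k : ℕ) + 1) * D := by
    intro c v hv k
    have h1 : (c k : ℕ) / D = v k := by rw [← hsp, hv]
    rw [← h1]
    constructor
    · exact Nat.div_mul_le_self _ _
    · rw [Nat.add_mul, Nat.one_mul]
      exact Nat.lt_div_mul_add hD0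
  have hboxb := hin b u hb
  have hboxc := hin c d₁ hc
  obtain ⟨n, hn⟩ : ∃ n, ∑ k, (((b k : ℕ) - c k) + ((c k : ℕ) - b k)) = n := ⟨_, rfl⟩
  refine ⟨n, ?_, ?_⟩
  · rw [← hn]
    have hk : ∀ k ∈ (Finset.univ : Finset (Fin 4)),
        (((b k : ℕ) - c k) + ((c k : ℕ) - b k)) ≤ 2 * D := by
      intro k _
      have h1 := hboxb k
      have h2 := hboxc k
      have h3 := hnear k
      have h4 : (u k : ℕ) * D ≤ ((d₁ k : ℕ) + 1) * D := Nat.mul_le_mul_right _ h3.1
      have h5 : (d₁ k : ℕ) * D ≤ ((u k : ℕ) + 1) * D := Nat.mul_le_mul_right _ h3.2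
      rw [Nat.add_mul, Nat.one_mul] at h1 h2 h4 h5
      omega
    calc ∑ k, (((b k : ℕ) - c k) + ((c k : ℕ) - b k)) ≤ ∑ _k : Fin 4, 2 * D :=
          Finset.sum_le_sum hk
      _ = 8 * 2 ^ (l' - l) := by
          rw [Finset.sum_const, Finset.card_univ, Fintype.card_fin, smul_eq_mul, ← hD]; ring
  · refine cb6_box (fun k => min (u k : ℕ) (d₁ k) * D) (fun k => (max (u k : ℕ) (d₁ k) + 1) * D)
      _ ?_ n b c ?_ ?_ hn
    · intro e he
      have hblk : ∀ k, ((sp h e).1 k : ℕ) = u k ∨ ((sp h e).1 k : ℕ) = d₁ k := by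
        intro k
        rw [hsp]
        obtain ⟨h1, h2⟩ := he k
        have h3 := hnear k
        have h4 : min (u k : ℕ) (d₁ k) ≤ (e k : ℕ) / D := (Nat.le_div_iff_mul_le hD0).mpr h1
        have h5 : (e k : ℕ) / D < max (u k : ℕ) (d₁ k) + 1 := (Nat.div_lt_iff_lt_mul hD0).mpr h2
        omega
      have : (sp h e).1 = u ∨ (sp h e).1 = d₁ := by
        rcases hu with rfl | ⟨i, h1, h2⟩
        · left
          funext k
          apply Fin.ext
          rcases hblk k with h | h <;> exact h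
        · rcases hblk i with h | h
          · left
            funext k
            apply Fin.ext
            by_cases hk : k = i
            · subst hk; exact h
            · rcases hblk k with h' | h'
              · exact h'
              · rw [h', h2 k hk]
          · right
            funext k
            apply Fin.ext
            by_cases hk : k = i
            · subst hk; exact h
            · rcases hblk k with h' | h'
              · rw [h', h2 k hk]
              · exact h'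
      rcases this with h1 | h1
      · unfold InReg
        rcases hu' with h2 | h2 | h2
        · left; rw [h1, h2]
        · right; left; rw [h1, h2]
        · right; right; rw [h1, h2]
      · exact Or.inl h1
    · intro k
      have h1 := hboxb k
      constructor
      · exact (Nat.mul_le_mul_right _ (min_le_left _ _)).trans h1.1
      · exact lt_of_lt_of_le h1.2 (Nat.mul_le_mul_right _ (Nat.add_le_add_right (le_max_left _ _) 1))
    · intro k
      have h1 := hboxc k
      constructor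
      · exact (Nat.mul_le_mul_right _ (min_le_right _ _)).trans h1.1
      · exact lt_of_lt_of_le h1.2
          (Nat.mul_le_mul_right _ (Nat.add_le_add_right (le_max_right _ _) 1))

private theorem cb6_symm {α : Type} (R : α → α → Prop) (hR : ∀ x y, R x y → R y x) :
    ∀ (r : ℕ) (x z : α), cb6_Chn R r x z → cb6_Chn R r z x := by
  intro r
  induction r with
  | zero =>
    intro x z h
    exact Eq.symm h
  | succ r ih =>
    intro x z h
    obtain ⟨y, h1, h2⟩ := h
    exact cb6_trans R 1 y x ⟨x, hR _ _ h1, rfl⟩ r z (ih y z h2)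

theorem cb_chain (hW : CBW) : CBChain := by
  intro q a hq ha0 ha1 L P hP l l' h h' S hS hSS d₁ d₂ d₃ hreg b b' hb hb'
  classical
  -- the cubes of the region are the first cube or neighbours
  have hnb : ∀ u : Cell l, (u = d₁ ∨ u = d₂ ∨ u = d₃) → (u = d₁ ∨ ∃ i, Nbr i d₁ u) := by
    intro u hu
    rcases hreg with ⟨i, j, hij, h1, h2⟩ | ⟨h1, h2⟩
    · rcases hu with rfl | rfl | rfl
      · exact Or.inl rfl
      · exact Or.inr ⟨i, h1⟩
      · exact Or.inr ⟨j, h2⟩
    · rcases hu with h | h | h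
      · exact Or.inl h
      · exact Or.inl (h.trans h1)
      · exact Or.inl (h.trans h2)
  have hwt0 : ∀ (m : ℕ) (c : Cell m), 0 ≤ wt a m (fun k => (c k : ℕ)) := by
    intro m c
    have h1 := hW.pos q a m c
    unfold wv at h1
    have h2 : (0 : ℝ) < (2 ^ m : ℝ) ^ (-q) := Real.rpow_pos_of_pos (by positivity) _
    exact (pos_of_mul_pos_left h1 h2.le).le
  obtain ⟨V, hV⟩ : ∃ V : ℝ, V = 2 * ((2 : ℝ) ^ (((l' : ℝ) - l) * a) *
      wt a l (fun k => (d₁ k : ℕ))) * (2 ^ l' : ℝ) ^ (-q) := ⟨_, rfl⟩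
  have hp0 : (0 : ℝ) < (2 ^ l' : ℝ) ^ (-q) := Real.rpow_pos_of_pos (by positivity) _
  have hp1 : (0 : ℝ) < (2 : ℝ) ^ (((l' : ℝ) - l) * a) := Real.rpow_pos_of_pos (by norm_num) _
  have hV0 : 0 ≤ V := by
    rw [hV]
    have := hwt0 l d₁
    positivity
  have hwv : ∀ c : Cell l', InReg h d₁ d₂ d₃ c → wv q a c ≤ V := by
    intro c hc
    have h1 := hW.anc a ha0 ha1 l l' h c
    have h2 : wt a l (fun k => ((sp h c).1 k : ℕ)) ≤ 2 * wt a l (fun k => (d₁ k : ℕ)) := by
      rcases hnb _ hc with h3 | ⟨i, h3⟩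
      · rw [h3]
        linarith [hwt0 l d₁]
      · exact hW.nbr a ha0 ha1 l i d₁ _ h3
    unfold wv
    rw [hV]
    refine mul_le_mul_of_nonneg_right (h1.trans ?_) hp0.le
    nlinarith
  -- the cost of one step
  have hstep : ∀ x y : Cell l', ((∃ i, Nbr i x y) ∧ InReg h d₁ d₂ d₃ x ∧ InReg h d₁ d₂ d₃ y) →
      P (xch h' x y) (S * V) := by
    rintro x y ⟨⟨i, h1, h2⟩, hx, hy⟩
    rcases h1 with h1 | h1
    · exact hP.mono _ _ _ (mul_le_mul_of_nonneg_left (hwv x hx) hS)
        (hSS h' x y ⟨i, h1, h2⟩)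
    · rw [cb6_xch_comm]
      exact hP.mono _ _ _ (mul_le_mul_of_nonneg_left (hwv y hy) hS)
        (hSS h' y x ⟨i, h1.symm, fun m hm => (h2 m hm).symm⟩)
  -- the corner of the first cube
  let c : Cell l' := (sp h).symm (d₁, fun _ => ⟨0, by positivity⟩)
  have hc : (sp h c).1 = d₁ := by
    show (sp h ((sp h).symm _)).1 = d₁
    rw [Equiv.apply_symm_apply]
  obtain ⟨r, hr, hchr⟩ := cb6_leg h d₁ d₂ d₃ _ (hnb _ hb) hb b c rfl hc
  obtain ⟨s, hs, hchs⟩ := cb6_leg h d₁ d₂ d₃ _ (hnb _ hb') hb' b' c rfl hc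
  have hchs' := cb6_symm _ (fun x y hxy => by
    obtain ⟨⟨i, h1, h2⟩, hx, hy⟩ := hxy
    exact ⟨⟨i, h1.symm.imp (fun h => by omega) (fun h => by omega),
      fun m hm => (h2 m hm).symm⟩, hy, hx⟩) s b' c hchs
  have hch := cb6_trans _ s c b' hchs' r b hchr
  have hcost := cb6_cost h' P hP _ (S * V) (mul_nonneg hS hV0) hstep (r + s) b b' hch
  refine hP.mono _ _ _ ?_ hcost
  have hrs : ((r + s : ℕ) : ℝ) ≤ 16 * (2 : ℝ) ^ (l' - l) := by
    have : r + s ≤ 16 * 2 ^ (l' - l) := by omega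
    exact_mod_cast this
  have hSV : 0 ≤ S * V := mul_nonneg hS hV0
  have e1 : (2 : ℝ) ^ (l' - l) = (2 : ℝ) ^ ((l' : ℝ) - l) := by
    rw [← Real.rpow_natCast, Nat.cast_sub h]
  have e2 : (2 ^ l' : ℝ) ^ (-q) = (2 : ℝ) ^ (-((l' : ℝ) * q)) := by
    rw [← Real.rpow_natCast 2 l', ← Real.rpow_mul (by norm_num)]
    congr 1; ring
  have e3 : (2 ^ l : ℝ) ^ (-q) = (2 : ℝ) ^ (-((l : ℝ) * q)) := by
    rw [← Real.rpow_natCast 2 l, ← Real.rpow_mul (by norm_num)]
    congr 1; ring
  have e4 : (2 : ℝ) ^ ((l' : ℝ) - l) * (2 : ℝ) ^ (((l' : ℝ) - l) * a) *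
      (2 : ℝ) ^ (-((l' : ℝ) * q)) =
      (2 : ℝ) ^ (((l' : ℝ) - l) * (1 + a - q)) * (2 : ℝ) ^ (-((l : ℝ) * q)) := by
    rw [← Real.rpow_add (by norm_num), ← Real.rpow_add (by norm_num),
      ← Real.rpow_add (by norm_num)]
    congr 1; ring
  calc 2 * ((r + s : ℕ) : ℝ) * (S * V) ≤ 2 * (16 * (2 : ℝ) ^ (l' - l)) * (S * V) := by
        apply mul_le_mul_of_nonneg_right _ hSV
        linarith
    _ = 64 * S * ((2 : ℝ) ^ ((l' : ℝ) - l) * (2 : ℝ) ^ (((l' : ℝ) - l) * a) *
          (2 : ℝ) ^ (-((l' : ℝ) * q))) * wt a l (fun k => (d₁ k : ℕ)) := by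
        rw [hV, e1, e2]; ring
    _ = 64 * S * (2 : ℝ) ^ (((l' : ℝ) - l) * (1 + a - q)) * wv q a d₁ := by
        rw [e4, wv, e3]; ring

end

end Pool.Agent.H6.ST
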