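import Pool.Agent.H6.ST.St

/-! # The sharp trichotomy (ST): combinatorics, definitions and statements -/

namespace Pool.Agent.H6.ST

open Set
open scoped ENNReal ContDiff

noncomputable section

open Classical in
/-- A cell of level `L` is a cube of level `l` and a relative position in this cube. -/
def sp {l L : ℕ} (h : l ≤ L) : Cell L ≃ Cell l × Cell (L - l) where
  toFun x := (fun k => ⟨(x k : ℕ) / 2 ^ (L - l), by
      rw [Nat.div_lt_iff_lt_mul (by positivity), ← pow_add, Nat.add_sub_cancel' h]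
      exact (x k).isLt⟩,
    fun k => ⟨(x k : ℕ) % 2 ^ (L - l), Nat.mod_lt _ (by positivity)⟩)
  invFun z := fun k => ⟨(z.1 k : ℕ) * 2 ^ (L - l) + (z.2 k : ℕ), by
      have h1 := (z.1 k).isLt
      have h2 := (z.2 k).isLt
      calc (z.1 k : ℕ) * 2 ^ (L - l) + (z.2 k : ℕ) < (z.1 k : ℕ) * 2 ^ (L - l) + 2 ^ (L - l) := by
            omega
        _ = ((z.1 k : ℕ) + 1) * 2 ^ (L - l) := by ring
        _ ≤ 2 ^ l * 2 ^ (L - l) := Nat.mul_le_mul_right _ h1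
        _ = 2 ^ L := by rw [← pow_add, Nat.add_sub_cancel' h]⟩
  left_inv x := by
    funext k; apply Fin.ext; exact Nat.div_add_mod' _ _
  right_inv z := by
    refine Prod.ext (funext fun k => Fin.ext ?_) (funext fun k => Fin.ext ?_)
    · simp only
      rw [Nat.mul_comm, Nat.mul_add_div (by positivity), Nat.div_eq_of_lt (z.2 k).isLt, Nat.add_zero]
    · simp only
      rw [Nat.mul_comm, Nat.mul_add_mod, Nat.mod_eq_of_lt (z.2 k).isLt]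

/-- The permutation `(u, r) ↦ (pr r u, r)`. -/
def fib {A B : Type} (pr : B → Equiv.Perm A) : Equiv.Perm (A × B) where
  toFun z := (pr z.2 z.1, z.2)
  invFun z := ((pr z.2)⁻¹ z.1, z.2)
  left_inv z := by simp
  right_inv z := by simp

/-- The permutation of cells which maps the cell `r` of the cube `u` (of level `l`) to the cell `r` of
the cube `pr r u`. -/
def act {l L : ℕ} (h : l ≤ L) (pr : Cell (L - l) → Equiv.Perm (Cell l)) : Equiv.Perm (Cell L) :=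
  (sp h).symm.permCongr (fib pr)

open Classical in
/-- The exchange of two cubes of level `l`. -/
def xch {l L : ℕ} (h : l ≤ L) (d e : Cell l) : Equiv.Perm (Cell L) := act h (fun _ => Equiv.swap d e)

open Classical in
/-- The cycle `d₁ → d₂ → d₃ → d₁` of cubes of level `l`. -/
def cyc {l L : ℕ} (h : l ≤ L) (d₁ d₂ d₃ : Cell l) : Equiv.Perm (Cell L) :=
  act h (fun _ => Equiv.swap d₁ d₂ * Equiv.swap d₂ d₃)

/-- `e` is the neighbour of `d` in a positive direction. -/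
def Adj {l : ℕ} (d e : Cell l) : Prop := ∃ k, (e k : ℕ) = d k + 1 ∧ ∀ m, m ≠ k → e m = d m

/-- `e` is a neighbour of `d` in the direction `i`. -/
def Nbr {l : ℕ} (i : Fin 4) (d e : Cell l) : Prop :=
  ((e i : ℕ) = d i + 1 ∨ (e i : ℕ) + 1 = d i) ∧ ∀ m, m ≠ i → e m = d m

/-- An L-shaped triple with the corner `d₁`. -/
def LTri {l : ℕ} (d₁ d₂ d₃ : Cell l) : Prop := ∃ i j, i ≠ j ∧ Nbr i d₁ d₂ ∧ Nbr j d₁ d₃

/-- A region: an L-shaped triple or a single cube. -/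
def Reg {l : ℕ} (d₁ d₂ d₃ : Cell l) : Prop := LTri d₁ d₂ d₃ ∨ (d₂ = d₁ ∧ d₃ = d₁)

/-- The cube `b` of level `l'` is contained in the region. -/
def InReg {l l' : ℕ} (h : l ≤ l') (d₁ d₂ d₃ : Cell l) (b : Cell l') : Prop :=
  (sp h b).1 = d₁ ∨ (sp h b).1 = d₂ ∨ (sp h b).1 = d₃

/-- The weight of a cube, with the volume factor. -/
def wv (q a : ℝ) {l : ℕ} (d : Cell l) : ℝ := wt a l (fun k => (d k : ℕ)) * (2 ^ l : ℝ) ^ (-q)

section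

variable {L : ℕ}

/-- Permutations of the cells of one cube of level `l` cost at most `A`. -/
def SA (q a : ℝ) (P : Equiv.Perm (Cell L) → ℝ → Prop) (l : ℕ) (A : ℝ) : Prop :=
  ∀ (h : l ≤ L) (d : Cell l) (σ : Equiv.Perm (Cell L)), (∀ x, σ x ≠ x → (sp h x).1 = d) →
    P σ (A * wv q a d)

/-- Exchanges of adjacent cubes of level `l` cost at most `S`. -/
def SS (q a : ℝ) (P : Equiv.Perm (Cell L) → ℝ → Prop) (l : ℕ) (S : ℝ) : Prop :=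
  ∀ (h : l ≤ L) (d e : Cell l), Adj d e → P (xch h d e) (S * wv q a d)

/-- L-shaped cycles of cubes of level `l` cost at most `T`. -/
def STr (q a : ℝ) (P : Equiv.Perm (Cell L) → ℝ → Prop) (l : ℕ) (T : ℝ) : Prop :=
  ∀ (h : l ≤ L) (d₁ d₂ d₃ : Cell l), LTri d₁ d₂ d₃ → P (cyc h d₁ d₂ d₃) (T * wv q a d₁)

end

/-- `r` is in the block with the position `ρ` on the sublevel `j`. -/
def blk (m j : ℕ) (ρ : Fin 4 → ℕ) (r : Cell m) : Prop := ∀ k, (r k : ℕ) / 2 ^ (m - j) = ρ k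

/-- Costs of permutations. -/
structure PK {X : Type} (P : Equiv.Perm X → ℝ → Prop) : Prop where
  one : P 1 0
  mono : ∀ σ b c, b ≤ c → P σ b → P σ c
  mul : ∀ σ τ b c, P σ b → P τ c → P (σ * τ) (b + c)
  inv : ∀ σ b, P σ b → P σ⁻¹ b

open Classical in
/-- The permutation `fib pr`, carried by the embedding `e`. -/
def mvP {X : Type} {N m : ℕ} (e : Fin N × Cell m ↪ X) (pr : Cell m → Equiv.Perm (Fin N)) :
    Equiv.Perm X := (fib pr).viaEmbedding e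

/-! ### The statements -/

/-- Elementary estimates of weights. -/
structure CBW : Prop where
  pos : ∀ (q a : ℝ) (l : ℕ) (d : Cell l), 0 < wv q a d
  anc : ∀ (a : ℝ), 0 ≤ a → a < 1 → ∀ (l l' : ℕ) (h : l ≤ l') (b : Cell l'),
    wt a l' (fun k => (b k : ℕ)) ≤
      (2 : ℝ) ^ (((l' : ℝ) - l) * a) * wt a l (fun k => ((sp h b).1 k : ℕ))
  nbr : ∀ (a : ℝ), 0 ≤ a → a < 1 → ∀ (l : ℕ) (i : Fin 4) (d e : Cell l), Nbr i d e →
    wt a l (fun k => (e k : ℕ)) ≤ 2 * wt a l (fun k => (d k : ℕ))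
  sum : ∀ (a : ℝ), 0 ≤ a → a < 1 → ∀ (l K : ℕ) (d : Cell l),
    ∑ r : Cell K, wt a (l + K) (fun k => (d k : ℕ) * 2 ^ K + (r k : ℕ)) ≤
      (2 / (1 - a)) * 16 ^ K * wt a l (fun k => (d k : ℕ))

/-- Integer matrices with constant row and column sums. -/
def CBBirk : Prop := ∀ (N s : ℕ) (A : Fin N → Fin N → ℕ), (∀ i, ∑ j, A i j = s) →
  (∀ j, ∑ i, A i j = s) → ∃ (R : ℕ) (π : Fin R → Equiv.Perm (Fin N)) (n : Fin R → ℕ),
    R ≤ N ^ 2 + 1 ∧ ∑ k, n k = s ∧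
    ∀ i j, A i j = ∑ k, if π k i = j then n k else 0

open Classical in
/-- Two permutations with the same transport numbers between the fibres. -/
def CBCos : Prop := ∀ (A B : Type) [Fintype A] [Fintype B] (σ τ : Equiv.Perm (A × B)),
  (∀ i j, (Finset.univ.filter (fun r => (σ (i, r)).1 = j)).card =
    (Finset.univ.filter (fun r => (τ (i, r)).1 = j)).card) →
  ∃ α β : Equiv.Perm (A × B), (∀ z, (α z).1 = z.1) ∧ (∀ z, (β z).1 = z.1) ∧ σ = α * τ * β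

open Classical in
/-- The block lemma: a piecewise constant movement of a family of congruent cubes. -/
def CBBlk : Prop := ∀ (X : Type) (P : Equiv.Perm X → ℝ → Prop), PK P → ∀ (N m : ℕ)
  (e : Fin N × Cell m ↪ X) (c : ℕ → ℝ), (∀ j, 0 ≤ c j) → (∀ j ≤ m, ∀ (ρ : Fin 4 → ℕ)
    (π : Equiv.Perm (Fin N)), P (mvP e (fun r => if blk m j ρ r then π else 1)) (c j)) →
  ∀ f : ℕ → ℕ, Monotone f → ∀ π : ℕ → Equiv.Perm (Fin N), ∀ (j₀ n : ℕ),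
  (∀ t, π (f t) ≠ 1 → t < n) → (∀ j < j₀, n < 16 ^ (m - j)) → ∃ g : Cell m → ℕ,
    (∀ v, (Finset.univ.filter (fun r => g r = v)).card =
      ((Finset.range (16 ^ m)).filter (fun t => f t = v)).card) ∧
    P (mvP e (fun r => π (g r)))
      (16 * ((f (16 ^ m) : ℝ) - f 0 + 1) * ∑ j ∈ Finset.Icc j₀ m, c j)

open Classical in
/-- The mixing lemma: an arbitrary permutation of the cells of a family of congruent cubes. -/
def CBMix : Prop := ∀ (X : Type) (P : Equiv.Perm X → ℝ → Prop), PK P → ∀ (N m : ℕ)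
  (e : Fin N × Cell m ↪ X) (c : ℕ → ℝ) (Aα : ℝ), (∀ j, 0 ≤ c j) → (∀ j ≤ m, ∀ (ρ : Fin 4 → ℕ)
    (π : Equiv.Perm (Fin N)), P (mvP e (fun r => if blk m j ρ r then π else 1)) (c j)) →
  (∀ α : Equiv.Perm (Fin N × Cell m), (∀ z, (α z).1 = z.1) → P (α.viaEmbedding e) Aα) →
  ∀ (σ : Equiv.Perm (Fin N × Cell m)) (j₀ n : ℕ),
  (∀ i, (Finset.univ.filter (fun r => (σ (i, r)).1 ≠ i)).card ≤ n) → n ≤ 16 ^ m →
  (∀ j < j₀, n < 16 ^ (m - j)) →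
  P (σ.viaEmbedding e) (2 * Aα + 16 * ((N : ℝ) ^ 2 + 3) * ∑ j ∈ Finset.Icc j₀ m, c j)

/-- Exchange of two cubes of a region. -/
def CBChain : Prop := ∀ (q a : ℝ), 4 < q → 0 ≤ a → a < 1 → ∀ (L : ℕ)
  (P : Equiv.Perm (Cell L) → ℝ → Prop), PK P → ∀ (l l' : ℕ) (h : l ≤ l') (h' : l' ≤ L) (S : ℝ),
  0 ≤ S → SS q a P l' S → ∀ d₁ d₂ d₃ : Cell l, Reg d₁ d₂ d₃ → ∀ b b' : Cell l',
  InReg h d₁ d₂ d₃ b → InReg h d₁ d₂ d₃ b' →
  P (xch h' b b') (64 * S * (2 : ℝ) ^ (((l' : ℝ) - l) * (1 + a - q)) * wv q a d₁)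

open Classical in
/-- Permutations of the blocks of a family of cubes of a region. -/
def CBFam : Prop := ∀ N : ℕ, ∃ CN : ℝ, 0 ≤ CN ∧ ∀ (q a : ℝ), 4 < q → 0 ≤ a → a < 1 → ∀ (L : ℕ)
  (P : Equiv.Perm (Cell L) → ℝ → Prop), PK P → ∀ (l l' : ℕ) (h : l ≤ l') (h' : l' ≤ L) (j : ℕ),
  l' + j ≤ L → ∀ (S : ℝ), 0 ≤ S → SS q a P (l' + j) S → ∀ d₁ d₂ d₃ : Cell l, Reg d₁ d₂ d₃ →
  ∀ (D : Fin N ↪ Cell l'), (∀ i, InReg h d₁ d₂ d₃ (D i)) → ∀ (e : Fin N × Cell (L - l') ↪ Cell L),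
  (∀ z, e z = (sp h').symm (D z.1, z.2)) → ∀ (ρ : Fin 4 → ℕ) (π : Equiv.Perm (Fin N)),
  P (mvP e (fun r => if blk (L - l') j ρ r then π else 1))
    (CN * S * (2 : ℝ) ^ (((l' : ℝ) + j - l) * (1 + a - q)) * wv q a d₁)

/-- The step for permutations of one cube. -/
def CBStepA : Prop := ∀ (q a : ℝ), 4 < q → 0 ≤ a → a < 1 → ∀ K : ℕ, ∃ CK : ℝ, 0 ≤ CK ∧ ∀ (L : ℕ)
  (P : Equiv.Perm (Cell L) → ℝ → Prop), PK P → ∀ (l : ℕ) (A S : ℝ), l + K ≤ L → 0 ≤ A → 0 ≤ S →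
  SA q a P (l + K) A → (∀ l', l + K ≤ l' → l' ≤ L → SS q a P l' S) →
  SA q a P l ((4 / (1 - a)) * (2 : ℝ) ^ ((K : ℝ) * (4 - q)) * A + CK * S)

/-- The step for L-shaped cycles. -/
def CBStepT : Prop := ∀ (q a : ℝ), 4 < q → 0 ≤ a → a < 1 → ∃ C2 : ℝ, 0 ≤ C2 ∧ ∀ K : ℕ, ∃ CK : ℝ,
  0 ≤ CK ∧ ∀ (κ : ℕ), K + 4 ≤ κ → ∀ (C0 : ℝ) (Ck : ℕ → ℝ) (L : ℕ)
  (P : Equiv.Perm (Cell L) → ℝ → Prop), PC q a C0 Ck L P → ∀ (l : ℕ) (A S : ℝ), l + κ + 4 ≤ L →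
  0 ≤ A → 0 ≤ S → SA q a P (l + K) A → (∀ l', l + K ≤ l' → l' ≤ L → SS q a P l' S) →
  STr q a P l (Ck κ + C2 * (2 : ℝ) ^ ((K : ℝ) * (3 + a - q)) * A +
    CK * (2 : ℝ) ^ ((κ : ℝ) * ((1 + a - q) / 4)) * S)

/-- Exchanges of adjacent cubes from L-shaped cycles of half cubes. -/
def CBStepS : Prop := ∀ (q a : ℝ), 4 < q → 0 ≤ a → a < 1 → ∀ (L : ℕ)
  (P : Equiv.Perm (Cell L) → ℝ → Prop), PK P → ∀ (l : ℕ) (T : ℝ), l + 1 ≤ L → 0 ≤ T →
  STr q a P (l + 1) T → SS q a P l (256 * T)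

/-- Small cubes. -/
def CBSmall : Prop := ∀ (q a : ℝ), 4 < q → 0 ≤ a → a < 1 → ∀ (C0 : ℝ), 0 ≤ C0 → ∀ m₀ : ℕ,
  ∃ Cs : ℝ, 0 ≤ Cs ∧ ∀ (Ck : ℕ → ℝ) (L : ℕ) (P : Equiv.Perm (Cell L) → ℝ → Prop),
  PC q a C0 Ck L P → ∀ l, l ≤ L → L ≤ l + m₀ → SA q a P l Cs ∧ SS q a P l Cs ∧ STr q a P l Cs

end

end Pool.Agent.H6.ST
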