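import Pool.Agent.H6.ST.CB.Defs

/-! # ST-CB1: elementary estimates of weights -/

namespace Pool.Agent.H6.ST

open Set
open scoped ENNReal ContDiff

noncomputable section

namespace CBWaux

lemma t1_pos (l d : ℕ) : 0 < ((d : ℝ) + 1) / 2 ^ l := by positivity

lemma t2_pos {l d : ℕ} (h : d < 2 ^ l) : 0 < ((2 : ℝ) ^ l - d) / 2 ^ l := by
  have h1 : (d : ℝ) < 2 ^ l := by exact_mod_cast h
  have h2 : (0 : ℝ) < 2 ^ l - d := by linarith
  positivity

lemma term_pos (a : ℝ) {l d : ℕ} (h : d < 2 ^ l) :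
    0 < (((d : ℝ) + 1) / 2 ^ l) ^ (-a) + (((2 : ℝ) ^ l - d) / 2 ^ l) ^ (-a) :=
  add_pos (Real.rpow_pos_of_pos (t1_pos l d) _) (Real.rpow_pos_of_pos (t2_pos h) _)

lemma wt_pos (a : ℝ) {l : ℕ} (d : Fin 4 → ℕ) (h : ∀ k, d k < 2 ^ l) : 0 < wt a l d := by
  unfold wt
  exact Finset.sum_pos (fun k _ => term_pos a (h k)) Finset.univ_nonempty

/-- Scaling of one term. -/
lemma scale_le {a c x y : ℝ} (ha : 0 ≤ a) (hc : 0 < c) (hx : 0 < x) (h : c⁻¹ * x ≤ y) :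
    y ^ (-a) ≤ c ^ a * x ^ (-a) := by
  have h1 : y ^ (-a) ≤ (c⁻¹ * x) ^ (-a) :=
    Real.rpow_le_rpow_of_nonpos (by positivity) h (by linarith)
  refine h1.trans (le_of_eq ?_)
  rw [Real.mul_rpow (by positivity) hx.le, Real.rpow_neg (by positivity : (0 : ℝ) ≤ c⁻¹),
    Real.inv_rpow hc.le, inv_inv]

/-- One step of the telescope. -/
lemma step_le {a y : ℝ} (ha : 0 ≤ a) (ha1 : a < 1) (hy : 1 ≤ y) :
    y ^ (-a) ≤ (y ^ (1 - a) - (y - 1) ^ (1 - a)) / (1 - a) := by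
  have hy0 : 0 < y := by linarith
  have h1 : (1 + (-(1 / y))) ^ (1 - a) ≤ 1 + (1 - a) * (-(1 / y)) := by
    apply rpow_one_add_le_one_add_mul_self _ (by linarith) (by linarith)
    have : 1 / y ≤ 1 := by rw [div_le_one hy0]; exact hy
    linarith
  have h2 : (y - 1) ^ (1 - a) = y ^ (1 - a) * (1 + (-(1 / y))) ^ (1 - a) := by
    rw [← Real.mul_rpow hy0.le]
    · congr 1; field_simp; ring
    · have : 1 / y ≤ 1 := by rw [div_le_one hy0]; exact hy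
      linarith
  have h3 : y ^ (-a) = y ^ (1 - a) * (1 / y) := by
    rw [show -a = (1 - a) - 1 by ring, Real.rpow_sub_one hy0.ne']; ring
  rw [le_div_iff₀ (by linarith), h2, h3]
  have hp : 0 ≤ y ^ (1 - a) := Real.rpow_nonneg hy0.le _
  nlinarith [mul_le_mul_of_nonneg_left h1 hp]

lemma diff_le {a : ℝ} (ha : 0 ≤ a) (ha1 : a < 1) (D : ℕ) :
    ((D : ℝ) + 1) ^ (1 - a) - (D : ℝ) ^ (1 - a) ≤ ((D : ℝ) + 1) ^ (-a) := by
  have h0 : (0 : ℝ) < (D : ℝ) + 1 := by positivity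
  have h1 : ((D : ℝ) + 1) ^ (1 - a) = ((D : ℝ) + 1) ^ (-a) * ((D : ℝ) + 1) := by
    rw [show 1 - a = -a + 1 by ring, Real.rpow_add_one h0.ne']
  rcases Nat.eq_zero_or_pos D with hD | hD
  · subst hD
    simp [Real.zero_rpow (by linarith : (1 - a) ≠ 0)]
  · have hD' : (0 : ℝ) < D := by exact_mod_cast hD
    have h2 : (D : ℝ) ^ (1 - a) = (D : ℝ) ^ (-a) * D := by
      rw [show 1 - a = -a + 1 by ring, Real.rpow_add_one hD'.ne']
    have h3 : ((D : ℝ) + 1) ^ (-a) ≤ (D : ℝ) ^ (-a) :=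
      Real.rpow_le_rpow_of_nonpos hD' (by linarith) (by linarith)
    rw [h1, h2]
    nlinarith [mul_le_mul_of_nonneg_right h3 hD'.le]

/-- The one-dimensional estimate, unscaled. -/
lemma one_dim {a : ℝ} (ha : 0 ≤ a) (ha1 : a < 1) (D N : ℕ) (hN : 0 < N) :
    ∑ s ∈ Finset.range N, ((D : ℝ) * N + s + 1) ^ (-a) ≤
      (N : ℝ) ^ (1 - a) * ((D : ℝ) + 1) ^ (-a) / (1 - a) := by
  have h1 : ∑ s ∈ Finset.range N, ((D : ℝ) * N + s + 1) ^ (-a) ≤
      ∑ s ∈ Finset.range N, ((((D : ℝ) * N + (s + 1 : ℕ)) ^ (1 - a)) / (1 - a) -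
        (((D : ℝ) * N + s) ^ (1 - a)) / (1 - a)) := by
    refine Finset.sum_le_sum fun s _ => ?_
    have h := step_le (a := a) (y := (D : ℝ) * N + s + 1) ha ha1 (by
      have : (0 : ℝ) ≤ (D : ℝ) * N + s := by positivity
      linarith)
    refine h.trans (le_of_eq ?_)
    rw [← sub_div]
    push_cast
    congr 3
    · ring
    · ring
  refine h1.trans ?_
  rw [Finset.sum_range_sub (fun s : ℕ => (((D : ℝ) * N + s) ^ (1 - a)) / (1 - a))]
  have hN' : (0 : ℝ) < N := by exact_mod_cast hN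
  have h2 : ((D : ℝ) * N + (N : ℕ)) ^ (1 - a) = (N : ℝ) ^ (1 - a) * ((D : ℝ) + 1) ^ (1 - a) := by
    rw [← Real.mul_rpow hN'.le (by positivity)]; congr 1; ring
  have h3 : ((D : ℝ) * N + ((0 : ℕ) : ℝ)) ^ (1 - a) = (N : ℝ) ^ (1 - a) * (D : ℝ) ^ (1 - a) := by
    rw [← Real.mul_rpow hN'.le (by positivity)]; congr 1; push_cast; ring
  rw [h2, h3, ← sub_div]
  refine div_le_div_of_nonneg_right ?_ (by linarith)
  rw [← mul_sub]
  exact mul_le_mul_of_nonneg_left (diff_le ha ha1 D) (Real.rpow_nonneg hN'.le _)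

/-- The one-dimensional estimate. -/
lemma one_dim' {a : ℝ} (ha : 0 ≤ a) (ha1 : a < 1) (D l K : ℕ) :
    ∑ s ∈ Finset.range (2 ^ K), (((D : ℝ) * 2 ^ K + s + 1) / 2 ^ (l + K)) ^ (-a) ≤
      2 ^ K / (1 - a) * (((D : ℝ) + 1) / 2 ^ l) ^ (-a) := by
  have hN : 0 < 2 ^ K := by positivity
  have h := one_dim ha ha1 D (2 ^ K) hN
  push_cast at h
  have hK : (0 : ℝ) < 2 ^ K := by positivity
  have hl : (0 : ℝ) < 2 ^ l := by positivity
  have e1 : ∀ s : ℕ, (((D : ℝ) * 2 ^ K + s + 1) / 2 ^ (l + K)) ^ (-a) =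
      (((2 : ℝ) ^ l) ^ a * ((2 : ℝ) ^ K) ^ a) * ((D : ℝ) * 2 ^ K + s + 1) ^ (-a) := by
    intro s
    rw [Real.div_rpow (by positivity) (by positivity), Real.rpow_neg (by positivity : (0:ℝ) ≤ 2 ^ (l + K)),
      div_inv_eq_mul, pow_add, Real.mul_rpow hl.le hK.le]
    ring
  have e2 : (((D : ℝ) + 1) / 2 ^ l) ^ (-a) = ((2 : ℝ) ^ l) ^ a * ((D : ℝ) + 1) ^ (-a) := by
    rw [Real.div_rpow (by positivity) (by positivity), Real.rpow_neg hl.le, div_inv_eq_mul]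
    ring
  rw [Finset.sum_congr rfl (fun s _ => e1 s), ← Finset.mul_sum, e2]
  have h5 := mul_le_mul_of_nonneg_left h
    (by positivity : (0 : ℝ) ≤ ((2 : ℝ) ^ l) ^ a * ((2 : ℝ) ^ K) ^ a)
  refine h5.trans (le_of_eq ?_)
  have h6 : ((2 : ℝ) ^ K) ^ a * ((2 : ℝ) ^ K) ^ (1 - a) = 2 ^ K := by
    rw [← Real.rpow_add hK]; simp
  calc ((2 : ℝ) ^ l) ^ a * ((2 : ℝ) ^ K) ^ a * (((2 : ℝ) ^ K) ^ (1 - a) * ((D : ℝ) + 1) ^ (-a) / (1 - a))
      = (((2 : ℝ) ^ K) ^ a * ((2 : ℝ) ^ K) ^ (1 - a)) / (1 - a) *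
        (((2 : ℝ) ^ l) ^ a * ((D : ℝ) + 1) ^ (-a)) := by ring
    _ = _ := by rw [h6]

/-- A sum over cells of a function of one coordinate. -/
lemma sum_coord {α : Type} [Fintype α] (g : α → ℝ) (k : Fin 4) :
    ∑ r : Fin 4 → α, g (r k) = (Fintype.card α : ℝ) ^ 3 * ∑ s, g s := by
  classical
  rw [← Equiv.sum_comp (Fin.insertNthEquiv (fun _ => α) k) (fun r : Fin 4 → α => g (r k)),
    Fintype.sum_prod_type]
  simp only [Fin.insertNthEquiv_apply, Fin.insertNth_apply_same, Finset.sum_const,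
    Finset.card_univ, nsmul_eq_mul]
  rw [← Finset.mul_sum]
  simp

end CBWaux

open CBWaux

theorem cbw : CBW where
  pos q a l d := by
    unfold wv
    exact mul_pos (wt_pos a _ fun k => (d k).isLt) (Real.rpow_pos_of_pos (by positivity) _)
  anc a ha ha1 l l' h b := by
    unfold wt
    rw [Finset.mul_sum]
    refine Finset.sum_le_sum fun k _ => ?_
    beta_reduce
    have hb := (b k).isLt
    obtain ⟨K, rfl⟩ := Nat.exists_eq_add_of_le h
    have hd : (((sp h b).1 k : Fin (2 ^ l)) : ℕ) = (b k : ℕ) / 2 ^ K := by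
      show (b k : ℕ) / 2 ^ (l + K - l) = _
      rw [Nat.add_sub_cancel_left]
    set D : ℕ := (b k : ℕ) / 2 ^ K with hD
    set B : ℕ := (b k : ℕ) with hB
    have hKpos : 0 < 2 ^ K := by positivity
    have hDB : D ≤ B := Nat.div_le_self _ _
    have hDl : D < 2 ^ l := by
      rw [hD, Nat.div_lt_iff_lt_mul hKpos, ← pow_add]; exact hb
    have hBD : B < (D + 1) * 2 ^ K := by
      have := Nat.lt_div_mul_add (a := B) hKpos
      rw [add_mul, one_mul]; exact this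
    have hc : (2 : ℝ) ^ ((((l + K : ℕ) : ℝ) - l) * a) = ((2 : ℝ) ^ K) ^ a := by
      have : (((l + K : ℕ) : ℝ) - l) = (K : ℝ) := by push_cast; ring
      rw [this, Real.rpow_mul (by norm_num), Real.rpow_natCast]
    rw [hd, hc, mul_add]
    have hK : (0 : ℝ) < 2 ^ K := by positivity
    have hl : (0 : ℝ) < 2 ^ l := by positivity
    refine add_le_add ?_ ?_
    · refine scale_le ha hK (t1_pos l D) ?_
      rw [pow_add, inv_mul_le_iff₀ hK, mul_div_assoc', div_le_div_iff₀ hl (by positivity)]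
      have h1 : (D : ℝ) ≤ B := by exact_mod_cast hDB
      have h2 : ((D : ℝ) + 1) * (2 ^ l * 2 ^ K) ≤ ((B : ℝ) + 1) * (2 ^ l * 2 ^ K) :=
        mul_le_mul_of_nonneg_right (by linarith) (by positivity)
      calc ((D : ℝ) + 1) * (2 ^ l * 2 ^ K) ≤ ((B : ℝ) + 1) * (2 ^ l * 2 ^ K) := h2
        _ = _ := by ring
    · refine scale_le ha hK (t2_pos hDl) ?_
      rw [pow_add, inv_mul_le_iff₀ hK, mul_div_assoc', div_le_div_iff₀ hl (by positivity)]
      have h1 : (B : ℝ) + 1 ≤ ((D : ℝ) + 1) * 2 ^ K := by exact_mod_cast hBD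
      have h2 : (D : ℝ) + 1 ≤ 2 ^ l := by exact_mod_cast hDl
      have h3 : (1 : ℝ) ≤ 2 ^ K := one_le_pow₀ (by norm_num)
      have h4 : (2 : ℝ) ^ l - D ≤ 2 ^ l * 2 ^ K - B := by
        nlinarith [mul_nonneg (sub_nonneg.2 h2) (sub_nonneg.2 h3)]
      calc ((2 : ℝ) ^ l - D) * (2 ^ l * 2 ^ K) ≤ (2 ^ l * 2 ^ K - B) * (2 ^ l * 2 ^ K) :=
            mul_le_mul_of_nonneg_right h4 (by positivity)
        _ = _ := by ring
  nbr a ha ha1 l i d e hde := by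
    unfold wt
    rw [Finset.mul_sum]
    refine Finset.sum_le_sum fun k _ => ?_
    have hl : (0 : ℝ) < 2 ^ l := by positivity
    have h2a : (2 : ℝ) ^ a ≤ 2 := by
      calc (2 : ℝ) ^ a ≤ (2 : ℝ) ^ (1 : ℝ) :=
            Real.rpow_le_rpow_of_exponent_le (by norm_num) ha1.le
        _ = 2 := by simp
    have hdk := (d k).isLt
    have hek := (e k).isLt
    have key : (d k : ℕ) + 1 ≤ 2 * ((e k : ℕ) + 1) ∧ 2 ^ l + 2 * (e k : ℕ) ≤ 2 * 2 ^ l + (d k : ℕ) := by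
      by_cases hk : k = i
      · subst hk
        rcases hde.1 with h | h
        · constructor <;> omega
        · constructor <;> omega
      · rw [hde.2 k hk]
        constructor <;> omega
    have k1 : ((d k : ℕ) : ℝ) + 1 ≤ 2 * (((e k : ℕ) : ℝ) + 1) := by exact_mod_cast key.1
    have k2 : (2 : ℝ) ^ l + 2 * ((e k : ℕ) : ℝ) ≤ 2 * 2 ^ l + ((d k : ℕ) : ℝ) := by
      exact_mod_cast key.2
    rw [mul_add]
    refine add_le_add ?_ ?_
    · refine (scale_le (c := 2) ha (by norm_num) (t1_pos l (d k)) ?_).trans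
        (mul_le_mul_of_nonneg_right h2a (Real.rpow_nonneg (t1_pos l _).le _))
      rw [inv_mul_le_iff₀ (by norm_num), mul_div_assoc']
      exact div_le_div_of_nonneg_right k1 hl.le
    · refine (scale_le (c := 2) ha (by norm_num) (t2_pos hdk) ?_).trans
        (mul_le_mul_of_nonneg_right h2a (Real.rpow_nonneg (t2_pos hdk).le _))
      rw [inv_mul_le_iff₀ (by norm_num), mul_div_assoc']
      exact div_le_div_of_nonneg_right (by linarith) hl.le
  sum a ha ha1 l K d := by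
    unfold wt
    rw [Finset.sum_comm, Finset.mul_sum]
    refine Finset.sum_le_sum fun k _ => ?_
    rw [sum_coord (fun s : Fin (2 ^ K) =>
      (((((d k : ℕ) * 2 ^ K + (s : ℕ) : ℕ) : ℝ) + 1) / 2 ^ (l + K)) ^ (-a) +
        (((2 : ℝ) ^ (l + K) - (((d k : ℕ) * 2 ^ K + (s : ℕ) : ℕ) : ℝ)) / 2 ^ (l + K)) ^ (-a)) k,
      Fintype.card_fin]
    set D : ℕ := (d k : ℕ) with hD
    have hDl : D < 2 ^ l := (d k).isLt
    have hK : (0 : ℝ) < 2 ^ K := by positivity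
    have hl : (0 : ℝ) < 2 ^ l := by positivity
    have h1a : 0 < 1 - a := by linarith
    rw [Finset.sum_add_distrib]
    have S1 : ∑ s : Fin (2 ^ K), (((((D * 2 ^ K + (s : ℕ) : ℕ) : ℝ) + 1) / 2 ^ (l + K)) ^ (-a)) ≤
        2 ^ K / (1 - a) * (((D : ℝ) + 1) / 2 ^ l) ^ (-a) := by
      rw [Fin.sum_univ_eq_sum_range (fun s => (((((D * 2 ^ K + s : ℕ) : ℝ) + 1) /
        2 ^ (l + K)) ^ (-a))) (2 ^ K)]
      push_cast
      exact one_dim' ha ha1 D l K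
    have S2 : ∑ s : Fin (2 ^ K), (((2 : ℝ) ^ (l + K) - ((D * 2 ^ K + (s : ℕ) : ℕ) : ℝ)) /
        2 ^ (l + K)) ^ (-a) ≤ 2 ^ K / (1 - a) * (((2 : ℝ) ^ l - D) / 2 ^ l) ^ (-a) := by
      rw [Fin.sum_univ_eq_sum_range (fun s => (((2 : ℝ) ^ (l + K) - ((D * 2 ^ K + s : ℕ) : ℝ)) /
        2 ^ (l + K)) ^ (-a)) (2 ^ K), ← Finset.sum_range_reflect]
      obtain ⟨D', hD'⟩ : ∃ D', 2 ^ l = D + D' + 1 := ⟨2 ^ l - D - 1, by omega⟩
      have hD'' : (2 : ℝ) ^ l = D + D' + 1 := by exact_mod_cast hD'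
      have h := one_dim' ha ha1 D' l K
      have e1 : (2 : ℝ) ^ l - D = D' + 1 := by rw [hD'']; ring
      rw [e1]
      refine le_trans (le_of_eq ?_) h
      refine Finset.sum_congr rfl fun s hs => ?_
      have hs' := Finset.mem_range.1 hs
      congr 2
      have e2 : ((D * 2 ^ K + (2 ^ K - 1 - s) : ℕ) : ℝ) = D * 2 ^ K + (2 ^ K - 1 - s) := by
        have : ((2 ^ K - 1 - s : ℕ) : ℝ) = 2 ^ K - 1 - s := by
          rw [Nat.cast_sub (by omega), Nat.cast_sub (by omega)]; push_cast; ring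
        push_cast [this]; ring
      rw [e2, pow_add, hD'']
      ring
    have e16 : (16 : ℝ) ^ K = (2 ^ K) ^ 3 * 2 ^ K := by
      rw [← pow_succ, ← pow_mul, show (16 : ℝ) = 2 ^ 4 by norm_num, ← pow_mul]; congr 1; ring
    have T1 : 0 ≤ (((D : ℝ) + 1) / 2 ^ l) ^ (-a) := Real.rpow_nonneg (t1_pos l D).le _
    have T2 : 0 ≤ (((2 : ℝ) ^ l - D) / 2 ^ l) ^ (-a) := Real.rpow_nonneg (t2_pos hDl).le _
    push_cast at S1 S2 ⊢
    calc ((2 : ℝ) ^ K) ^ 3 * _ ≤ ((2 : ℝ) ^ K) ^ 3 * (2 ^ K / (1 - a) * (((D : ℝ) + 1) / 2 ^ l) ^ (-a) +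
          2 ^ K / (1 - a) * (((2 : ℝ) ^ l - D) / 2 ^ l) ^ (-a)) :=
          mul_le_mul_of_nonneg_left (add_le_add S1 S2) (by positivity)
      _ = 1 / (1 - a) * 16 ^ K * ((((D : ℝ) + 1) / 2 ^ l) ^ (-a) +
          (((2 : ℝ) ^ l - D) / 2 ^ l) ^ (-a)) := by rw [e16]; ring
      _ ≤ _ := by
          refine mul_le_mul_of_nonneg_right ?_ (add_nonneg T1 T2)
          refine mul_le_mul_of_nonneg_right ?_ (by positivity)
          exact div_le_div_of_nonneg_right (by norm_num) h1a.le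

end

end Pool.Agent.H6.ST
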